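import Pool.Agent.LKH.Pb

/-!
# LKH/Fing (difficulty 3): a finger along a radial segment to the axis

`B̂` is any compact set equal to `B` in the slab `|h - x.2| < ν`; the finger is made in this slab. PROOF. Let `x = (-ρ₀ i, h₀)`, `ρ₀ > 0`, and `ρ, η, d` as in `Crs B x` (`ρ 0 = -ρ₀`, `η 0 = h₀`: `x ∈ B`). The compact set `C = B \ {q | |q.1.re| < d ∧ |q.1.im - x.1.im| < d ∧ |q.2 - h₀| < d}` does not meet the segment
`S = {(-r i, h₀) | 0 ≤ r ≤ ρ₀}` (for `0 < r` by `hs`, `r = 0` by `hU`), so there is `d' > 0` with: no point of `C` in `N = {q | |q.1.re| < d' ∧ -ρ₀ - d' < q.1.im < d' ∧ |q.2 - h₀| < d'}`, `d' ≤ d`, `d' < ν`, `d' < ρ₀`. By continuity there is `δ ∈ (0, d')` with `|ρ t + ρ₀| < d'`, `|η t - h₀| < d'` for `|t| ≤ δ`.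
Let `ε₀ = min (δ / 100) (ρ₀ / 10)` and such that `B` has no point with `‖q.1‖ ≤ 22 ε₀` (compact, disjoint from `U`; only needed in the slab). Let `b t = 1 - stp (δ²/16) (δ²/4) (t²)` (`1` for `|t| ≤ δ/4`, `0` for `δ/2 ≤ |t|`),
`k s t = pt t (ρ t + s b t (-2 ε - ρ t)) (η t + s b t (h₀ - η t))`, `t ∈ [-δ, δ]`. `k 0 '' [-δ, δ] ⊆ B̂` is the part of `B̂` near `x`. `Z = B̂ \ k 0 '' Ioo (-δ) δ`: closed (`k 0 '' Ioo (-δ) δ` is `B̂ ∩ {|re w| < δ, |im w - x.1.im| < d, |h - h₀| < d}` minus ... : take the open box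
`{q | |q.1.re| < δ ∧ |q.1.im - x.1.im| < d ∧ |q.2 - h₀| < min d ν}`; in it `B̂` is the graph, and the graph over `|t| < δ` is in it since `d' ≤ d`). `arcB` with `A = U`: `k s t ∉ U`: for `t = 0` the depth is between `-ρ₀` and `-2 ε`, negative. `k s t ∉ Z` for `|t| ≤ δ/2`: `k s t ∈ N` (depth between `-ρ₀ - d'` and `d'`: convex combination of `ρ t` and `-2 ε`), so a point of
`B̂ ∩ N = B ∩ N` is not in `C`, it is on the graph, so equal to `k 0 t` (same `re`), which is not in `Z`. `B1 = Z ∪ k 1 '' [-δ, δ]`.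
Conclusions: outside the slab nothing changes. `‖q.1‖ ≤ 22 ε`, in the slab: `q ∉ Z` (as `Z ⊆ B̂`), so `q = k 1 t` with `|t| ≤ 22 ε ≤ δ/4`: `q = pt t (-2 ε) h₀`; conversely such a point is `k 1 q.1.re`. `q ∈ Hp` in the slab: `q ∈ Z` gives `q ∈ B ∩ Hp`, `q = x = k 0 0 ∉ Z`; so `q = k 1 0 = (-2 ε i, h₀)`.
`Disjoint U B1`: `k 1 t ∈ U` only for `t = 0`.
-/

open scoped ContDiff Topology
open Set Filter
open Complex (I)
open Pool.Agent.CSG
open Pool.Agent.KNT (Dom BalC Tubes Str CD U)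
open Pool.Agent.LKF (PEq Mut StP StM BdC BdT)

namespace Pool.Agent.LKH

theorem Fing_pt_smooth {E : Type*} [NormedAddCommGroup E] [NormedSpace ℝ E] {f g h : E → ℝ}
    (hf : ContDiff ℝ ∞ f) (hg : ContDiff ℝ ∞ g) (hh : ContDiff ℝ ∞ h) :
    ContDiff ℝ ∞ fun x => pt (f x) (g x) (h x) :=
  ContDiff.prodMk (Complex.equivRealProdCLM.symm.contDiff.comp (hf.prodMk hg)) hh

theorem Fing_deriv {k : ℝ → ℂ × ℝ} (hk : ContDiff ℝ ∞ k) (hre : ∀ t, (k t).1.re = t) (t : ℝ) :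
    deriv k t ≠ 0 := by
  intro h0
  have h1 : HasDerivAt k (deriv k t) t := ((hk.differentiable (by simp)) t).hasDerivAt
  have h2 : HasFDerivAt (fun q : ℂ × ℝ => q.1.re)
      (Complex.reCLM.comp (ContinuousLinearMap.fst ℝ ℂ ℝ)) (k t) :=
    (Complex.reCLM.comp (ContinuousLinearMap.fst ℝ ℂ ℝ)).hasFDerivAt
  have h3 := h2.comp_hasDerivAt t h1
  rw [h0, map_zero] at h3
  have h4 : ((fun q : ℂ × ℝ => q.1.re) ∘ k) = id := by
    funext u
    exact hre u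
  rw [h4] at h3
  exact one_ne_zero ((hasDerivAt_id t).unique h3)

/-- a neighbourhood of a segment which does not meet a closed set -/
theorem Fing_nbhd {C : Set (ℂ × ℝ)} (hC : IsClosed C) {r0 h0 : ℝ}
    (hd : ∀ y ∈ Icc (-r0) 0, pt 0 y h0 ∉ C) (hr : 0 < r0) :
    ∃ d : ℝ, 0 < d ∧ ∀ q : ℂ × ℝ, |q.1.re| < d → -r0 - d < q.1.im → q.1.im < d → |q.2 - h0| < d → q ∉ C := by
  have hcont : Continuous fun y : ℝ => pt 0 y h0 :=
    (Fing_pt_smooth contDiff_const contDiff_id contDiff_const : ContDiff ℝ ∞ fun y : ℝ => pt 0 y h0).continuous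
  have hS : IsCompact ((fun y : ℝ => pt 0 y h0) '' Icc (-r0) 0) := isCompact_Icc.image hcont
  have hdis : Disjoint ((fun y : ℝ => pt 0 y h0) '' Icc (-r0) 0) C := by
    rw [Set.disjoint_left]
    rintro _ ⟨y, hy, rfl⟩
    exact hd y hy
  obtain ⟨δ, hδ, hdis2⟩ := hdis.exists_thickenings hS hC
  refine ⟨δ / 3, by positivity, fun q h1 h2 h3 h4 hq => ?_⟩
  have hq2 : q ∈ Metric.thickening δ C := Metric.self_subset_thickening hδ C hq
  have hq3 : q ∈ Metric.thickening δ ((fun y : ℝ => pt 0 y h0) '' Icc (-r0) 0) := by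
    rw [Metric.mem_thickening_iff]
    refine ⟨_, ⟨max (-r0) (min q.1.im 0), ⟨le_max_left _ _, max_le (by linarith) (min_le_right _ _)⟩, rfl⟩, ?_⟩
    rw [Prod.dist_eq]
    refine max_lt ?_ ?_
    · rw [Complex.dist_eq]
      refine lt_of_le_of_lt (Complex.norm_le_abs_re_add_abs_im _) ?_
      have e1 : (q.1 - (pt 0 (max (-r0) (min q.1.im 0)) h0).1).re = q.1.re := by
        simp [pt]
      have e2 : (q.1 - (pt 0 (max (-r0) (min q.1.im 0)) h0).1).im = q.1.im - max (-r0) (min q.1.im 0) := by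
        simp [pt]
      rw [e1, e2]
      have h5 : |q.1.im - max (-r0) (min q.1.im 0)| ≤ δ / 3 := by
        rw [abs_le]
        rcases max_cases (-r0) (min q.1.im 0) with ⟨h6, h7⟩ | ⟨h6, h7⟩ <;>
          rcases min_cases q.1.im 0 with ⟨h8, h9⟩ | ⟨h8, h9⟩ <;> rw [h6] <;> try rw [h8]
        all_goals constructor <;> linarith
      linarith
    · rw [Real.dist_eq]
      show |q.2 - h0| < δ
      linarith
  exact (Set.disjoint_left.1 hdis2) hq3 hq2

theorem Fing_conv {a b s c r : ℝ} (hs0 : 0 ≤ s) (hs1 : s ≤ 1) (h1 : |a - c| < r) (h2 : |b - c| < r) :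
    |a + s * (b - a) - c| < r := by
  rw [abs_lt] at *
  have e : a + s * (b - a) - c = (1 - s) * (a - c) + s * (b - c) := by ring
  rw [e]
  rcases lt_or_eq_of_le hs1 with h | h
  · constructor <;> nlinarith
  · rw [h]
    constructor <;> linarith

theorem finger {B : Set (ℂ × ℝ)} (hB : IsCompact B) (hU : Disjoint U B) {x : ℂ × ℝ} (hx : x ∈ B) (hxp : x ∈ Hp)
    (hc : Crs B x) {ν : ℝ} (hν : 0 < ν) (hs : ∀ q ∈ B ∩ Hp, |q.2 - x.2| < ν → q = x) :
    ∃ ε₀ : ℝ, 0 < ε₀ ∧ ∀ ε : ℝ, 0 < ε → ε ≤ ε₀ → ∀ Bh : Set (ℂ × ℝ), IsCompact Bh → Disjoint U Bh →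
      (∀ q : ℂ × ℝ, |q.2 - x.2| < ν → (q ∈ Bh ↔ q ∈ B)) →
      ∃ B1 : Set (ℂ × ℝ), IsCompact B1 ∧ Disjoint U B1 ∧ PEq U Bh U B1 ∧
        (∀ q : ℂ × ℝ, ν ≤ |q.2 - x.2| → (q ∈ B1 ↔ q ∈ Bh)) ∧
        (∀ q : ℂ × ℝ, ‖q.1‖ ≤ 22 * ε → |q.2 - x.2| < ν → (q ∈ B1 ↔ q.1.im = -(2 * ε) ∧ q.2 = x.2)) ∧
        ∀ q ∈ B1 ∩ Hp, |q.2 - x.2| < ν → q = pt 0 (-(2 * ε)) x.2 := by
  obtain ⟨ρ, η, d, hρ, hη, hd, hgr⟩ := hc
  obtain ⟨hx1, hx2⟩ := hxp
  set h₀ : ℝ := x.2 with hh₀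
  set ρ₀ : ℝ := -x.1.im with hρ₀
  have hρ₀p : 0 < ρ₀ := by rw [hρ₀]; linarith
  have hx0 := (hgr x (by rw [hx1, abs_zero]; exact hd) (by rw [sub_self, abs_zero]; exact hd)
    (by rw [← hh₀, sub_self, abs_zero]; exact hd)).1 hx
  rw [hx1] at hx0
  have hρ0 : ρ 0 = -ρ₀ := by rw [hρ₀, neg_neg]; exact hx0.1.symm
  have hη0 : η 0 = h₀ := hx0.2.symm
  have him : x.1.im = -ρ₀ := by rw [hρ₀, neg_neg]
  rw [him] at hgr
  -- the part of `B` away from `x`
  set C : Set (ℂ × ℝ) := B \ {q | |q.1.re| < d ∧ |q.1.im - -ρ₀| < d ∧ |q.2 - h₀| < d} with hC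
  have hopen : ∀ a b c : ℝ, IsOpen {q : ℂ × ℝ | |q.1.re| < a ∧ |q.1.im - -ρ₀| < b ∧ |q.2 - h₀| < c} := by
    intro a b c
    have c1 : Continuous fun q : ℂ × ℝ => |q.1.re| := (Complex.continuous_re.comp continuous_fst).abs
    have c2 : Continuous fun q : ℂ × ℝ => |q.1.im - -ρ₀| :=
      ((Complex.continuous_im.comp continuous_fst).sub continuous_const).abs
    have c3 : Continuous fun q : ℂ × ℝ => |q.2 - h₀| := (continuous_snd.sub continuous_const).abs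
    exact (isOpen_lt c1 continuous_const).inter
      ((isOpen_lt c2 continuous_const).inter (isOpen_lt c3 continuous_const))
  have hCc : IsClosed C := (hB.diff (hopen d d d)).isClosed
  obtain ⟨d1, hd1, hN⟩ := Fing_nbhd hCc (r0 := ρ₀) (h0 := h₀) (by
    rintro y ⟨hy1, hy2⟩ ⟨hyB, hyn⟩
    rcases lt_or_eq_of_le hy2 with hy | hy
    · have e := hs (pt 0 y h₀) ⟨hyB, rfl, hy⟩ (by
        show |h₀ - h₀| < ν
        rw [sub_self, abs_zero]
        exact hν)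
      have e1 : y = x.1.im := congrArg (fun q : ℂ × ℝ => q.1.im) e
      apply hyn
      refine ⟨?_, ?_, ?_⟩
      · show |(0 : ℝ)| < d
        rw [abs_zero]
        exact hd
      · show |y - -ρ₀| < d
        rw [e1, him, sub_self, abs_zero]
        exact hd
      · show |h₀ - h₀| < d
        rw [sub_self, abs_zero]
        exact hd
    · refine (Set.disjoint_left.1 hU) ?_ hyB
      show (pt 0 y h₀).1 = 0
      rw [hy]
      rfl) hρ₀p
  -- small numbers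
  obtain ⟨d', hd'0, hd'1, hd'd, hd'ν, hd'ρ⟩ : ∃ d' : ℝ, 0 < d' ∧ d' ≤ d1 ∧ d' ≤ d ∧ d' < ν ∧ d' < ρ₀ := by
    refine ⟨min (min d1 d) (min ν ρ₀) / 2, by positivity, ?_, ?_, ?_, ?_⟩
    · have : min (min d1 d) (min ν ρ₀) ≤ d1 := (min_le_left _ _).trans (min_le_left _ _)
      linarith
    · have : min (min d1 d) (min ν ρ₀) ≤ d := (min_le_left _ _).trans (min_le_right _ _)
      linarith
    · have : min (min d1 d) (min ν ρ₀) ≤ ν := (min_le_right _ _).trans (min_le_left _ _)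
      linarith
    · have : min (min d1 d) (min ν ρ₀) ≤ ρ₀ := (min_le_right _ _).trans (min_le_right _ _)
      linarith
  have hN' : ∀ q : ℂ × ℝ, |q.1.re| < d' → -ρ₀ - d' < q.1.im → q.1.im < d' → |q.2 - h₀| < d' → q ∉ C :=
    fun q h1 h2 h3 h4 => hN q (by linarith) (by linarith) (by linarith) (by linarith)
  obtain ⟨δ, hδ0, hδd', hδρ, hδη⟩ : ∃ δ : ℝ, 0 < δ ∧ δ < d' ∧ (∀ t, |t| ≤ δ → |ρ t - -ρ₀| < d') ∧
      ∀ t, |t| ≤ δ → |η t - h₀| < d' := by
    obtain ⟨δa, hδa, ha⟩ := Metric.continuous_iff.1 hρ.continuous 0 d' hd'0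
    obtain ⟨δb, hδb, hb⟩ := Metric.continuous_iff.1 hη.continuous 0 d' hd'0
    refine ⟨min (min δa δb) d' / 2, by positivity, ?_, fun t ht => ?_, fun t ht => ?_⟩
    · have : min (min δa δb) d' ≤ d' := min_le_right _ _
      linarith
    · have h1 : min (min δa δb) d' ≤ δa := (min_le_left _ _).trans (min_le_left _ _)
      have h2 : 0 < min (min δa δb) d' := by positivity
      have := ha t (by rw [Real.dist_eq, sub_zero]; linarith)
      rwa [Real.dist_eq, hρ0] at this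
    · have h1 : min (min δa δb) d' ≤ δb := (min_le_left _ _).trans (min_le_right _ _)
      have h2 : 0 < min (min δa δb) d' := by positivity
      have := hb t (by rw [Real.dist_eq, sub_zero]; linarith)
      rwa [Real.dist_eq, hη0] at this
  obtain ⟨m, hm0, hm⟩ : ∃ m : ℝ, 0 < m ∧ ∀ q ∈ B, m ≤ ‖q.1‖ := by
    obtain ⟨q0, hq0, hq0m⟩ := hB.exists_isMinOn ⟨x, hx⟩ (f := fun q : ℂ × ℝ => ‖q.1‖) (by fun_prop)
    refine ⟨‖q0.1‖, ?_, fun q hq => hq0m hq⟩
    rw [norm_pos_iff]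
    intro h
    exact (Set.disjoint_left.1 hU) h hq0
  refine ⟨min (min (δ / 100) (ρ₀ / 10)) (m / 23), by positivity, ?_⟩
  intro ε hε0 hε Bh hBh hUh hBhB
  have hε1 : ε ≤ δ / 100 := hε.trans ((min_le_left _ _).trans (min_le_left _ _))
  have hε2 : ε ≤ ρ₀ / 10 := hε.trans ((min_le_left _ _).trans (min_le_right _ _))
  have hε3 : ε ≤ m / 23 := hε.trans (min_le_right _ _)
  clear hε
  -- the finger
  set b : ℝ → ℝ := fun t => 1 - stp (δ ^ 2 / 16) (δ ^ 2 / 4) (t ^ 2) with hb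
  have hδ2 : δ ^ 2 / 16 < δ ^ 2 / 4 := by
    have : 0 < δ ^ 2 := by positivity
    linarith
  have hb0 : ∀ t, 0 ≤ b t := fun t => by
    have := stp_le_one (δ ^ 2 / 16) (δ ^ 2 / 4) (t ^ 2)
    show 0 ≤ 1 - stp (δ ^ 2 / 16) (δ ^ 2 / 4) (t ^ 2)
    linarith
  have hb1 : ∀ t, b t ≤ 1 := fun t => by
    have := stp_nonneg (δ ^ 2 / 16) (δ ^ 2 / 4) (t ^ 2)
    show 1 - stp (δ ^ 2 / 16) (δ ^ 2 / 4) (t ^ 2) ≤ 1
    linarith
  have hbone : ∀ t, |t| ≤ δ / 4 → b t = 1 := fun t ht => by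
    show 1 - stp (δ ^ 2 / 16) (δ ^ 2 / 4) (t ^ 2) = 1
    rw [stp_zero hδ2, sub_zero]
    have h1 := abs_nonneg t
    rw [← sq_abs t]
    nlinarith
  have hbzero : ∀ t, δ / 2 ≤ |t| → b t = 0 := fun t ht => by
    show 1 - stp (δ ^ 2 / 16) (δ ^ 2 / 4) (t ^ 2) = 0
    rw [stp_one hδ2, sub_self]
    rw [← sq_abs t]
    nlinarith
  set k : ℝ → ℝ → ℂ × ℝ := fun s t => pt t (ρ t + s * b t * (-(2 * ε) - ρ t)) (η t + s * b t * (h₀ - η t)) with hk
  have hbs : ContDiff ℝ ∞ b := contDiff_const.sub ((stp_smooth _ _).comp (contDiff_id.pow 2))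
  have hks : ContDiff ℝ ∞ fun p : ℝ × ℝ => k p.1 p.2 := by
    have f1 : ContDiff ℝ ∞ fun p : ℝ × ℝ => ρ p.2 := hρ.comp contDiff_snd
    have f2 : ContDiff ℝ ∞ fun p : ℝ × ℝ => η p.2 := hη.comp contDiff_snd
    have f3 : ContDiff ℝ ∞ fun p : ℝ × ℝ => p.1 * b p.2 := contDiff_fst.mul (hbs.comp contDiff_snd)
    exact Fing_pt_smooth contDiff_snd (f1.add (f3.mul (contDiff_const.sub f1)))
      (f2.add (f3.mul (contDiff_const.sub f2)))
  have hkre : ∀ s t, (k s t).1.re = t := fun s t => rfl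
  have hkim : ∀ s t, (k s t).1.im = ρ t + s * b t * (-(2 * ε) - ρ t) := fun s t => rfl
  have hkh : ∀ s t, (k s t).2 = η t + s * b t * (h₀ - η t) := fun s t => rfl
  have hk0 : ∀ t, k 0 t = pt t (ρ t) (η t) := by
    intro t
    show pt t (ρ t + 0 * b t * (-(2 * ε) - ρ t)) (η t + 0 * b t * (h₀ - η t)) = _
    rw [zero_mul, zero_mul, zero_mul, add_zero, add_zero]
  have hsb : ∀ s ∈ Icc (0 : ℝ) 1, ∀ t, 0 ≤ s * b t ∧ s * b t ≤ 1 := fun s hs t =>
    ⟨mul_nonneg hs.1 (hb0 t), mul_le_one₀ hs.2 (hb0 t) (hb1 t)⟩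
  -- position of the finger
  have hkh' : ∀ s ∈ Icc (0 : ℝ) 1, ∀ t, |t| ≤ δ → |(k s t).2 - h₀| < d' := by
    intro s hs t ht
    rw [hkh]
    exact Fing_conv (hsb s hs t).1 (hsb s hs t).2 (hδη t ht) (by rw [sub_self, abs_zero]; exact hd'0)
  have hkim' : ∀ s ∈ Icc (0 : ℝ) 1, ∀ t, |t| ≤ δ → -ρ₀ - d' < (k s t).1.im ∧ (k s t).1.im < 0 := by
    intro s hs t ht
    rw [hkim]
    have h1 := abs_lt.1 (hδρ t ht)
    obtain ⟨h2, h3⟩ := hsb s hs t
    have e : ρ t + s * b t * (-(2 * ε) - ρ t) = (1 - s * b t) * ρ t + s * b t * (-(2 * ε)) := by ring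
    rw [e]
    have h4 : ρ t < 0 := by linarith [h1.2]
    constructor
    · nlinarith [h1.1]
    · rcases lt_or_eq_of_le h3 with h5 | h5
      · nlinarith
      · rw [h5]
        linarith
  -- the set away from the finger
  set Bo : Set (ℂ × ℝ) := {q | |q.1.re| < δ ∧ |q.1.im - -ρ₀| < d ∧ |q.2 - h₀| < min d ν} with hBo
  set Z : Set (ℂ × ℝ) := Bh \ Bo with hZ
  have hZc : IsCompact Z := hBh.diff (hopen _ _ _)
  have hk0B : ∀ t, |t| ≤ δ → k 0 t ∈ B := by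
    intro t ht
    rw [hk0]
    refine (hgr (pt t (ρ t) (η t)) ?_ ?_ ?_).2 ⟨rfl, rfl⟩
    · show |t| < d
      linarith
    · show |ρ t - -ρ₀| < d
      linarith [hδρ t ht]
    · show |η t - h₀| < d
      linarith [hδη t ht]
  have hk0Bo : ∀ t, |t| < δ → k 0 t ∈ Bo := by
    intro t ht
    rw [hk0]
    refine ⟨ht, ?_, ?_⟩
    · show |ρ t - -ρ₀| < d
      linarith [hδρ t ht.le]
    · show |η t - h₀| < min d ν
      exact lt_min (by linarith [hδη t ht.le]) (by linarith [hδη t ht.le])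
  have hsplit : Bh = Z ∪ k 0 '' Icc (-δ) δ := by
    apply Subset.antisymm
    · intro q hq
      by_cases hqo : q ∈ Bo
      · right
        have hqB : q ∈ B := (hBhB q (hqo.2.2.trans_le (min_le_right _ _))).1 hq
        obtain ⟨e1, e2⟩ := (hgr q (by linarith [hqo.1]) hqo.2.1 (hqo.2.2.trans_le (min_le_left _ _))).1 hqB
        refine ⟨q.1.re, abs_le.1 hqo.1.le, ?_⟩
        rw [hk0]
        refine Prod.ext (Complex.ext rfl ?_) ?_
        · exact e1.symm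
        · exact e2.symm
      · exact Or.inl ⟨hq, hqo⟩
    · rintro q (hq | ⟨t, ht, rfl⟩)
      · exact hq.1
      · have ht' : |t| ≤ δ := abs_le.2 ht
        refine (hBhB _ ?_).2 (hk0B t ht')
        linarith [hkh' 0 ⟨le_rfl, zero_le_one⟩ t ht']
  have hPEq : PEq U (Z ∪ k 0 '' Icc (-δ) δ) U (Z ∪ k 1 '' Icc (-δ) δ) := by
    refine arcB (a' := -(δ / 2)) (b' := δ / 2) ?_ hZc.isClosed (by linarith) (by linarith) hks ?_ ?_ ?_ ?_
    · exact isClosed_eq continuous_fst continuous_const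
    · intro s _ t _ ht
      have h1 : δ / 2 ≤ |t| := by
        rcases ht with ht | ht
        · exact (by linarith : δ / 2 ≤ -t).trans (neg_le_abs t)
        · exact ht.trans (le_abs_self t)
      show pt t (ρ t + s * b t * (-(2 * ε) - ρ t)) (η t + s * b t * (h₀ - η t)) =
        pt t (ρ t + 0 * b t * (-(2 * ε) - ρ t)) (η t + 0 * b t * (h₀ - η t))
      rw [hbzero t h1, mul_zero, mul_zero]
    · intro s hs' t ht
      have ht1 : |t| ≤ δ / 2 := abs_le.2 ht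
      have ht2 : |t| ≤ δ := by linarith
      have h1 := hkim' s hs' t ht2
      have h2 := hkh' s hs' t ht2
      refine ⟨fun h => ?_, ?_⟩
      · have h3 : (k s t).1 = 0 := h
        rw [h3] at h1
        exact lt_irrefl _ h1.2
      · rintro ⟨hq, hqo⟩
        have hqB : k s t ∈ B := (hBhB _ (by linarith)).1 hq
        have hqC : k s t ∉ C := hN' _ (by rw [hkre]; linarith) h1.1 (by linarith) h2
        have hbox : k s t ∈ {q : ℂ × ℝ | |q.1.re| < d ∧ |q.1.im - -ρ₀| < d ∧ |q.2 - h₀| < d} := by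
          by_contra hcon
          exact hqC ⟨hqB, hcon⟩
        obtain ⟨e1, e2⟩ := (hgr _ hbox.1 hbox.2.1 hbox.2.2).1 hqB
        rw [hkre] at e1 e2
        have e3 : k s t = k 0 t := by
          rw [hk0]
          exact Prod.ext (Complex.ext rfl e1) e2
        rw [e3] at hqo
        exact hqo (hk0Bo t (by linarith))
    · intro s _ t _
      exact Fing_deriv (hks.comp (contDiff_const.prodMk contDiff_id)) (hkre s) t
    · intro s _ t _ t' _ he
      have := congrArg (fun q : ℂ × ℝ => q.1.re) he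
      exact this
  have h11 : (1 : ℝ) ∈ Icc (0 : ℝ) 1 := ⟨zero_le_one, le_rfl⟩
  have hk1 : ∀ t, |t| ≤ δ / 4 → k 1 t = pt t (-(2 * ε)) h₀ := by
    intro t ht
    show pt t (ρ t + 1 * b t * (-(2 * ε) - ρ t)) (η t + 1 * b t * (h₀ - η t)) = _
    rw [hbone t ht]
    congr 1 <;> ring
  refine ⟨Z ∪ k 1 '' Icc (-δ) δ, ?_, ?_, ?_, ?_, ?_, ?_⟩
  · refine hZc.union (isCompact_Icc.image ?_)
    exact hks.continuous.comp (continuous_const.prodMk continuous_id)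
  · rw [Set.disjoint_left]
    rintro q hq (hqZ | ⟨t, ht, rfl⟩)
    · exact (Set.disjoint_left.1 hUh) hq hqZ.1
    · have h1 := hkim' 1 h11 t (abs_le.2 ht)
      have h3 : (k 1 t).1 = 0 := hq
      rw [h3] at h1
      exact lt_irrefl _ h1.2
  · rw [← hsplit] at hPEq
    exact hPEq
  · intro q hq
    constructor
    · rintro (hqZ | ⟨t, ht, rfl⟩)
      · exact hqZ.1
      · have := hkh' 1 h11 t (abs_le.2 ht)
        linarith
    · intro hqB
      refine Or.inl ⟨hqB, fun hqo => ?_⟩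
      have := hqo.2.2.trans_le (min_le_right d ν)
      linarith
  · intro q hq1 hq2
    constructor
    · rintro (hqZ | ⟨t, ht, rfl⟩)
      · have h1 := hm q ((hBhB q hq2).1 hqZ.1)
        linarith
      · have h1 : |t| ≤ 22 * ε := (Complex.abs_re_le_norm (k 1 t).1).trans hq1
        rw [hk1 t (by linarith)]
        exact ⟨rfl, rfl⟩
    · rintro ⟨h1, h2⟩
      have h3 : |q.1.re| ≤ 22 * ε := (Complex.abs_re_le_norm q.1).trans hq1
      refine Or.inr ⟨q.1.re, abs_le.1 (by linarith), ?_⟩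
      rw [hk1 _ (by linarith)]
      exact Prod.ext (Complex.ext rfl h1.symm) h2.symm
  · rintro q ⟨(hqZ | ⟨t, ht, rfl⟩), hqH⟩ hq2
    · exfalso
      have h1 := hs q ⟨(hBhB q hq2).1 hqZ.1, hqH⟩ hq2
      apply hqZ.2
      rw [h1]
      refine ⟨?_, ?_, ?_⟩
      · rw [hx1, abs_zero]
        exact hδ0
      · rw [him, sub_self, abs_zero]
        exact hd
      · rw [← hh₀, sub_self, abs_zero]
        exact lt_min hd hν
    · have h1 : t = 0 := hqH.1
      rw [h1, hk1 0 (by rw [abs_zero]; positivity)]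

end Pool.Agent.LKH
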