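import Pool.Agent.LKH.Loc
import Pool.Agent.LKH.Fing

/-!
# LKH/Core (difficulty 3): removal of two crossings

`crs_congr`: `Crs` is local. PROOF of `core`. Let `h₁ = x.2`, `h₂ = y.2`, wlog `h₁ < h₂` (`hts`: different; the statement is symmetric). Let `ν > 0` with `ν < |q.2 - q'.2|` for `q ≠ q' ∈ B ∩ Hp` and `2 ν < h₂ - h₁` (finite set). `finger` for `x` and for `y` (both with the original `B`): `ε₁`, `ε₂`; `ε ≤ ε₁, ε₂` and no point of `B` with `‖q.1‖ ≤ 22 ε` (compact, disjoint from `U`).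
`B1` from `finger x` with `Bh = B`; `B2` from `finger y` with `Bh = B1` (equal to `B` in the slab of `y`, as it is outside the slab of `x`). For `‖q.1‖ ≤ 22 ε`: `q ∈ B2 ↔ q.1.im = -(2 ε) ∧ (q.2 = h₁ ∨ q.2 = h₂)`. Let `κ = (h₂ - h₁) / 12`, `h₀ = (h₁ + h₂) / 2`, `G (w, h) = (ε w, h₀ + κ h)` (a `Dif`): `G.symm '' B2` satisfies the
hypothesis of `loc`; let `B3` be its result, `B' := G '' B3`. `PEq.map`, `G '' U = U`. `B' = B2` outside `G '' Cy`. `B'` is compact: closed, contained in `B2 ∪ G '' Cy`, bounded. Disjoint from `U`. `B' ∩ Hp`: `G` preserves `Hp`; points in `G '' Cy`: none; others: `q ∈ B2 ∩ Hp`, `q` in the slab of `x` or `y`: `q = pt 0 (-(2 ε)) h₁` is in `G '' Cy`, so no;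
otherwise `q ∈ B ∩ Hp`, `q ≠ x, y`. Conversely `q ∈ B ∩ Hp`, `q ≠ x, y`: `|q.2 - h₁|, |q.2 - h₂| > ν`, so `q ∈ B2`, and `q ∉ G '' Cy` as `‖q.1‖ > 22 ε`; and `B' = B` near `q` (open condition: `ν < |q'.2 - h₁|`, `ν < |q'.2 - h₂|`, `22 ε < ‖q'.1‖`), so `Crs B' q`.
-/

open scoped ContDiff Topology
open Set Filter
open Complex (I)
open Pool.Agent.CSG
open Pool.Agent.KNT (Dom BalC Tubes Str CD U)
open Pool.Agent.LKF (PEq Mut StP StM BdC BdT)

namespace Pool.Agent.LKH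

theorem crs_congr {B B' : Set (ℂ × ℝ)} {x : ℂ × ℝ} (h : Crs B x) (he : ∀ᶠ q in 𝓝 x, (q ∈ B' ↔ q ∈ B))
    (hx : x.1.re = 0) : Crs B' x := by
  obtain ⟨ρ, η, d, hρ, hη, hd, hgr⟩ := h
  obtain ⟨r, hr, hr'⟩ := Metric.eventually_nhds_iff.1 he
  refine ⟨ρ, η, min d (r / 3), hρ, hη, by positivity, ?_⟩
  intro q h1 h2 h3
  have hq : dist q x < r := by
    rw [Prod.dist_eq]
    have e1 : |q.1.re| < r / 3 := h1.trans_le (min_le_right _ _)
    have e2 : |q.1.im - x.1.im| < r / 3 := h2.trans_le (min_le_right _ _)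
    have e3 : |q.2 - x.2| < r / 3 := h3.trans_le (min_le_right _ _)
    refine max_lt ?_ ?_
    · rw [Complex.dist_eq]
      refine lt_of_le_of_lt (Complex.norm_le_abs_re_add_abs_im _) ?_
      rw [Complex.sub_re, Complex.sub_im, hx, sub_zero]
      linarith
    · rw [Real.dist_eq]
      linarith
  rw [hr' hq]
  exact hgr q (h1.trans_le (min_le_left _ _)) (h2.trans_le (min_le_left _ _)) (h3.trans_le (min_le_left _ _))

theorem Core_fin {α : Type*} {S : Set α} (hS : S.Finite) (f : α → ℝ) (hf : ∀ q ∈ S, 0 < f q) :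
    ∃ ν : ℝ, 0 < ν ∧ ∀ q ∈ S, ν < f q := by
  rcases S.eq_empty_or_nonempty with h | h
  · refine ⟨1, one_pos, fun q hq => ?_⟩
    rw [h] at hq
    exact hq.elim
  · obtain ⟨q0, hq0, hq0m⟩ := Set.exists_min_image S f hS h
    refine ⟨f q0 / 2, half_pos (hf q0 hq0), fun q hq => ?_⟩
    have := hq0m q hq
    have := hf q0 hq0
    linarith

/-- scaling -/
noncomputable def Core_G (ε κ h₀ : ℝ) (hε : 0 < ε) (hκ : 0 < κ) : Equiv.Perm (ℂ × ℝ) where
  toFun q := ((ε : ℂ) * q.1, h₀ + κ * q.2)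
  invFun q := ((ε : ℂ)⁻¹ * q.1, (q.2 - h₀) / κ)
  left_inv q := by
    have h1 : (ε : ℂ) ≠ 0 := by exact_mod_cast hε.ne'
    refine Prod.ext ?_ ?_
    · show (ε : ℂ)⁻¹ * ((ε : ℂ) * q.1) = q.1
      rw [inv_mul_cancel_left₀ h1]
    · show (h₀ + κ * q.2 - h₀) / κ = q.2
      field_simp
      ring
  right_inv q := by
    have h1 : (ε : ℂ) ≠ 0 := by exact_mod_cast hε.ne'
    refine Prod.ext ?_ ?_
    · show (ε : ℂ) * ((ε : ℂ)⁻¹ * q.1) = q.1
      rw [mul_inv_cancel_left₀ h1]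
    · show h₀ + κ * ((q.2 - h₀) / κ) = q.2
      field_simp
      ring

theorem Core_G_dif (ε κ h₀ : ℝ) (hε : 0 < ε) (hκ : 0 < κ) : Dif (Core_G ε κ h₀ hε hκ) := by
  refine ⟨?_, ?_⟩
  · show ContDiff ℝ ∞ fun q : ℂ × ℝ => ((ε : ℂ) * q.1, h₀ + κ * q.2)
    exact (contDiff_const.mul contDiff_fst).prodMk (contDiff_const.add (contDiff_const.mul contDiff_snd))
  · show ContDiff ℝ ∞ fun q : ℂ × ℝ => ((ε : ℂ)⁻¹ * q.1, (q.2 - h₀) / κ)
    exact (contDiff_const.mul contDiff_fst).prodMk ((contDiff_snd.sub contDiff_const).div_const _)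

theorem Core_lt {B : Set (ℂ × ℝ)} (hB : Good B) {x y : ℂ × ℝ} (hx : x ∈ B ∩ Hp) (hy : y ∈ B ∩ Hp)
    (hlt : x.2 < y.2) :
    ∃ B' : Set (ℂ × ℝ), PEq U B U B' ∧ Good B' ∧ B' ∩ Hp = (B ∩ Hp) \ {x, y} := by
  obtain ⟨ν1, hν1, hν1'⟩ := Core_fin (hB.fin.sdiff (t := {x})) (fun q => |q.2 - x.2|) (by
    rintro q ⟨hq, hqx⟩
    rw [abs_pos, sub_ne_zero]
    exact fun h => hqx (hB.hts hq hx h))
  obtain ⟨ν2, hν2, hν2'⟩ := Core_fin (hB.fin.sdiff (t := {y})) (fun q => |q.2 - y.2|) (by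
    rintro q ⟨hq, hqx⟩
    rw [abs_pos, sub_ne_zero]
    exact fun h => hqx (hB.hts hq hy h))
  set h₁ : ℝ := x.2 with hh₁
  set h₂ : ℝ := y.2 with hh₂
  obtain ⟨ν, hν, hνa, hνb, hνc⟩ : ∃ ν : ℝ, 0 < ν ∧ ν ≤ ν1 ∧ ν ≤ ν2 ∧ 2 * ν < h₂ - h₁ := by
    refine ⟨min (min ν1 ν2) ((h₂ - h₁) / 3), ?_, ?_, ?_, ?_⟩
    · exact lt_min (lt_min hν1 hν2) (by linarith)
    · exact (min_le_left _ _).trans (min_le_left _ _)
    · exact (min_le_left _ _).trans (min_le_right _ _)
    · have := min_le_right (min ν1 ν2) ((h₂ - h₁) / 3)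
      linarith
  have hsx : ∀ q ∈ B ∩ Hp, q ≠ x → ν < |q.2 - h₁| := fun q hq hne => hνa.trans_lt (hν1' q ⟨hq, hne⟩)
  have hsy : ∀ q ∈ B ∩ Hp, q ≠ y → ν < |q.2 - h₂| := fun q hq hne => hνb.trans_lt (hν2' q ⟨hq, hne⟩)
  obtain ⟨ε1, hε1, hf1⟩ := finger hB.cpt hB.dis hx.1 hx.2 (hB.crs x hx) hν (fun q hq h => by
    by_contra hne
    exact absurd h (not_lt.2 (hsx q hq hne).le))
  obtain ⟨ε2, hε2, hf2⟩ := finger hB.cpt hB.dis hy.1 hy.2 (hB.crs y hy) hν (fun q hq h => by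
    by_contra hne
    exact absurd h (not_lt.2 (hsy q hq hne).le))
  obtain ⟨m, hm0, hm⟩ : ∃ m : ℝ, 0 < m ∧ ∀ q ∈ B, m ≤ ‖q.1‖ := by
    obtain ⟨q0, hq0, hq0m⟩ := hB.cpt.exists_isMinOn ⟨x, hx.1⟩ (f := fun q : ℂ × ℝ => ‖q.1‖) (by fun_prop)
    refine ⟨‖q0.1‖, ?_, fun q hq => hq0m hq⟩
    rw [norm_pos_iff]
    intro h
    exact (Set.disjoint_left.1 hB.dis) h hq0
  obtain ⟨ε, hε, hεa, hεb, hεc⟩ : ∃ ε : ℝ, 0 < ε ∧ ε ≤ ε1 ∧ ε ≤ ε2 ∧ 22 * ε < m := by
    refine ⟨min (min ε1 ε2) (m / 23), by positivity, ?_, ?_, ?_⟩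
    · exact (min_le_left _ _).trans (min_le_left _ _)
    · exact (min_le_left _ _).trans (min_le_right _ _)
    · have := min_le_right (min ε1 ε2) (m / 23)
      linarith
  obtain ⟨B1, cB1, dB1, pB1, oB1, iB1, hB1⟩ := hf1 ε hε hεa B hB.cpt hB.dis (fun q _ => Iff.rfl)
  have hfar : ∀ q : ℂ × ℝ, |q.2 - h₂| < ν → ν ≤ |q.2 - h₁| := by
    intro q hq
    rw [abs_lt] at hq
    exact le_trans (by linarith [hq.1]) (le_abs_self _)
  obtain ⟨B2, cB2, dB2, pB2, oB2, iB2, hB2⟩ := hf2 ε hε hεb B1 cB1 dB1 (fun q hq => oB1 q (hfar q hq))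
  -- `B2` near the axis
  have hnear : ∀ q : ℂ × ℝ, ‖q.1‖ ≤ 22 * ε → (q ∈ B2 ↔ q.1.im = -(2 * ε) ∧ (q.2 = h₁ ∨ q.2 = h₂)) := by
    intro q hq
    by_cases h2 : |q.2 - h₂| < ν
    · rw [iB2 q hq h2]
      constructor
      · rintro ⟨e1, e2⟩
        exact ⟨e1, Or.inr e2⟩
      · rintro ⟨e1, e2 | e2⟩
        · exfalso
          have := hfar q h2
          rw [e2, sub_self, abs_zero] at this
          linarith
        · exact ⟨e1, e2⟩
    · rw [oB2 q (not_lt.1 h2)]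
      have h2' : q.2 ≠ h₂ := by
        intro e
        rw [e, sub_self, abs_zero] at h2
        exact h2 hν
      by_cases h1 : |q.2 - h₁| < ν
      · rw [iB1 q hq h1]
        constructor
        · rintro ⟨e1, e2⟩
          exact ⟨e1, Or.inl e2⟩
        · rintro ⟨e1, e2 | e2⟩
          · exact ⟨e1, e2⟩
          · exact absurd e2 h2'
      · rw [oB1 q (not_lt.1 h1)]
        have h1' : q.2 ≠ h₁ := by
          intro e
          rw [e, sub_self, abs_zero] at h1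
          exact h1 hν
        constructor
        · intro hqB
          have := hm q hqB
          linarith
        · rintro ⟨_, e2 | e2⟩
          · exact absurd e2 h1'
          · exact absurd e2 h2'
  -- scaling
  have hκ : 0 < (h₂ - h₁) / 12 := by linarith
  set G : Equiv.Perm (ℂ × ℝ) := Core_G ε ((h₂ - h₁) / 12) ((h₁ + h₂) / 2) hε hκ with hG
  have hGd : Dif G := Core_G_dif _ _ _ _ _
  have hG1 : ∀ q : ℂ × ℝ, (G q).1 = (ε : ℂ) * q.1 := fun q => rfl
  have hG2 : ∀ q : ℂ × ℝ, (G q).2 = (h₁ + h₂) / 2 + (h₂ - h₁) / 12 * q.2 := fun q => rfl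
  have hGre : ∀ q : ℂ × ℝ, (G q).1.re = ε * q.1.re := fun q => by
    rw [hG1, Complex.mul_re, Complex.ofReal_re, Complex.ofReal_im, zero_mul, sub_zero]
  have hGim : ∀ q : ℂ × ℝ, (G q).1.im = ε * q.1.im := fun q => by
    rw [hG1, Complex.mul_im, Complex.ofReal_re, Complex.ofReal_im, zero_mul, add_zero]
  have hGn : ∀ q : ℂ × ℝ, ‖(G q).1‖ = ε * ‖q.1‖ := fun q => by
    rw [hG1, norm_mul, Complex.norm_real, Real.norm_eq_abs, abs_of_pos hε]
  have hmem : ∀ (A : Set (ℂ × ℝ)) (q : ℂ × ℝ), q ∈ G.symm '' A ↔ G q ∈ A := by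
    intro A q
    constructor
    · rintro ⟨p, hp, rfl⟩
      rwa [G.apply_symm_apply]
    · intro h
      exact ⟨G q, h, G.symm_apply_apply q⟩
  have hmem' : ∀ (A : Set (ℂ × ℝ)) (q : ℂ × ℝ), G q ∈ G '' A ↔ q ∈ A := by
    intro A q
    exact G.injective.mem_set_image
  have hclosed : IsClosed (G.symm '' B2) := by
    have : G.symm '' B2 = G ⁻¹' B2 := by
      ext q
      exact hmem B2 q
    rw [this]
    exact cB2.isClosed.preimage hGd.smooth.continuous
  obtain ⟨B3, cB3, pB3, oB3, hB3⟩ := loc hclosed (fun q hq => by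
    rw [hmem, hnear _ (by rw [hGn]; nlinarith [hq.1]), hGim, hG2]
    constructor
    · rintro ⟨e1, e2⟩
      refine ⟨?_, ?_⟩
      · have : ε * (q.1.im + 2) = 0 := by linarith
        rcases mul_eq_zero.1 this with h | h
        · exact absurd h hε.ne'
        · linarith
      · rcases e2 with e2 | e2
        · right
          have : (h₂ - h₁) / 12 * (q.2 + 6) = 0 := by linarith
          rcases mul_eq_zero.1 this with h | h
          · exact absurd h hκ.ne'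
          · linarith
        · left
          have : (h₂ - h₁) / 12 * (q.2 - 6) = 0 := by linarith
          rcases mul_eq_zero.1 this with h | h
          · exact absurd h hκ.ne'
          · linarith
    · rintro ⟨e1, e2⟩
      refine ⟨by rw [e1]; ring, ?_⟩
      rcases e2 with e2 | e2
      · right
        rw [e2]
        ring
      · left
        rw [e2]
        ring)
  have hGU : G '' U = U := by
    ext q
    constructor
    · rintro ⟨p, hp, rfl⟩
      have hp' : p.1 = 0 := hp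
      show (G p).1 = 0
      rw [hG1, hp', mul_zero]
    · intro hq
      have hq' : q.1 = 0 := hq
      refine ⟨G.symm q, ?_, G.apply_symm_apply q⟩
      show (ε : ℂ)⁻¹ * q.1 = 0
      rw [hq', mul_zero]
  have hGB : G '' (G.symm '' B2) = B2 := by
    rw [← image_comp]
    have : (G ∘ G.symm : ℂ × ℝ → ℂ × ℝ) = id := by
      funext q
      exact G.apply_symm_apply q
    rw [this, image_id]
  have hp3 := PEq.map hGd pB3
  rw [hGU, hGB] at hp3
  have hout : ∀ q : ℂ × ℝ, q ∉ Cy → (G q ∈ G '' B3 ↔ G q ∈ B2) := by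
    intro q hq
    rw [hmem', oB3 q hq, hmem]
  -- away from the two points `B'` is `B`
  have hBB : ∀ q : ℂ × ℝ, ν < |q.2 - h₁| → ν < |q.2 - h₂| → 22 * ε < ‖q.1‖ → (q ∈ G '' B3 ↔ q ∈ B) := by
    intro q h1 h2 h3
    obtain ⟨p, rfl⟩ := G.surjective q
    rw [hout p, oB2 _ h2.le, oB1 _ h1.le]
    intro hp
    rw [hGn] at h3
    nlinarith [hp.1]
  have hCy1 : (pt 0 (-2) (-6) : ℂ × ℝ) ∈ Cy := by
    refine ⟨?_, ?_⟩
    · refine (Complex.norm_le_abs_re_add_abs_im _).trans ?_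
      show |(0 : ℝ)| + |(-2 : ℝ)| ≤ 22
      rw [abs_zero, abs_neg, abs_of_pos (by norm_num)]
      norm_num
    · show |(-6 : ℝ)| ≤ 14
      rw [abs_neg, abs_of_pos (by norm_num)]
      norm_num
  have hCy2 : (pt 0 (-2) 6 : ℂ × ℝ) ∈ Cy := by
    refine ⟨?_, ?_⟩
    · refine (Complex.norm_le_abs_re_add_abs_im _).trans ?_
      show |(0 : ℝ)| + |(-2 : ℝ)| ≤ 22
      rw [abs_zero, abs_neg, abs_of_pos (by norm_num)]
      norm_num
    · show |(6 : ℝ)| ≤ 14
      rw [abs_of_pos (by norm_num)]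
      norm_num
  have hGp : ∀ h : ℝ, G (pt 0 (-2) h) = pt 0 (-(2 * ε)) ((h₁ + h₂) / 2 + (h₂ - h₁) / 12 * h) := by
    intro h
    refine Prod.ext (Complex.ext ?_ ?_) rfl
    · rw [hGre]
      show ε * 0 = 0
      rw [mul_zero]
    · rw [hGim]
      show ε * (-2) = -(2 * ε)
      ring
  have hInt : (G '' B3) ∩ Hp = (B ∩ Hp) \ {x, y} := by
    ext q
    constructor
    · rintro ⟨hq, hqH⟩
      obtain ⟨p, rfl⟩ := G.surjective q
      have hp3 : p ∈ B3 := (hmem' B3 p).1 hq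
      have hpH : p ∈ Hp := by
        have e1 := hqH.1
        have e2 := hqH.2
        rw [hGre] at e1
        rw [hGim] at e2
        refine ⟨?_, ?_⟩
        · rcases mul_eq_zero.1 e1 with h | h
          · exact absurd h hε.ne'
          · exact h
        · by_contra hcon
          have := mul_nonneg hε.le (not_lt.1 hcon)
          linarith
      have hpC : p ∉ Cy := fun h => (hB3 p h hp3).1 hpH
      have hq2 := (hout p hpC).1 hq
      have hn2 : ¬ |(G p).2 - h₂| < ν := by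
        intro h
        have e := hB2 _ ⟨hq2, hqH⟩ h
        have e2 : G (pt 0 (-2) 6) = G p := by
          rw [hGp, e]
          congr 1
          ring
        rw [← G.injective e2] at hpC
        exact hpC hCy2
      have hq1 := (oB2 _ (not_lt.1 hn2)).1 hq2
      have hn1 : ¬ |(G p).2 - h₁| < ν := by
        intro h
        have e := hB1 _ ⟨hq1, hqH⟩ h
        have e2 : G (pt 0 (-2) (-6)) = G p := by
          rw [hGp, e]
          congr 1
          ring
        rw [← G.injective e2] at hpC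
        exact hpC hCy1
      have hq0 := (oB1 _ (not_lt.1 hn1)).1 hq1
      refine ⟨⟨hq0, hqH⟩, ?_⟩
      rintro (e | e)
      · apply hn1
        rw [e, ← hh₁, sub_self, abs_zero]
        exact hν
      · have e' : G p = y := e
        apply hn2
        rw [e', ← hh₂, sub_self, abs_zero]
        exact hν
    · rintro ⟨⟨hqB, hqH⟩, hne⟩
      have hnx : q ≠ x := fun e => hne (Or.inl e)
      have hny : q ≠ y := fun e => hne (Or.inr e)
      refine ⟨?_, hqH⟩
      refine (hBB q (hsx q ⟨hqB, hqH⟩ hnx) (hsy q ⟨hqB, hqH⟩ hny) ?_).2 hqB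
      have := hm q hqB
      linarith
  have hCyc : IsCompact (G '' Cy) := by
    have e : Cy = Metric.closedBall (0 : ℂ) 22 ×ˢ Icc (-14 : ℝ) 14 := by
      ext q
      show (‖q.1‖ ≤ 22 ∧ |q.2| ≤ 14) ↔ _
      rw [Set.mem_prod, mem_closedBall_zero_iff, abs_le]
      rfl
    rw [e]
    exact ((isCompact_closedBall _ _).prod isCompact_Icc).image hGd.smooth.continuous
  have hcl3 : IsClosed (G '' B3) := by
    have : G '' B3 = G.symm ⁻¹' B3 := by
      ext q
      obtain ⟨p, rfl⟩ := G.surjective q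
      rw [hmem', mem_preimage, G.symm_apply_apply]
    rw [this]
    exact cB3.preimage hGd.smooth_symm.continuous
  refine ⟨G '' B3, (pB1.trans pB2).trans hp3, ⟨?_, ?_, ?_, ?_, ?_⟩, hInt⟩
  · refine (cB2.union hCyc).of_isClosed_subset hcl3 ?_
    intro q hq
    obtain ⟨p, rfl⟩ := G.surjective q
    by_cases hp : p ∈ Cy
    · exact Or.inr ⟨p, hp, rfl⟩
    · exact Or.inl ((hout p hp).1 hq)
  · rw [Set.disjoint_left]
    intro q hq hq3
    obtain ⟨p, rfl⟩ := G.surjective q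
    have hp0 : p.1 = 0 := by
      have h1 : (G p).1 = 0 := hq
      rw [hG1] at h1
      rcases mul_eq_zero.1 h1 with h | h
      · exact absurd (by exact_mod_cast h) hε.ne'
      · exact h
    by_cases hp : p ∈ Cy
    · exact (hB3 p hp ((hmem' B3 p).1 hq3)).2 hp0
    · exact (Set.disjoint_left.1 dB2) hq ((hout p hp).1 hq3)
  · rw [hInt]
    exact hB.fin.sdiff
  · intro q hq
    rw [hInt] at hq
    obtain ⟨⟨hqB, hqH⟩, hne⟩ := hq
    have hnx : q ≠ x := fun e => hne (Or.inl e)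
    have hny : q ≠ y := fun e => hne (Or.inr e)
    refine crs_congr (hB.crs q ⟨hqB, hqH⟩) ?_ hqH.1
    have c1 : Continuous fun q : ℂ × ℝ => |q.2 - h₁| := (continuous_snd.sub continuous_const).abs
    have c2 : Continuous fun q : ℂ × ℝ => |q.2 - h₂| := (continuous_snd.sub continuous_const).abs
    have c3 : Continuous fun q : ℂ × ℝ => ‖q.1‖ := continuous_fst.norm
    have hmq := hm q hqB
    filter_upwards [(isOpen_lt continuous_const c1).mem_nhds (hsx q ⟨hqB, hqH⟩ hnx),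
      (isOpen_lt continuous_const c2).mem_nhds (hsy q ⟨hqB, hqH⟩ hny),
      (isOpen_lt continuous_const c3).mem_nhds (show 22 * ε < ‖q.1‖ by linarith)] with q' e1 e2 e3
    exact hBB q' e1 e2 e3
  · rw [hInt]
    exact hB.hts.mono sdiff_subset

theorem core {B : Set (ℂ × ℝ)} (hB : Good B) {x y : ℂ × ℝ} (hx : x ∈ B ∩ Hp) (hy : y ∈ B ∩ Hp) (hxy : x ≠ y) :
    ∃ B' : Set (ℂ × ℝ), PEq U B U B' ∧ Good B' ∧ B' ∩ Hp = (B ∩ Hp) \ {x, y} := by
  rcases lt_trichotomy x.2 y.2 with h | h | h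
  · exact Core_lt hB hx hy h
  · exact absurd (hB.hts hx hy h) hxy
  · obtain ⟨B', h1, h2, h3⟩ := Core_lt hB hy hx h
    exact ⟨B', h1, h2, by rw [h3, Set.pair_comm]⟩

end Pool.Agent.LKH
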