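import Pool.Agent.LKF.Def3
import Pool.Agent.KNT.ArcI
import Pool.Agent.KNT.StpD

/-!
# LKH/Defs: block H (the axis `U` and a compact link `B`): definitions

`Hp` is the half plane `re w = 0`, `im w < 0`. `Good B`: `B` crosses `Hp` transversally in finitely many points, at different
heights. Goal: `PEq U B U B'` with at most one crossing of `B'` with `Hp`.

THE LAYERED TRIANGLE. `m (w, h) = (conj w, h)`. The line `Ax : w = -6`, and the two arcs `X1 u = (u - 2 i Bf u, u)` (in front),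
`X2 v = (v + 2 i Bf v, -v)` (behind), `u, v ∈ [-10, 10]`. Theorem `tri`: `(Ax, W ∪ X1 ∪ X2) ~ (Ax, W ∪ m X1 ∪ m X2)`.
For the proof: the kink `Kc Yk t = (Xk t + i Yk t, Hk t)`: double point of `(Xk, Hk)` only for `t² = 11/2`; the ribbon
`bR l` (`z = 1`: part of the kink, `z = -1`: part of `A1 u = (u - 2 i be4 u, u)`) passes from in front of to behind the
ribbon `cR` (`z = -1`: part of the kink, `z = 1`: part of `A2 v = (v, -v)`).
-/

open scoped ContDiff Topology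
open Set Filter
open Complex (I)
open Pool.Agent.CSG (stp)
open Pool.Agent.KNT (Dom BalC Tubes Str CD U)
open Pool.Agent.LKF (PEq Mut StP StM)

namespace Pool.Agent.LKH

/-! ## crossings with the half plane -/

/-- the half plane -/
def Hp : Set (ℂ × ℝ) := {q | q.1.re = 0 ∧ q.1.im < 0}

/-- near `x` (`x.1.re = 0`) the set `B` is a graph over `re w` -/
def Crs (B : Set (ℂ × ℝ)) (x : ℂ × ℝ) : Prop :=
  ∃ (ρ η : ℝ → ℝ) (d : ℝ), ContDiff ℝ ∞ ρ ∧ ContDiff ℝ ∞ η ∧ 0 < d ∧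
    ∀ q : ℂ × ℝ, |q.1.re| < d → |q.1.im - x.1.im| < d → |q.2 - x.2| < d →
      (q ∈ B ↔ q.1.im = ρ q.1.re ∧ q.2 = η q.1.re)

/-- finitely many transversal crossings with the half plane, at different heights -/
structure Good (B : Set (ℂ × ℝ)) : Prop where
  cpt : IsCompact B
  dis : Disjoint U B
  fin : (B ∩ Hp).Finite
  crs : ∀ x ∈ B ∩ Hp, Crs B x
  hts : InjOn Prod.snd (B ∩ Hp)

/-! ## the kink -/

noncomputable def fr (r : ℝ) : ℝ := r + (12 - r) * stp (21 / 2) 12 r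

/-- `6 - t²` for `t² ≤ 21/2`, `-6` for `12 ≤ t²` -/
noncomputable def Xk (t : ℝ) : ℝ := 6 - fr (t ^ 2)

/-- odd, `1` for `1 ≤ t` -/
noncomputable def sg (t : ℝ) : ℝ := 2 * stp (-1) 1 t - 1

noncomputable def Hk (t : ℝ) : ℝ := (Xk t - 1 / 2) * sg t - t * stp (21 / 2) 11 (t ^ 2)

/-- `1` for `|s| ≤ 1/4`, `0` for `1/2 ≤ |s|` -/
noncomputable def be (s : ℝ) : ℝ := 1 - stp (1 / 16) (1 / 4) (s ^ 2)

/-- `1` for `|u| ≤ 8`, `0` for `9 ≤ |u|` -/
noncomputable def Bf (u : ℝ) : ℝ := 1 - stp 64 81 (u ^ 2)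

/-- the depth of the first kink -/
noncomputable def Yk (t : ℝ) : ℝ := -2 * stp 0 1 t * be ((Xk t - 1 / 4) / 4)

/-- the strictly decreasing depth, `0` for `6 ≤ |t|` -/
noncomputable def Yt (t : ℝ) : ℝ := -(t / 8) * (1 - stp 25 36 (t ^ 2))

/-- the final height -/
noncomputable def Ht (t : ℝ) : ℝ := -t - 13 / 2 * (2 * stp (-3) 3 t - 1)

/-- the point of depth `y` -/
def pt (x y h : ℝ) : ℂ × ℝ := (⟨x, y⟩, h)

noncomputable def K0 (t : ℝ) : ℂ × ℝ := pt (Xk t) (Yk t) (Hk t)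

/-- the mirror image -/
noncomputable def mi (q : ℂ × ℝ) : ℂ × ℝ := ((starRingEnd ℂ) q.1, q.2)

noncomputable def A1 (u : ℝ) : ℂ × ℝ := pt u (-2 * be (u / 4)) u
noncomputable def A2 (v : ℝ) : ℂ × ℝ := pt v 0 (-v)
noncomputable def X1 (u : ℝ) : ℂ × ℝ := pt u (-2 * Bf u) u
noncomputable def X2 (v : ℝ) : ℂ × ℝ := pt v (2 * Bf v) (-v)

/-- the moving ribbon -/
noncomputable def bR (l : ℝ) (q : ℂ × ℝ) : ℂ × ℝ :=
  pt (4 * q.2 + 1 / 8 + q.1.re / 8) (q.1.im / 8 - 2 * (1 - 2 * l) * be q.2) (4 * q.2 - 1 / 8 - q.1.re / 8)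

/-- the fixed ribbon -/
noncomputable def cR (q : ℂ × ℝ) : ℂ × ℝ :=
  pt (4 * q.2 + 1 / 8 - q.1.re / 8) (q.1.im / 8) (1 / 8 - q.1.re / 8 - 4 * q.2)

/-- the line `w = -6` -/
def Ax : Set (ℂ × ℝ) := {q | q.1 = -6}

/-- the big box -/
def Bx : Set (ℂ × ℝ) := {q | |q.1.re| ≤ 19 / 2 ∧ |q.1.im| ≤ 5 / 2 ∧ |q.2| ≤ 13}

/-- the domain of the arcs -/
def J10 : Set ℝ := Icc (-10) 10

/-! ## the local move -/

/-- `0` for `|u| ≤ 10`, `1` for `11 ≤ |u|` -/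
noncomputable def Bo (u : ℝ) : ℝ := stp 100 121 (u ^ 2)

noncomputable def Y1 (x : ℝ) : ℝ := -2 * Bf (x - 6) - 2 * Bo (x - 6)
noncomputable def Y1' (x : ℝ) : ℝ := 2 * Bf (x - 6) - 2 * Bo (x - 6)
noncomputable def H1 (x : ℝ) : ℝ := -6 + x * (1 - stp 121 144 ((x - 6) ^ 2))

noncomputable def M1 (x : ℝ) : ℂ × ℝ := pt x (Y1 x) (H1 x)
noncomputable def M2 (x : ℝ) : ℂ × ℝ := pt x (-Y1 x) (-H1 x)
noncomputable def N1 (x : ℝ) : ℂ × ℝ := pt x (Y1' x) (H1 x)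
noncomputable def N2 (x : ℝ) : ℂ × ℝ := pt x (-Y1' x) (-H1 x)

/-- the arcs of the local move are parametrised by `[-7, 19]` -/
def J13 : Set ℝ := Icc (-7) 19

/-- angle of the half twist -/
noncomputable def ta (q : ℂ × ℝ) : ℝ := Real.pi * stp (-3) 3 q.2 * (1 - stp 441 484 (‖q.1‖ ^ 2))

/-- the half twist -/
noncomputable def Rt (q : ℂ × ℝ) : ℂ × ℝ := (q.1 * Complex.exp (-(ta q : ℂ) * I), q.2)
noncomputable def Rti (q : ℂ × ℝ) : ℂ × ℝ := (q.1 * Complex.exp ((ta q : ℂ) * I), q.2)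

/-- the cylinder of the local move -/
def Cy : Set (ℂ × ℝ) := {q | ‖q.1‖ ≤ 22 ∧ |q.2| ≤ 14}

end Pool.Agent.LKH
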