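import Pool.Agent.LKH.Pb

/-!
# LKH/Fk (difficulty 2): the functions `Xk`, `Hk`, `Yt`, `Ht`, ...

PROOFS. `fr r = r` for `r ≤ 21/2` (`stp_zero`), `= 12` for `12 ≤ r` (`stp_one`); `fr' = 1 - s + (12 - r) s' > 0` for `r < 12`
(`stp_lt_one`, `stp_deriv_nonneg`; or directly: for `r < r' ≤ 12`: `12 - fr r = (12 - r) (1 - s r)`, and `12 - r > 12 - r'`, `1 - s r ≥ 1 - s r'`
(`stp_mono`), `1 - s r > 0` (`stp_lt_one`): so `12 - fr` is strictly decreasing). `Xk_inj`: if `a² < b²` and `a² < 12` then `Xk b < Xk a`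
(`Xk_lt`, where `b² > 12` gives `Xk b = -6 < Xk a`).
`sg`: symmetry of `stp` (`FunBasic_symm` in `CSG/FunBasic`); `sg` is strictly increasing on `[-1, 1]` (`KNT.stp_strictMonoOn`), `deriv sg 0 > 0`
(`KNT.stp_deriv_pos`). `Hk_nonpos...`: for `1 ≤ t`: `Hk t = Xk t - 1/2 - t s`, `0 ≤ s ≤ 1`. `Hk_abs`: for `0 ≤ t ≤ 1`: `|Hk t| ≤ 11/2` (`-6 ≤ Xk t ≤ 6`),
for `1 ≤ t`: `Xk t - 1/2 - t ≤ Hk t ≤ Xk t - 1/2`, `-6 ≤ Xk t ≤ 5`; odd. `Ht_abs`: `|2 stp - 1| ≤ 1`. `Yt`: on `[-5, 5]` it is `-t/8`.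
-/

open scoped ContDiff Topology
open Set Filter
open Complex (I)
open Pool.Agent.CSG
open Pool.Agent.KNT (Dom BalC Tubes Str CD U)
open Pool.Agent.LKF (PEq Mut StP StM BdC BdT)

namespace Pool.Agent.LKH

theorem fr_smooth : ContDiff ℝ ∞ fr :=
  contDiff_id.add ((contDiff_const.sub contDiff_id).mul (stp_smooth _ _))

theorem Xk_smooth : ContDiff ℝ ∞ Xk :=
  contDiff_const.sub (fr_smooth.comp (contDiff_id.pow 2))

theorem sg_smooth : ContDiff ℝ ∞ sg :=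
  (contDiff_const.mul (stp_smooth _ _)).sub contDiff_const

theorem Hk_smooth : ContDiff ℝ ∞ Hk :=
  ((Xk_smooth.sub contDiff_const).mul sg_smooth).sub
    (contDiff_id.mul ((stp_smooth _ _).comp (contDiff_id.pow 2)))

theorem be_smooth : ContDiff ℝ ∞ be :=
  contDiff_const.sub ((stp_smooth _ _).comp (contDiff_id.pow 2))

theorem Bf_smooth : ContDiff ℝ ∞ Bf :=
  contDiff_const.sub ((stp_smooth _ _).comp (contDiff_id.pow 2))

theorem Yk_smooth : ContDiff ℝ ∞ Yk :=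
  (contDiff_const.mul (stp_smooth _ _)).mul
    (be_smooth.comp ((Xk_smooth.sub contDiff_const).div_const _))

theorem Yt_smooth : ContDiff ℝ ∞ Yt :=
  (contDiff_id.div_const _).neg.mul (contDiff_const.sub ((stp_smooth _ _).comp (contDiff_id.pow 2)))

theorem Ht_smooth : ContDiff ℝ ∞ Ht :=
  contDiff_id.neg.sub (contDiff_const.mul ((contDiff_const.mul (stp_smooth _ _)).sub contDiff_const))

theorem be_one {s : ℝ} (h : |s| ≤ 1 / 4) : be s = 1 := by
  have h1 : s ^ 2 ≤ 1 / 16 := by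
    rw [← sq_abs]
    have := pow_le_pow_left₀ (abs_nonneg s) h 2
    linarith
  unfold be
  rw [stp_zero (by norm_num) h1, sub_zero]

theorem be_zero {s : ℝ} (h : 1 / 2 ≤ |s|) : be s = 0 := by
  have h1 : 1 / 4 ≤ s ^ 2 := by
    rw [← sq_abs s]
    have := pow_le_pow_left₀ (by norm_num : (0 : ℝ) ≤ 1 / 2) h 2
    linarith
  unfold be
  rw [stp_one (by norm_num) h1, sub_self]

theorem be_mem (s : ℝ) : 0 ≤ be s ∧ be s ≤ 1 := by
  unfold be
  have h1 := stp_nonneg (1 / 16) (1 / 4) (s ^ 2)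
  have h2 := stp_le_one (1 / 16) (1 / 4) (s ^ 2)
  constructor <;> linarith

theorem Bf_one {u : ℝ} (h : |u| ≤ 8) : Bf u = 1 := by
  have h1 : u ^ 2 ≤ 64 := by
    rw [← sq_abs]
    have := pow_le_pow_left₀ (abs_nonneg u) h 2
    linarith
  unfold Bf
  rw [stp_zero (by norm_num) h1, sub_zero]

theorem Bf_zero {u : ℝ} (h : 9 ≤ |u|) : Bf u = 0 := by
  have h1 : 81 ≤ u ^ 2 := by
    rw [← sq_abs u]
    have := pow_le_pow_left₀ (by norm_num : (0 : ℝ) ≤ 9) h 2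
    linarith
  unfold Bf
  rw [stp_one (by norm_num) h1, sub_self]

theorem Bf_mem (u : ℝ) : 0 ≤ Bf u ∧ Bf u ≤ 1 := by
  unfold Bf
  have h1 := stp_nonneg 64 81 (u ^ 2)
  have h2 := stp_le_one 64 81 (u ^ 2)
  constructor <;> linarith

theorem Fk_fr (r : ℝ) : 12 - fr r = (12 - r) * (1 - stp (21 / 2) 12 r) := by
  unfold fr
  ring

theorem Fk_fr_far {r : ℝ} (h : 12 ≤ r) : fr r = 12 := by
  have h1 := Fk_fr r
  rw [stp_one (by norm_num) h, sub_self, mul_zero] at h1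
  linarith

theorem Fk_fr_lt {r r' : ℝ} (h : r < r') (h1 : r < 12) : fr r < fr r' := by
  have e1 := Fk_fr r
  have s1 := stp_lt_one (a := 21 / 2) (b := 12) (by norm_num) h1
  have p1 : 0 < (12 - r) * (1 - stp (21 / 2) 12 r) := mul_pos (by linarith) (by linarith)
  rcases le_or_gt 12 r' with h2 | h2
  · rw [Fk_fr_far h2]
    linarith
  · have e2 := Fk_fr r'
    have s2 := stp_mono (a := 21 / 2) (b := 12) (by norm_num) h.le
    have h3 : (12 - r') * (1 - stp (21 / 2) 12 r') ≤ (12 - r') * (1 - stp (21 / 2) 12 r) :=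
      mul_le_mul_of_nonneg_left (by linarith) (by linarith)
    have h4 : (12 - r') * (1 - stp (21 / 2) 12 r) < (12 - r) * (1 - stp (21 / 2) 12 r) :=
      mul_lt_mul_of_pos_right (by linarith) (by linarith)
    linarith

theorem Fk_fr_mono : Monotone fr := by
  intro r r' h
  rcases eq_or_lt_of_le h with h | h
  · rw [h]
  · rcases lt_or_ge r 12 with h1 | h1
    · exact (Fk_fr_lt h h1).le
    · rw [Fk_fr_far h1, Fk_fr_far (h1.trans h.le)]

theorem Xk_even (t : ℝ) : Xk (-t) = Xk t := by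
  unfold Xk
  rw [neg_sq]

theorem Xk_mid {t : ℝ} (h : t ^ 2 ≤ 21 / 2) : Xk t = 6 - t ^ 2 := by
  unfold Xk fr
  rw [stp_zero (by norm_num) h]
  ring

theorem Xk_far {t : ℝ} (h : 12 ≤ t ^ 2) : Xk t = -6 := by
  unfold Xk
  rw [Fk_fr_far h]
  norm_num

theorem Xk_lt {a b : ℝ} (h : a ^ 2 < b ^ 2) (ha : a ^ 2 < 12) : Xk b < Xk a := by
  unfold Xk
  linarith [Fk_fr_lt h ha]

theorem Xk_mem (t : ℝ) : -6 ≤ Xk t ∧ Xk t ≤ 6 := by
  unfold Xk
  constructor
  · have h1 := Fk_fr_mono (le_max_left (t ^ 2) 12)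
    rw [Fk_fr_far (le_max_right _ _)] at h1
    linarith
  · have h1 := Fk_fr_mono (sq_nonneg t)
    have h2 : fr 0 = 0 := by
      unfold fr
      rw [stp_zero (by norm_num) (by norm_num)]
      ring
    rw [h2] at h1
    linarith

theorem Xk_inj {a b : ℝ} (h : Xk a = Xk b) : a ^ 2 = b ^ 2 ∨ (12 ≤ a ^ 2 ∧ 12 ≤ b ^ 2) := by
  rcases lt_trichotomy (a ^ 2) (b ^ 2) with h1 | h1 | h1
  · rcases lt_or_ge (a ^ 2) 12 with h2 | h2
    · exact absurd h (Xk_lt h1 h2).ne'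
    · exact Or.inr ⟨h2, by linarith⟩
  · exact Or.inl h1
  · rcases lt_or_ge (b ^ 2) 12 with h2 | h2
    · exact absurd h (Xk_lt h1 h2).ne
    · exact Or.inr ⟨by linarith, h2⟩

theorem Fk_Xk_deriv (t : ℝ) : deriv Xk t = -(deriv fr (t ^ 2) * (2 * t)) := by
  have h1 : HasDerivAt fr (deriv fr (t ^ 2)) (t ^ 2) :=
    (fr_smooth.differentiable (by simp) _).hasDerivAt
  have h2 : HasDerivAt (fun t : ℝ => t ^ 2) (2 * t) t := by
    have := hasDerivAt_pow 2 t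
    simpa using this
  have h3 : HasDerivAt (fun t : ℝ => fr (t ^ 2)) (deriv fr (t ^ 2) * (2 * t)) t :=
    HasDerivAt.comp (h₂ := fr) (h := fun t : ℝ => t ^ 2) t h1 h2
  have h4 : HasDerivAt Xk (-(deriv fr (t ^ 2) * (2 * t))) t := h3.const_sub 6
  exact h4.deriv

/-- `Xk' < 0` for `0 < t`, `t² < 12` -/
theorem Xk_deriv_neg {t : ℝ} (h0 : 0 < t) (h : t ^ 2 < 12) : deriv Xk t < 0 := by
  have h1 : HasDerivAt (stp (21 / 2) 12) (deriv (stp (21 / 2) 12) (t ^ 2)) (t ^ 2) :=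
    ((stp_smooth _ _).differentiable (by simp) _).hasDerivAt
  have h2 : HasDerivAt fr (1 + ((-1) * stp (21 / 2) 12 (t ^ 2) + (12 - t ^ 2) * deriv (stp (21 / 2) 12) (t ^ 2)))
      (t ^ 2) := (hasDerivAt_id (t ^ 2)).add (((hasDerivAt_id (t ^ 2)).const_sub 12).mul h1)
  have h3 := stp_lt_one (a := 21 / 2) (b := 12) (by norm_num) h
  have h4 := stp_deriv_nonneg (a := 21 / 2) (b := 12) (by norm_num) (t ^ 2)
  rw [Fk_Xk_deriv, h2.deriv]
  have h5 : 0 ≤ (12 - t ^ 2) * deriv (stp (21 / 2) 12) (t ^ 2) := mul_nonneg (by linarith) h4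
  have h6 : 0 < 1 + ((-1) * stp (21 / 2) 12 (t ^ 2) + (12 - t ^ 2) * deriv (stp (21 / 2) 12) (t ^ 2)) := by
    linarith
  have h7 : 0 < (1 + ((-1) * stp (21 / 2) 12 (t ^ 2) + (12 - t ^ 2) * deriv (stp (21 / 2) 12) (t ^ 2))) * (2 * t) :=
    mul_pos h6 (by linarith)
  linarith

theorem Xk_deriv_nonpos {t : ℝ} (h0 : 0 < t) : deriv Xk t ≤ 0 := by
  rw [Fk_Xk_deriv]
  have h1 : 0 ≤ deriv fr (t ^ 2) := Fk_fr_mono.deriv_nonneg
  have h2 := mul_nonneg h1 (by linarith : 0 ≤ 2 * t)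
  linarith

theorem Fk_stp (t : ℝ) : stp (-1) 1 (-t) = 1 - stp (-1) 1 t := by
  have h := FunBasic_symm (a := -1) (b := 1) (by norm_num) t
  rw [← h]
  congr 1
  ring

theorem sg_odd (t : ℝ) : sg (-t) = -sg t := by
  unfold sg
  rw [Fk_stp]
  ring

theorem sg_one {t : ℝ} (h : 1 ≤ t) : sg t = 1 := by
  unfold sg
  rw [stp_one (by norm_num) h]
  norm_num

theorem sg_pos {t : ℝ} (h : 0 < t) : 0 < sg t ∧ sg t ≤ 1 := by
  constructor
  · rcases le_or_gt 1 t with h1 | h1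
    · rw [sg_one h1]
      norm_num
    · have h2 := KNT.stp_strictMonoOn (a := -1) (b := 1) (by norm_num) (show (0 : ℝ) ∈ Icc (-1) 1 by
        constructor <;> norm_num) (show t ∈ Icc (-1) 1 by constructor <;> linarith) h
      have h3 := Fk_stp 0
      rw [neg_zero] at h3
      unfold sg
      linarith
  · unfold sg
    linarith [stp_le_one (-1) 1 t]

theorem sg_deriv_zero : 0 < deriv sg 0 := by
  have h1 : HasDerivAt (stp (-1) 1) (deriv (stp (-1) 1) 0) 0 :=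
    ((stp_smooth _ _).differentiable (by simp) _).hasDerivAt
  have h2 : HasDerivAt sg (2 * deriv (stp (-1) 1) 0) 0 := (h1.const_mul 2).sub_const 1
  rw [h2.deriv]
  have := KNT.stp_deriv_pos (a := -1) (b := 1) (x := 0) (by norm_num) (by norm_num)
  linarith

theorem Hk_odd (t : ℝ) : Hk (-t) = -Hk t := by
  unfold Hk
  rw [Xk_even, sg_odd, neg_sq]
  ring

theorem Hk_mid {t : ℝ} (h1 : 1 ≤ t) (h : t ^ 2 ≤ 21 / 2) : Hk t = Xk t - 1 / 2 := by
  unfold Hk
  rw [sg_one h1, stp_zero (by norm_num) h]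
  ring

theorem Hk_le {t : ℝ} (h1 : 1 ≤ t) : Hk t ≤ Xk t - 1 / 2 := by
  unfold Hk
  rw [sg_one h1, mul_one]
  have h2 := stp_nonneg (21 / 2) 11 (t ^ 2)
  have h3 : 0 ≤ t * stp (21 / 2) 11 (t ^ 2) := mul_nonneg (by linarith) h2
  linarith

theorem Hk_small {t : ℝ} (h0 : 0 < t) (h1 : t ≤ 1) : Hk t = (Xk t - 1 / 2) * sg t := by
  unfold Hk
  have h2 : t ^ 2 ≤ 21 / 2 := by nlinarith
  rw [stp_zero (by norm_num) h2]
  ring

theorem Fk_three {t : ℝ} (h0 : 0 < t) (h : 12 ≤ t ^ 2) : 3 ≤ t := by nlinarith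

theorem Hk_far {t : ℝ} (h0 : 0 < t) (h : 12 ≤ t ^ 2) : Hk t = -(13 / 2) - t := by
  have h1 := Fk_three h0 h
  unfold Hk
  rw [Xk_far h, sg_one (by linarith), stp_one (by norm_num) (by linarith)]
  ring

theorem Fk_abs (t : ℝ) {u : ℝ} (hu0 : 0 ≤ u) (hu1 : u ≤ 1) : |t * u| ≤ |t| := by
  rw [abs_mul, abs_of_nonneg hu0]
  have := mul_le_mul_of_nonneg_left hu1 (abs_nonneg t)
  rwa [mul_one] at this

theorem Hk_abs (t : ℝ) : |Hk t| ≤ 13 / 2 + |t| := by
  have h1 : |(Xk t - 1 / 2) * sg t| ≤ 13 / 2 := by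
    have h2 : |sg t| ≤ 1 := by
      unfold sg
      rw [abs_le]
      constructor <;> linarith [stp_le_one (-1) 1 t, stp_nonneg (-1) 1 t]
    have h3 : |Xk t - 1 / 2| ≤ 13 / 2 := by
      rw [abs_le]
      have := Xk_mem t
      constructor <;> linarith [this.1, this.2]
    rw [abs_mul]
    calc |Xk t - 1 / 2| * |sg t| ≤ 13 / 2 * 1 :=
          mul_le_mul h3 h2 (abs_nonneg _) (by norm_num)
      _ = 13 / 2 := by norm_num
  have h4 := Fk_abs t (stp_nonneg (21 / 2) 11 (t ^ 2)) (stp_le_one (21 / 2) 11 (t ^ 2))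
  unfold Hk
  have h5 := abs_sub ((Xk t - 1 / 2) * sg t) (t * stp (21 / 2) 11 (t ^ 2))
  linarith

theorem Ht_abs (t : ℝ) : |Ht t| ≤ 13 / 2 + |t| := by
  have h1 : |13 / 2 * (2 * stp (-3) 3 t - 1)| ≤ 13 / 2 := by
    rw [abs_le]
    constructor <;> linarith [stp_le_one (-3) 3 t, stp_nonneg (-3) 3 t]
  unfold Ht
  have h5 := abs_sub (-t) (13 / 2 * (2 * stp (-3) 3 t - 1))
  rw [abs_neg] at h5
  linarith

theorem Ht_eq {t : ℝ} (h : 12 ≤ t ^ 2) : Ht t = Hk t := by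
  rcases lt_trichotomy t 0 with h0 | h0 | h0
  · have h1 : 12 ≤ (-t) ^ 2 := by rwa [neg_sq]
    have h2 := Fk_three (by linarith : 0 < -t) h1
    have h3 := Hk_far (by linarith : 0 < -t) h1
    rw [Hk_odd] at h3
    unfold Ht
    rw [stp_zero (by norm_num) (by linarith)]
    linarith
  · rw [h0] at h
    norm_num at h
  · have h2 := Fk_three h0 h
    rw [Hk_far h0 h]
    unfold Ht
    rw [stp_one (by norm_num) h2]
    ring

theorem Ht_deriv (t : ℝ) : deriv Ht t < 0 := by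
  have h1 : HasDerivAt (stp (-3) 3) (deriv (stp (-3) 3) t) t :=
    ((stp_smooth _ _).differentiable (by simp) _).hasDerivAt
  have h2 : HasDerivAt Ht (-1 - 13 / 2 * (2 * deriv (stp (-3) 3) t)) t :=
    (hasDerivAt_id t).neg.sub (((h1.const_mul 2).sub_const 1).const_mul (13 / 2))
  rw [h2.deriv]
  have := stp_deriv_nonneg (a := -3) (b := 3) (by norm_num) t
  linarith

theorem Ht_anti : StrictAnti Ht := strictAnti_of_deriv_neg Ht_deriv

theorem Yt_mid {t : ℝ} (h : |t| ≤ 5) : Yt t = -(t / 8) := by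
  have h1 : t ^ 2 ≤ 25 := by
    rw [← sq_abs]
    have := pow_le_pow_left₀ (abs_nonneg t) h 2
    linarith
  unfold Yt
  rw [stp_zero (by norm_num) h1, sub_zero, mul_one]

theorem Yt_far {t : ℝ} (h : 6 ≤ |t|) : Yt t = 0 := by
  have h1 : 36 ≤ t ^ 2 := by
    rw [← sq_abs t]
    have := pow_le_pow_left₀ (by norm_num : (0 : ℝ) ≤ 6) h 2
    linarith
  unfold Yt
  rw [stp_one (by norm_num) h1, sub_self, mul_zero]

theorem Yt_abs (t : ℝ) : |Yt t| ≤ 3 / 4 := by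
  rcases le_or_gt 6 |t| with h | h
  · rw [Yt_far h]
    norm_num
  · unfold Yt
    have h1 := Fk_abs (-(t / 8)) (u := 1 - stp 25 36 (t ^ 2)) (by linarith [stp_le_one 25 36 (t ^ 2)])
      (by linarith [stp_nonneg 25 36 (t ^ 2)])
    have h2 : |-(t / 8)| = |t| / 8 := by
      rw [abs_neg, abs_div]
      norm_num
    rw [h2] at h1
    linarith

/-- The curves `(Xk, Y, Hk)` are proper. -/
theorem prop_pt (Y : ℝ → ℝ) (t : ℝ) : |t| ≤ ‖pt (Xk t) (Y t) (Hk t)‖ + 4 := by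
  have h1 : |Hk t| ≤ ‖pt (Xk t) (Y t) (Hk t)‖ := norm_snd_le (pt (Xk t) (Y t) (Hk t))
  rcases le_or_gt |t| 4 with h | h
  · have := norm_nonneg (pt (Xk t) (Y t) (Hk t))
    linarith
  · have h2 : 12 ≤ t ^ 2 := by
      rw [← sq_abs t]
      nlinarith
    have h3 : |t| ≤ |Hk t| := by
      rcases lt_trichotomy t 0 with h0 | h0 | h0
      · have h4 : 12 ≤ (-t) ^ 2 := by rwa [neg_sq]
        have h5 := Hk_far (by linarith : 0 < -t) h4
        rw [Hk_odd] at h5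
        rw [abs_of_neg h0]
        have := le_abs_self (Hk t)
        linarith
      · rw [h0, abs_zero] at h
        linarith
      · have h5 := Hk_far h0 h2
        rw [abs_of_pos h0]
        have := neg_abs_le (Hk t)
        linarith
    linarith

theorem closed_pt {Y : ℝ → ℝ} (hY : Continuous Y) : IsClosed (range fun t => pt (Xk t) (Y t) (Hk t)) := by
  have hc : Continuous fun t => pt (Xk t) (Y t) (Hk t) := by
    unfold pt
    refine Continuous.prodMk ?_ Hk_smooth.continuous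
    have h1 : (fun t => (⟨Xk t, Y t⟩ : ℂ)) = fun t => ((Xk t : ℝ) : ℂ) + ((Y t : ℝ) : ℂ) * I := by
      funext t
      apply Complex.ext <;> simp
    rw [h1]
    exact (Complex.continuous_ofReal.comp Xk_smooth.continuous).add
      ((Complex.continuous_ofReal.comp hY).mul continuous_const)
  have ht : Tendsto (fun t => pt (Xk t) (Y t) (Hk t)) (cocompact ℝ) (cocompact (ℂ × ℝ)) := by
    apply Filter.tendsto_cocompact_cocompact_of_norm
    intro ε
    refine ⟨ε + 4, fun t ht => ?_⟩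
    have := prop_pt Y t
    rw [Real.norm_eq_abs] at ht
    linarith
  exact (isProperMap_iff_tendsto_cocompact.2 ⟨hc, ht⟩).isClosedMap.isClosed_range

end Pool.Agent.LKH
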