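import Pool.Agent.LKH.Fk

/-!
# LKH/Fl (difficulty 1): the functions `Y1`, `Y1'`, `H1`

PROOFS. `Bf (x - 6) = 1` for `|x - 6| ≤ 8`, `0` for `9 ≤ |x - 6|`; `Bo (x - 6) = 0` for `|x - 6| ≤ 10`, `1` for `11 ≤ |x - 6|`. `Y1_zero`: if `Y1 x = 0` then `Bf = 0` and `Bo = 0`, so
`8 < |x - 6|` and `|x - 6| < 11`, so `H1 x = x - 6 ≠ 0` (`H1_mid`). `H1_abs`: for `|x - 6| ≤ 11` clear; for `-7 ≤ x ≤ 19`, `H1 x = -6 + x (1 - s)`, `0 ≤ s ≤ 1`, so `H1 x` is between `-6` and `-6 + x`, `|..| ≤ 13`.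
`H1_neg`: for `-7 ≤ x ≤ 0`: `x (1 - s) ≤ 0`.
-/

open scoped ContDiff Topology
open Set Filter
open Complex (I)
open Pool.Agent.CSG
open Pool.Agent.KNT (Dom BalC Tubes Str CD U)
open Pool.Agent.LKF (PEq Mut StP StM BdC BdT)

namespace Pool.Agent.LKH

theorem Bo_smooth : ContDiff ℝ ∞ Bo := by
  unfold Bo
  exact (stp_smooth _ _).comp (contDiff_id.pow 2)

theorem Bo_zero {u : ℝ} (h : |u| ≤ 10) : Bo u = 0 := by
  unfold Bo
  apply stp_zero (by norm_num)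
  rw [← sq_abs]
  nlinarith [abs_nonneg u]

theorem Bo_one {u : ℝ} (h : 11 ≤ |u|) : Bo u = 1 := by
  unfold Bo
  apply stp_one (by norm_num)
  rw [← sq_abs]
  nlinarith [abs_nonneg u]

theorem Bo_mem (u : ℝ) : 0 ≤ Bo u ∧ Bo u ≤ 1 := by
  exact ⟨stp_nonneg _ _ _, stp_le_one _ _ _⟩

theorem Fl_sum (u : ℝ) : Bf u + Bo u ≤ 1 := by
  rcases le_or_gt |u| 10 with h | h
  · rw [Bo_zero h, add_zero]
    exact (Bf_mem u).2
  · rw [Bf_zero (by linarith), zero_add]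
    exact (Bo_mem u).2

theorem Y1_smooth : ContDiff ℝ ∞ Y1 := by
  unfold Y1
  exact (contDiff_const.mul (Bf_smooth.comp (contDiff_id.sub contDiff_const))).sub
    (contDiff_const.mul (Bo_smooth.comp (contDiff_id.sub contDiff_const)))

theorem H1_smooth : ContDiff ℝ ∞ H1 := by
  unfold H1
  exact contDiff_const.add (contDiff_id.mul (contDiff_const.sub
    ((stp_smooth _ _).comp ((contDiff_id.sub contDiff_const).pow 2))))

theorem Y1_mem (x : ℝ) : -2 ≤ Y1 x ∧ Y1 x ≤ 0 := by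
  have h1 := Fl_sum (x - 6)
  have h2 := (Bf_mem (x - 6)).1
  have h3 := (Bo_mem (x - 6)).1
  unfold Y1
  constructor <;> linarith

theorem Y1_ends {x : ℝ} (h : 11 ≤ |x - 6|) : Y1 x = -2 ∧ Y1' x = -2 := by
  unfold Y1 Y1'
  rw [Bf_zero (by linarith), Bo_one h]
  constructor <;> norm_num

theorem Y1_at_zero : Y1 0 = -2 ∧ Y1' 0 = 2 := by
  have h : |(0 : ℝ) - 6| = 6 := by norm_num
  unfold Y1 Y1'
  rw [Bf_one (by rw [h]; norm_num), Bo_zero (by rw [h]; norm_num)]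
  constructor <;> norm_num

theorem Y1'_mem (x : ℝ) : |Y1' x| ≤ 2 := by
  have h1 := Fl_sum (x - 6)
  have h2 := (Bf_mem (x - 6)).1
  have h3 := (Bo_mem (x - 6)).1
  unfold Y1'
  rw [abs_le]
  constructor <;> linarith

theorem H1_mid {x : ℝ} (h : |x - 6| ≤ 11) : H1 x = x - 6 := by
  unfold H1
  rw [stp_zero (by norm_num)]
  · ring
  · rw [← sq_abs]
    nlinarith [abs_nonneg (x - 6)]

theorem H1_ends {x : ℝ} (h : 12 ≤ |x - 6|) : H1 x = -6 := by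
  unfold H1
  rw [stp_one (by norm_num)]
  · ring
  · rw [← sq_abs]
    nlinarith [abs_nonneg (x - 6)]

theorem H1_abs {x : ℝ} (hx : x ∈ J13) : |H1 x| ≤ 13 := by
  obtain ⟨h1, h2⟩ := hx
  have h3 := stp_nonneg 121 144 ((x - 6) ^ 2)
  have h4 := stp_le_one 121 144 ((x - 6) ^ 2)
  unfold H1
  rw [abs_le]
  constructor <;> nlinarith

theorem H1_neg {x : ℝ} (hx : x ∈ J13) (h : x ≤ 0) : H1 x ≤ -6 := by
  have h4 := stp_le_one 121 144 ((x - 6) ^ 2)
  unfold H1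
  nlinarith

theorem Y1_zero {x : ℝ} (h : Y1 x = 0) : H1 x ≠ 0 := by
  have h2 := (Bf_mem (x - 6)).1
  have h3 := (Bo_mem (x - 6)).1
  unfold Y1 at h
  have h4 : Bf (x - 6) = 0 := by linarith
  have h5 : Bo (x - 6) = 0 := by linarith
  have h6 : 8 < |x - 6| := by
    by_contra hc
    push Not at hc
    rw [Bf_one hc] at h4
    exact one_ne_zero h4
  have h7 : |x - 6| < 11 := by
    by_contra hc
    push Not at hc
    rw [Bo_one hc] at h5
    exact one_ne_zero h5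
  rw [H1_mid h7.le]
  intro h8
  rw [h8, abs_zero] at h6
  linarith

end Pool.Agent.LKH
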