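import Pool.Agent.LKH.Pb
import Pool.Agent.LKG.Main

/-!
# LKH/Gen: general position of a link with respect to the half plane

`LinkC B`: `B` is a finite union of disjoint embedded smooth circles. `Pre B`: `Good B` without the condition on the heights. `hgt`: the heights can be made different by `(w, h) ↦ (w, h + c ‖w‖² χ)` (`c` small, generic).
`gen`: rotate by a regular value of the angle function (rotation cut off outside a large ball), implicit function theorem at the crossings, compactness; then `hgt`.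
The proofs are in `Pool.Agent.LKG`.
-/

open scoped ContDiff Topology
open Set Filter
open Complex (I)
open Pool.Agent.CSG
open Pool.Agent.KNT (Dom BalC Tubes Str CD U)
open Pool.Agent.LKF (PEq Mut StP StM BdC BdT)

namespace Pool.Agent.LKH

/-- a finite union of disjoint embedded smooth circles -/
def LinkC (B : Set (ℂ × ℝ)) : Prop :=
  ∃ (n : ℕ) (c : Fin n → ℝ → ℂ × ℝ), (∀ i, ContDiff ℝ ∞ (c i)) ∧ (∀ i t, c i (t + 1) = c i t) ∧
    (∀ i t, deriv (c i) t ≠ 0) ∧ (∀ i j s t, c i s = c j t → i = j ∧ ∃ k : ℤ, s = t + k) ∧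
    B = ⋃ i, range (c i)

/-- finitely many transversal crossings with the half plane -/
structure Pre (B : Set (ℂ × ℝ)) : Prop where
  cpt : IsCompact B
  dis : Disjoint U B
  fin : (B ∩ Hp).Finite
  crs : ∀ x ∈ B ∩ Hp, Crs B x

/-- a function which is smooth near `0` agrees near `0` with a smooth function -/
theorem Gen_ext {β : ℝ → ℝ} (h : ∀ᶠ u in 𝓝 (0 : ℝ), ContDiffAt ℝ ∞ β u) :
    ∃ ρ : ℝ → ℝ, ContDiff ℝ ∞ ρ ∧ ∀ᶠ u in 𝓝 (0 : ℝ), ρ u = β u := by
  obtain ⟨d, hd, hde⟩ := Metric.eventually_nhds_iff.1 h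
  let χ : ℝ → ℝ := fun u => 1 - stp (d ^ 2 / 16) (d ^ 2 / 4) (u ^ 2)
  have hχs : ContDiff ℝ ∞ χ := contDiff_const.sub ((CSG.stp_smooth _ _).comp (contDiff_id.pow 2))
  refine ⟨fun u => χ u * β u, ?_, ?_⟩
  · rw [contDiff_iff_contDiffAt]
    intro u
    by_cases hu : |u| < d
    · exact hχs.contDiffAt.mul (hde (by rw [Real.dist_eq, sub_zero]; exact hu))
    · have h1 : d ≤ |u| := not_lt.1 hu
      have h2 : ∀ᶠ v in 𝓝 u, d / 2 < |v| := continuous_abs.continuousAt.eventually (lt_mem_nhds (by linarith))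
      have h3 : (fun v => χ v * β v) =ᶠ[𝓝 u] fun _ => 0 := by
        filter_upwards [h2] with v hv
        have e1 : d ^ 2 / 4 ≤ v ^ 2 := by rw [← sq_abs v]; nlinarith [abs_nonneg v]
        show (1 - stp (d ^ 2 / 16) (d ^ 2 / 4) (v ^ 2)) * β v = 0
        rw [CSG.stp_one (by nlinarith) e1, sub_self, zero_mul]
      exact contDiffAt_const.congr_of_eventuallyEq h3
  · have h2 : ∀ᶠ v in 𝓝 (0 : ℝ), |v| < d / 4 :=
      continuous_abs.continuousAt.eventually (gt_mem_nhds (by rw [abs_zero]; linarith))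
    filter_upwards [h2] with v hv
    have e1 : v ^ 2 ≤ d ^ 2 / 16 := by rw [← sq_abs v]; nlinarith [abs_nonneg v]
    show (1 - stp (d ^ 2 / 16) (d ^ 2 / 4) (v ^ 2)) * β v = β v
    rw [CSG.stp_zero (by nlinarith) e1, sub_zero, one_mul]

theorem Gen_crs {B : Set (ℂ × ℝ)} {x : ℂ × ℝ} (hx : x ∈ Hp) (h : LKG.Gr B x) : Crs B x := by
  obtain ⟨β, γ, g1, g2, g3, g4⟩ := h
  have hx0 : x.1.re = 0 := hx.1
  rw [hx0] at g1
  obtain ⟨ρ, hρ, hρe⟩ := Gen_ext (g1.mono fun _ h => h.1)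
  obtain ⟨η, hη, hηe⟩ := Gen_ext (g1.mono fun _ h => h.2)
  have hre : Tendsto (fun q : ℂ × ℝ => q.1.re) (𝓝 x) (𝓝 0) := by
    have e1 := (Complex.continuous_re.comp continuous_fst).tendsto x
    have e2 : (Complex.re ∘ Prod.fst) x = 0 := hx0
    rw [e2] at e1
    exact e1
  have h1 : ∀ᶠ q in 𝓝 x, (q ∈ B ↔ q.1.im = ρ q.1.re ∧ q.2 = η q.1.re) := by
    filter_upwards [g4, hre.eventually hρe, hre.eventually hηe] with q q1 q2 q3
    rw [q1, q2, q3]
  obtain ⟨ε, hε, he⟩ := Metric.eventually_nhds_iff.1 h1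
  refine ⟨ρ, η, ε / 2, hρ, hη, by linarith, ?_⟩
  intro q q1 q2 q3
  apply he
  rw [Prod.dist_eq, max_lt_iff]
  constructor
  · rw [Complex.dist_eq]
    have e1 := Complex.norm_le_abs_re_add_abs_im (q.1 - x.1)
    rw [Complex.sub_re, Complex.sub_im, hx0, sub_zero] at e1
    linarith
  · rw [Real.dist_eq]
    linarith

theorem Gen_gr {B : Set (ℂ × ℝ)} {x : ℂ × ℝ} (hx : x ∈ Hp) (hxB : x ∈ B) (h : Crs B x) : LKG.Gr B x := by
  obtain ⟨ρ, η, d, h1, h2, h3, h4⟩ := h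
  have hx0 : x.1.re = 0 := hx.1
  have h5 := (h4 x (by rw [hx0, abs_zero]; exact h3) (by rw [sub_self, abs_zero]; exact h3)
    (by rw [sub_self, abs_zero]; exact h3)).1 hxB
  refine ⟨ρ, η, Eventually.of_forall fun u => ⟨h1.contDiffAt, h2.contDiffAt⟩, h5.1.symm, h5.2.symm, ?_⟩
  have e1 : ∀ᶠ q : ℂ × ℝ in 𝓝 x, |q.1.re| < d := by
    apply (Complex.continuous_re.comp continuous_fst).abs.continuousAt.eventually (gt_mem_nhds _)
    show |x.1.re| < d
    rw [hx0, abs_zero]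
    exact h3
  have e2 : ∀ᶠ q : ℂ × ℝ in 𝓝 x, |q.1.im - x.1.im| < d := by
    apply ((Complex.continuous_im.comp continuous_fst).sub continuous_const).abs.continuousAt.eventually (gt_mem_nhds _)
    show |x.1.im - x.1.im| < d
    rw [sub_self, abs_zero]
    exact h3
  have e3 : ∀ᶠ q : ℂ × ℝ in 𝓝 x, |q.2 - x.2| < d := by
    apply (continuous_snd.sub continuous_const).abs.continuousAt.eventually (gt_mem_nhds _)
    show |x.2 - x.2| < d
    rw [sub_self, abs_zero]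
    exact h3
  filter_upwards [e1, e2, e3] with q q1 q2 q3
  exact h4 q q1 q2 q3

theorem hgt {B : Set (ℂ × ℝ)} (hB : Pre B) : ∃ F : Equiv.Perm (ℂ × ℝ), CD univ F ∧ (∀ q ∈ U, F q = q) ∧
    (∀ q, F q ∈ Hp ↔ q ∈ Hp) ∧ Good (F '' B) := by
  obtain ⟨F, hF, h1, h2, -, h4⟩ := LKG.Hts_main
    (⟨hB.cpt, hB.dis, hB.fin, fun x hx => Gen_gr hx.2 hx.1 (hB.crs x hx)⟩ : LKG.GenG B)
  refine ⟨F, hF.mono (subset_univ _), fun q hq => hF.fix (fun h => h hq), ?_, ?_⟩
  · intro q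
    show (F q).1.re = 0 ∧ (F q).1.im < 0 ↔ q.1.re = 0 ∧ q.1.im < 0
    rw [h1]
  · exact ⟨h2.cpt, h2.off, h2.fin, fun x hx => Gen_crs hx.2 (h2.gr x hx), fun x hx y hy he => h4 x hx y hy he⟩

theorem gen {B : Set (ℂ × ℝ)} (hB : LinkC B) (hU : Disjoint U B) : ∃ F : Equiv.Perm (ℂ × ℝ), CD univ F ∧
    (∀ q ∈ U, F q = q) ∧ Good (F '' B) := by
  obtain ⟨n, c, h1, h2, h3, h4, h5⟩ := hB
  have hL : LKG.Lk n B := ⟨c, h1, h3, h2, fun i s j t he => h4 i j s t he, h5⟩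
  obtain ⟨F, hF, -, g⟩ := LKG.gen hL hU
  refine ⟨F, hF.mono (subset_univ _), fun q hq => hF.fix (fun h => h hq), ?_⟩
  exact ⟨g.cpt, g.off, g.fin, fun x hx => Gen_crs hx.2 (g.sg x hx).gr, fun x hx y hy he => g.hts x hx y hy he⟩

end Pool.Agent.LKH
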