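import Pool.Agent.LKH.Fk

/-!
# LKH/Kd (difficulty 2): the double point of the kink, its crossings with the diagonals

PROOFS (use `Fk`). `kink_dbl`: `Xk t = Xk t'`: if `12 ≤ t²` and `12 ≤ t'²`: `Hk_far` (and `Hk_odd` for negative `t`): `Hk` is injective there
(`-(13/2) - t < 0` for `t > 0`, positive for `t < 0`). Otherwise `t' = ± t`, so `t' = -t`, `t ≠ 0` (wlog `t > 0` by symmetry) and `Hk t = Hk (-t) = -Hk t`
gives `Hk t = 0`: for `t ≤ 1`: `Hk t = (Xk t - 1/2) sg t > 0` (`Xk t = 6 - t² ≥ 5`); for `1 ≤ t`: `t² ≤ 21/2`: `6 - t² = 1/2`; `21/2 < t²`: `Hk t ≤ Xk t - 1/2 < 0`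
since `Xk t < Xk 3 = -3` (`Xk_lt`, or `Xk = -6`).
`kink_imm`: `t = 0`: near `0` `Hk = (6 - t² - 1/2) sg t`, `Hk' 0 = 11/2 * sg' 0 > 0` (`sg 0 = 0`). `0 < t`, `t² < 12`: `Xk' < 0`. `12 ≤ t²`, `0 < t`: `Hk' t < 0`: `Hk = (Xk - 1/2) sg - t stp (21/2) 11 (t²)`;
for `t² > 11` it is `Xk t - 1/2 - t` near `t`, derivative `Xk' - 1 ≤ -1`. Negative `t` by the symmetries (`deriv` of even / odd functions: `Xk (-t) = Xk t` gives
`deriv Xk (-t) = -deriv Xk t`, `deriv Hk (-t) = deriv Hk t`).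
`cross_one`: `Hk t = Xk t`: `t = 0` impossible (`Hk 0 = 0`, `Xk 0 = 6`); `0 < t ≤ 1`: `Hk t ≤ Xk t - 1/2`; `1 ≤ t`: `Hk_le`. So `t < 0`; with `s = -t > 0`: `-Hk s = Xk s`. For `s ≤ 1`: `Hk s > 0`, `Xk s > 0`.
`1 ≤ s`, `s² ≤ 21/2`: `Xk s = 1/4`. `21/2 < s²`: `Hk s ≤ Xk s - 1/2 < 0` and `Xk s < 0`: `-Hk s > 0 > Xk s`.
`cross_two`: apply `cross_one` to `-t`.
`Yk_neg`: `stp_zero`. `Yk_cross`: `1/4`: `be 0 = 1` and `stp 0 1 t = 1` since `t ≥ 1` (`Xk t = 1/4 ≤ 5`: if `t < 1` then `Xk t = 6 - t² > 5`).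
`Yk_dbl`: `t² = 11/2`, `0 < t`: `Xk t = 1/2`, `be (1/16) = 1`.
-/

open scoped ContDiff Topology
open Set Filter
open Complex (I)
open Pool.Agent.CSG
open Pool.Agent.KNT (Dom BalC Tubes Str CD U)
open Pool.Agent.LKF (PEq Mut StP StM BdC BdT)

namespace Pool.Agent.LKH

theorem Kd_three {t : ℝ} (h0 : 0 < t) (h : 21 / 2 < t ^ 2) : Xk t < -3 := by
  have h1 : Xk 3 = -3 := by
    rw [Xk_mid (by norm_num)]
    norm_num
  rw [← h1]
  exact Xk_lt (by nlinarith) (by norm_num)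

theorem Kd_unit {t : ℝ} (h0 : 0 < t) (h1 : t ≤ 1) : 5 ≤ Xk t ∧ 0 < Hk t := by
  have h2 : t ^ 2 ≤ 1 := by nlinarith
  have h3 : Xk t = 6 - t ^ 2 := Xk_mid (by linarith)
  refine ⟨by linarith, ?_⟩
  rw [Hk_small h0 h1]
  exact mul_pos (by linarith) (sg_pos h0).1

theorem Kd_zero {t : ℝ} (h0 : 0 < t) (h : Hk t = 0) : t ^ 2 = 11 / 2 := by
  rcases le_total t 1 with h1 | h1
  · have h2 := (Kd_unit h0 h1).2
    linarith
  · by_cases h2 : t ^ 2 ≤ 21 / 2
    · rw [Hk_mid h1 h2, Xk_mid h2] at h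
      linarith
    · have h3 := Kd_three h0 (not_le.1 h2)
      have h4 := Hk_le h1
      linarith

theorem Kd_H0 : Hk 0 = 0 := by
  have h := Hk_odd 0
  rw [neg_zero] at h
  linarith

theorem kink_dbl {t t' : ℝ} (hX : Xk t = Xk t') (hH : Hk t = Hk t') (hne : t ≠ t') :
    t' = -t ∧ t ^ 2 = 11 / 2 := by
  rcases Xk_inj hX with hsq | ⟨h1, h2⟩
  · have ht : t' = -t := by
      rcases sq_eq_sq_iff_eq_or_eq_neg.1 hsq with h | h
      · exact absurd h hne
      · rw [h, neg_neg]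
    refine ⟨ht, ?_⟩
    rw [ht, Hk_odd] at hH
    have h0 : Hk t = 0 := by linarith
    rcases lt_trichotomy t 0 with h | h | h
    · have h3 := Kd_zero (t := -t) (by linarith) (by rw [Hk_odd, h0, neg_zero])
      rw [neg_sq] at h3
      exact h3
    · rw [h, neg_zero] at ht
      exact absurd (h.trans ht.symm) hne
    · exact Kd_zero h h0
  · exfalso
    have hval : ∀ x : ℝ, 12 ≤ x ^ 2 → (0 < x ∧ Hk x = -(13 / 2) - x) ∨ (x < 0 ∧ Hk x = 13 / 2 - x) := by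
      intro x hx
      rcases lt_trichotomy x 0 with h | h | h
      · right
        refine ⟨h, ?_⟩
        have h3 := Hk_far (t := -x) (by linarith) (by rw [neg_sq]; exact hx)
        rw [Hk_odd] at h3
        linarith
      · rw [h] at hx
        norm_num at hx
      · exact Or.inl ⟨h, Hk_far h hx⟩
    rcases hval t h1 with ⟨h3, h4⟩ | ⟨h3, h4⟩
    · rcases hval t' h2 with ⟨h5, h6⟩ | ⟨h5, h6⟩
      · exact hne (by linarith)
      · linarith
    · rcases hval t' h2 with ⟨h5, h6⟩ | ⟨h5, h6⟩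
      · linarith
      · exact hne (by linarith)

theorem Kd_imm_pos {t : ℝ} (h0 : 0 < t) : deriv Xk t ≠ 0 ∨ deriv Hk t ≠ 0 := by
  by_cases h : t ^ 2 < 12
  · exact Or.inl (Xk_deriv_neg h0 h).ne
  · right
    have h1 : (12 : ℝ) ≤ t ^ 2 := not_lt.1 h
    have h2 : Hk =ᶠ[𝓝 t] fun x => Xk x - 1 / 2 - x := by
      have h3 : ∀ᶠ x : ℝ in 𝓝 t, 1 < x := lt_mem_nhds (by nlinarith)
      have h4 : ∀ᶠ x : ℝ in 𝓝 t, 11 < x ^ 2 :=
        (continuous_pow 2).continuousAt.eventually (lt_mem_nhds (show (11 : ℝ) < t ^ 2 by linarith))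
      filter_upwards [h3, h4] with x h5 h6
      unfold Hk
      rw [sg_one h5.le, stp_one (by norm_num) h6.le]
      ring
    have h3 : HasDerivAt Xk (deriv Xk t) t :=
      (Xk_smooth.contDiffAt.differentiableAt (by simp)).hasDerivAt
    have h4 : HasDerivAt (fun x => Xk x - 1 / 2 - x) (deriv Xk t - 1) t :=
      (h3.sub_const (1 / 2)).sub (hasDerivAt_id t)
    rw [h2.deriv_eq, h4.deriv]
    have h5 := Xk_deriv_nonpos h0
    exact (by linarith : deriv Xk t - 1 < 0).ne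

theorem kink_imm (t : ℝ) : deriv Xk t ≠ 0 ∨ deriv Hk t ≠ 0 := by
  rcases lt_trichotomy t 0 with h | h | h
  · have e1 : deriv Xk t = -deriv Xk (-t) := by
      have e : Xk = fun x => Xk (-x) := funext fun x => (Xk_even x).symm
      conv_lhs => rw [e]
      exact deriv_comp_neg Xk t
    have e2 : deriv Hk t = deriv Hk (-t) := by
      have e : Hk = fun x => -Hk (-x) := funext fun x => by rw [Hk_odd, neg_neg]
      conv_lhs => rw [e]
      have e3 : deriv (fun x => -Hk (-x)) t = -deriv (fun x => Hk (-x)) t := deriv.fun_neg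
      rw [e3, deriv_comp_neg Hk t, neg_neg]
    rcases Kd_imm_pos (t := -t) (by linarith) with h1 | h1
    · left
      rw [e1]
      exact neg_ne_zero.2 h1
    · right
      rw [e2]
      exact h1
  · right
    subst h
    have hX : HasDerivAt Xk (deriv Xk 0) 0 := (Xk_smooth.contDiffAt.differentiableAt (by simp)).hasDerivAt
    have hs : HasDerivAt sg (deriv sg 0) 0 := (sg_smooth.contDiffAt.differentiableAt (by simp)).hasDerivAt
    have hfs : ContDiff ℝ ∞ fun x : ℝ => stp (21 / 2) 11 (x ^ 2) := (stp_smooth _ _).comp (contDiff_id.pow 2)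
    have hf : HasDerivAt (fun x : ℝ => stp (21 / 2) 11 (x ^ 2)) (deriv (fun x : ℝ => stp (21 / 2) 11 (x ^ 2)) 0) 0 :=
      (hfs.contDiffAt.differentiableAt (by simp)).hasDerivAt
    have h1 : HasDerivAt Hk ((deriv Xk 0) * sg 0 + (Xk 0 - 1 / 2) * deriv sg 0 -
        (1 * stp (21 / 2) 11 ((0 : ℝ) ^ 2) + 0 * deriv (fun x : ℝ => stp (21 / 2) 11 (x ^ 2)) 0)) 0 :=
      ((hX.sub_const (1 / 2)).mul hs).sub ((hasDerivAt_id (0 : ℝ)).mul hf)
    have hs0 : sg 0 = 0 := by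
      have h := sg_odd 0
      rw [neg_zero] at h
      linarith
    have hX0 : Xk 0 = 6 := by
      rw [Xk_mid (by norm_num)]
      norm_num
    rw [hs0, hX0, stp_zero (by norm_num) (by norm_num)] at h1
    rw [h1.deriv]
    have h2 := sg_deriv_zero
    have h3 : (0 : ℝ) < deriv Xk 0 * 0 + (6 - 1 / 2) * deriv sg 0 -
        (1 * 0 + 0 * deriv (fun x : ℝ => stp (21 / 2) 11 (x ^ 2)) 0) := by
      rw [mul_zero, mul_zero, zero_mul]
      linarith
    exact h3.ne'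
  · exact Kd_imm_pos h

theorem cross_one {t : ℝ} (h : Hk t = Xk t) : t < 0 ∧ Xk t = 1 / 4 := by
  rcases lt_trichotomy t 0 with h0 | h0 | h0
  · refine ⟨h0, ?_⟩
    obtain ⟨s, rfl⟩ : ∃ s, t = -s := ⟨-t, by ring⟩
    have hs : 0 < s := by linarith
    rw [Hk_odd, Xk_even] at h
    rw [Xk_even]
    rcases le_total s 1 with h1 | h1
    · obtain ⟨h2, h3⟩ := Kd_unit hs h1
      linarith
    · by_cases h2 : s ^ 2 ≤ 21 / 2
      · rw [Hk_mid h1 h2] at h
        linarith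
      · have h3 := Kd_three hs (not_le.1 h2)
        have h4 := Hk_le h1
        linarith
  · exfalso
    rw [h0, Kd_H0, Xk_mid (by norm_num)] at h
    norm_num at h
  · exfalso
    rcases le_total t 1 with h1 | h1
    · have h2 := (Kd_unit h0 h1).1
      have h3 := sg_pos h0
      rw [Hk_small h0 h1] at h
      nlinarith
    · have h4 := Hk_le h1
      linarith

theorem cross_two {t : ℝ} (h : Hk t = -Xk t) : 0 < t ∧ Xk t = 1 / 4 := by
  have h1 := cross_one (t := -t) (by rw [Hk_odd, Xk_even, h, neg_neg])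
  rw [Xk_even] at h1
  exact ⟨by linarith [h1.1], h1.2⟩

theorem Yk_neg {t : ℝ} (h : t ≤ 0) : Yk t = 0 := by
  unfold Yk
  rw [stp_zero (by norm_num) h]
  ring

theorem Yk_mem (t : ℝ) : -2 ≤ Yk t ∧ Yk t ≤ 0 := by
  have h1 := stp_nonneg 0 1 t
  have h2 := stp_le_one 0 1 t
  obtain ⟨h3, h4⟩ := be_mem ((Xk t - 1 / 4) / 4)
  have h5 : 0 ≤ stp 0 1 t * be ((Xk t - 1 / 4) / 4) := mul_nonneg h1 h3
  have h6 : stp 0 1 t * be ((Xk t - 1 / 4) / 4) ≤ 1 := mul_le_one₀ h2 h3 h4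
  unfold Yk
  constructor <;> nlinarith

theorem Yk_cross {t : ℝ} (h0 : 0 < t) (h : Xk t = 1 / 4) : Yk t = -2 := by
  have h1 : 1 ≤ t := by
    by_contra hlt
    have h2 := (Kd_unit h0 (not_le.1 hlt).le).1
    linarith
  unfold Yk
  rw [stp_one (by norm_num) h1, h, be_one (by norm_num)]
  ring

theorem Yk_dbl {t : ℝ} (h0 : 0 < t) (h : t ^ 2 = 11 / 2) : Yk t = -2 := by
  have h1 : 1 ≤ t := by nlinarith
  have h2 : Xk t = 1 / 2 := by
    rw [Xk_mid (by linarith), h]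
    norm_num
  unfold Yk
  rw [stp_one (by norm_num) h1, h2, be_one (by norm_num [abs_le])]
  ring

/-- `Yk t = 0` unless `Xk t` is close to `0` -/
theorem Yk_far {t : ℝ} (h : 5 ≤ |t|) : Yk t = 0 := by
  have h1 : (12 : ℝ) ≤ t ^ 2 := by
    rw [← sq_abs]
    nlinarith
  have h2 : be ((-6 - 1 / 4) / 4) = 0 := be_zero (by norm_num [le_abs])
  unfold Yk
  rw [Xk_far h1, h2, mul_zero]

end Pool.Agent.LKH
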