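import Pool.Agent.LKH.Fl

/-!
# LKH/LcA (difficulty 2): from the two lines to the layered triangle

`O13` is the open box of the local move. PROOF of `lcA`. `arcB` with `A = U` (closed), `Z = W ∪ L2 '' J13` (closed), `a = -7`, `a' = -13/2`, `b' = 37/2`, `b = 19`, `k s x = pt x ((1 - s) * (-2) + s * Y1 x) ((1 - s) * (-6) + s * H1 x)`. Fixed for `12 ≤ |x - 6|` (`Y1_ends`, `H1_ends`).
`∉ U`: `x = 0` gives depth `-2` (`Y1_at_zero`). `∉ L2 '' J13`: depth `≤ 0 < 2`. `∉ W`: in `O13`. Derivative and injectivity: first coordinate.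
PROOF of `lcB`: `Z = W ∪ M1 '' J13`, `k s x = pt x ((1 - s) * 2 - s * Y1 x) ((1 - s) * 6 - s * H1 x)`. `∉ U`: `x = 0`: depth `2`. `∉ M1 '' J13`: same `x`; `(1 - s) 2 - s Y1 x = Y1 x`, so `(1 - s) 2 = (1 + s) Y1 x ≤ 0`: `s = 1`, `Y1 x = 0`, then `-H1 x = H1 x` contradicts `Y1_zero`.
-/

open scoped ContDiff Topology
open Set Filter
open Complex (I)
open Pool.Agent.CSG
open Pool.Agent.KNT (Dom BalC Tubes Str CD U)
open Pool.Agent.LKF (PEq Mut StP StM BdC BdT)

namespace Pool.Agent.LKH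

/-- the open box of the local move -/
def O13 : Set (ℂ × ℝ) := {q | -7 < q.1.re ∧ q.1.re < 19 ∧ |q.1.im| < 3 ∧ |q.2| < 27 / 2}

noncomputable def L1 (x : ℝ) : ℂ × ℝ := pt x (-2) (-6)
noncomputable def L2 (x : ℝ) : ℂ × ℝ := pt x 2 6

theorem LcA_pt_smooth {E : Type*} [NormedAddCommGroup E] [NormedSpace ℝ E] {f g h : E → ℝ} (hf : ContDiff ℝ ∞ f)
    (hg : ContDiff ℝ ∞ g) (hh : ContDiff ℝ ∞ h) : ContDiff ℝ ∞ (fun x => pt (f x) (g x) (h x)) := by
  have e : (fun x => pt (f x) (g x) (h x)) = fun x => (((f x : ℝ) : ℂ) + ((g x : ℝ) : ℂ) * I, h x) := by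
    funext x
    unfold pt
    rw [Complex.mk_eq_add_mul_I]
  rw [e]
  exact ((Complex.ofRealCLM.contDiff.comp hf).add ((Complex.ofRealCLM.contDiff.comp hg).mul contDiff_const)).prodMk hh

theorem LcA_imm {f : ℝ → ℂ × ℝ} (hf : Differentiable ℝ f) (h : ∀ t, (f t).1.re = t) (t : ℝ) : deriv f t ≠ 0 := by
  intro h0
  have h1 : HasDerivAt f (deriv f t) t := (hf t).hasDerivAt
  have h2 := ((Complex.reCLM.comp (ContinuousLinearMap.fst ℝ ℂ ℝ)).hasFDerivAt (x := f t)).comp_hasDerivAt t h1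
  have h3 : (⇑(Complex.reCLM.comp (ContinuousLinearMap.fst ℝ ℂ ℝ)) ∘ f) = fun x => x := by
    funext x
    exact h x
  rw [h3] at h2
  have h4 := h2.unique (hasDerivAt_id t)
  rw [h0, map_zero] at h4
  exact zero_ne_one h4

theorem LcA_U : IsClosed U := isClosed_eq continuous_fst continuous_const

theorem LcA_img {f : ℝ → ℂ × ℝ} (hf : Continuous f) : IsClosed (f '' J13) :=
  (isCompact_Icc.image hf).isClosed

theorem LcA_mul_bd {s y m : ℝ} (hs : s ∈ Icc (0 : ℝ) 1) {c : ℝ} (hc : |c| ≤ m) (hy : |y| ≤ m) :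
    |(1 - s) * c + s * y| ≤ m := by
  rw [abs_le] at hc hy ⊢
  obtain ⟨h0, h1⟩ := hs
  constructor <;> nlinarith

theorem LcA_ends {t : ℝ} (ht : t ≤ -13 / 2 ∨ 37 / 2 ≤ t) : Y1 t = -2 ∧ H1 t = -6 := by
  have h : 12 ≤ |t - 6| := by
    rcases ht with h | h
    · have : t - 6 ≤ -12 := by linarith
      exact (by linarith : (12 : ℝ) ≤ -(t - 6)).trans (neg_le_abs _)
    · exact (by linarith : (12 : ℝ) ≤ t - 6).trans (le_abs_self _)
  exact ⟨(Y1_ends (by linarith)).1, H1_ends h⟩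

theorem LcA_Y (t : ℝ) : |Y1 t| ≤ 2 := by
  have := Y1_mem t
  rw [abs_le]
  constructor <;> linarith

theorem lcA {W : Set (ℂ × ℝ)} (hW : IsClosed W) (hd : Disjoint W O13) :
    PEq U (W ∪ L1 '' J13 ∪ L2 '' J13) U (W ∪ M1 '' J13 ∪ L2 '' J13) := by
  have hk : ContDiff ℝ ∞ fun p : ℝ × ℝ =>
      (fun s x : ℝ => pt x ((1 - s) * (-2) + s * Y1 x) ((1 - s) * (-6) + s * H1 x)) p.1 p.2 := by
    refine LcA_pt_smooth contDiff_snd ?_ ?_
    · exact ((contDiff_const.sub contDiff_fst).mul contDiff_const).add (contDiff_fst.mul (Y1_smooth.comp contDiff_snd))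
    · exact ((contDiff_const.sub contDiff_fst).mul contDiff_const).add (contDiff_fst.mul (H1_smooth.comp contDiff_snd))
  have hL2 : Continuous L2 := (LcA_pt_smooth (f := fun x : ℝ => x) (g := fun _ => 2) (h := fun _ => 6)
    contDiff_id contDiff_const contDiff_const).continuous
  have h := arcB (A := U) (Z := W ∪ L2 '' J13) (k := fun s x : ℝ => pt x ((1 - s) * (-2) + s * Y1 x) ((1 - s) * (-6) + s * H1 x)) (a := -7) (a' := -13 / 2) (b' := 37 / 2) (b := 19)
    LcA_U (hW.union (LcA_img hL2)) (by norm_num) (by norm_num) hk ?_ ?_ ?_ ?_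
  · have e0 : (fun x : ℝ => pt x ((1 - 0) * (-2) + 0 * Y1 x) ((1 - 0) * (-6) + 0 * H1 x)) = L1 := by
      funext x
      simp [L1]
    have e1 : (fun x : ℝ => pt x ((1 - 1) * (-2) + 1 * Y1 x) ((1 - 1) * (-6) + 1 * H1 x)) = M1 := by
      funext x
      simp [M1]
    rw [e0, e1] at h
    rw [union_right_comm W (L1 '' J13), union_right_comm W (M1 '' J13)]
    exact h
  · intro s hs t ht htt
    obtain ⟨h1, h2⟩ := LcA_ends htt
    simp only [h1, h2]
    congr 1 <;> ring
  · intro s hs t ht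
    have ht' : t ∈ J13 := ⟨by linarith [ht.1], by linarith [ht.2]⟩
    have hY := LcA_mul_bd (c := -2) (m := 2) hs (by norm_num) (LcA_Y t)
    have hH := LcA_mul_bd (c := -6) (m := 13) hs (by norm_num) (H1_abs ht')
    refine ⟨?_, ?_⟩
    · intro hU
      have h1 : (⟨t, (1 - s) * (-2) + s * Y1 t⟩ : ℂ) = 0 := hU
      have h2 : t = 0 := congrArg Complex.re h1
      have h3 : (1 - s) * (-2) + s * Y1 t = 0 := congrArg Complex.im h1
      rw [h2, Y1_at_zero.1] at h3
      linarith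
    · rintro (h1 | ⟨x, -, h1⟩)
      · refine (Set.disjoint_left.1 hd h1) ⟨?_, ?_, ?_, ?_⟩
        · show -7 < t
          linarith [ht.1]
        · show t < 19
          linarith [ht.2]
        · show |(1 - s) * (-2) + s * Y1 t| < 3
          linarith
        · show |(1 - s) * (-6) + s * H1 t| < 27 / 2
          linarith
      · have h2 : (2 : ℝ) = (1 - s) * (-2) + s * Y1 t := congrArg (fun q : ℂ × ℝ => q.1.im) h1
        have h3 := (Y1_mem t).2
        nlinarith [hs.1, hs.2]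
  · intro s hs t ht
    refine LcA_imm ?_ (fun t => rfl) t
    have : ContDiff ℝ ∞ (fun t : ℝ => ((s, t) : ℝ × ℝ)) := contDiff_const.prodMk contDiff_id
    exact (hk.comp this).differentiable (by simp)
  · intro s hs x _ y _ he
    exact congrArg (fun q : ℂ × ℝ => q.1.re) he

theorem lcB {W : Set (ℂ × ℝ)} (hW : IsClosed W) (hd : Disjoint W O13) :
    PEq U (W ∪ M1 '' J13 ∪ L2 '' J13) U (W ∪ M1 '' J13 ∪ M2 '' J13) := by
  have hk : ContDiff ℝ ∞ fun p : ℝ × ℝ =>
      (fun s x : ℝ => pt x ((1 - s) * 2 - s * Y1 x) ((1 - s) * 6 - s * H1 x)) p.1 p.2 := by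
    refine LcA_pt_smooth contDiff_snd ?_ ?_
    · exact ((contDiff_const.sub contDiff_fst).mul contDiff_const).sub (contDiff_fst.mul (Y1_smooth.comp contDiff_snd))
    · exact ((contDiff_const.sub contDiff_fst).mul contDiff_const).sub (contDiff_fst.mul (H1_smooth.comp contDiff_snd))
  have hM1 : Continuous M1 := (LcA_pt_smooth (f := fun x : ℝ => x) contDiff_id Y1_smooth H1_smooth).continuous
  have h := arcB (A := U) (Z := W ∪ M1 '' J13) (k := fun s x : ℝ => pt x ((1 - s) * 2 - s * Y1 x) ((1 - s) * 6 - s * H1 x)) (a := -7) (a' := -13 / 2) (b' := 37 / 2) (b := 19)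
    LcA_U (hW.union (LcA_img hM1)) (by norm_num) (by norm_num) hk ?_ ?_ ?_ ?_
  · have e0 : (fun x : ℝ => pt x ((1 - 0) * 2 - 0 * Y1 x) ((1 - 0) * 6 - 0 * H1 x)) = L2 := by
      funext x
      simp [L2]
    have e1 : (fun x : ℝ => pt x ((1 - 1) * 2 - 1 * Y1 x) ((1 - 1) * 6 - 1 * H1 x)) = M2 := by
      funext x
      simp [M2]
    rw [e0, e1] at h
    exact h
  · intro s hs t ht htt
    obtain ⟨h1, h2⟩ := LcA_ends htt
    simp only [h1, h2]
    congr 1 <;> ring
  · intro s hs t ht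
    have ht' : t ∈ J13 := ⟨by linarith [ht.1], by linarith [ht.2]⟩
    have hY := LcA_mul_bd (c := 2) (m := 2) (y := -Y1 t) hs (by norm_num) (by rw [abs_neg]; exact LcA_Y t)
    have hH := LcA_mul_bd (c := 6) (m := 13) (y := -H1 t) hs (by norm_num) (by rw [abs_neg]; exact H1_abs ht')
    have eY : (1 - s) * 2 + s * -Y1 t = (1 - s) * 2 - s * Y1 t := by ring
    have eH : (1 - s) * 6 + s * -H1 t = (1 - s) * 6 - s * H1 t := by ring
    rw [eY] at hY
    rw [eH] at hH
    refine ⟨?_, ?_⟩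
    · intro hU
      have h1 : (⟨t, (1 - s) * 2 - s * Y1 t⟩ : ℂ) = 0 := hU
      have h2 : t = 0 := congrArg Complex.re h1
      have h3 : (1 - s) * 2 - s * Y1 t = 0 := congrArg Complex.im h1
      rw [h2, Y1_at_zero.1] at h3
      linarith
    · rintro (h1 | ⟨x, -, h1⟩)
      · refine (Set.disjoint_left.1 hd h1) ⟨?_, ?_, ?_, ?_⟩
        · show -7 < t
          linarith [ht.1]
        · show t < 19
          linarith [ht.2]
        · show |(1 - s) * 2 - s * Y1 t| < 3
          linarith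
        · show |(1 - s) * 6 - s * H1 t| < 27 / 2
          linarith
      · have h0 : x = t := congrArg (fun q : ℂ × ℝ => q.1.re) h1
        subst h0
        have h2 : Y1 x = (1 - s) * 2 - s * Y1 x := congrArg (fun q : ℂ × ℝ => q.1.im) h1
        have h4 : H1 x = (1 - s) * 6 - s * H1 x := congrArg (fun q : ℂ × ℝ => q.2) h1
        have h3 := (Y1_mem x).2
        have h5 : s = 1 := by nlinarith [hs.1, hs.2]
        rw [h5] at h2 h4
        have h6 : Y1 x = 0 := by linarith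
        exact Y1_zero h6 (by linarith)
  · intro s hs t ht
    refine LcA_imm ?_ (fun t => rfl) t
    have : ContDiff ℝ ∞ (fun t : ℝ => ((s, t) : ℝ × ℝ)) := contDiff_const.prodMk contDiff_id
    exact (hk.comp this).differentiable (by simp)
  · intro s hs x _ y _ he
    exact congrArg (fun q : ℂ × ℝ => q.1.re) he

end Pool.Agent.LKH
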