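import Pool.Agent.LKH.Fk

/-!
# LKH/MuA (difficulty 2): the charts of the mutual move

PROOFS. `bR l` and `cR` are affine up to the term `2 (1 - 2 l) be q.2` of `im w`, and injective everywhere: from `re w = 4 s + 1/8 + x/8` and
`h = 4 s - 1/8 - x/8` (`z = x + i y`) we get `s` and `x`, then `y`. Immersion: the same computation for the derivative (or: `bR l = L ∘ S`, `L` linear bijective +
constant; or show that `bR l` has a smooth left inverse `(w, h) ↦ (4 (re w - h) - 1 + 8 i (im w + 2 (1 - 2 l) be s), s)`, `s = (re w + h) / 8`, and apply the chain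
rule). `ends`: `be = 0`. `sep`: `re w + h = 8 s`. `BdT`: `‖q.1‖ < 4`, `|q.2| < 1`, `0 ≤ be ≤ 1`: bound `10`.
`mut_ends`: `cR q'`: `re w + h = 1/4 - x'/4`, so `|re w + h| < 5/4`, and `re w - h = 8 s'`; `bR l q`: `re w - h = 1/4 + x/4`, in `(-3/4, 5/4)`; with `1/2 ≤ |s'|`: `|8 s'| ≥ 4`.
`ds0`: in the intersection `bR 0 q = cR q'`: `8 s = 1/4 - x'/4`, so `|s| < 1/4`, `be s = 1`, `im w = y/8 - 2 < -3/2`, but `im w = y'/8 > -1/2`.
`ds1`: the same with `+2`.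
-/

open scoped ContDiff Topology
open Set Filter
open Complex (I)
open Pool.Agent.CSG
open Pool.Agent.KNT (Dom BalC Tubes Str CD U)
open Pool.Agent.LKF (PEq Mut StP StM BdC BdT)

namespace Pool.Agent.LKH

theorem MuA_pt {E : Type*} [NormedAddCommGroup E] [NormedSpace ℝ E] {x y h : E → ℝ} (hx : ContDiff ℝ ∞ x)
    (hy : ContDiff ℝ ∞ y) (hh : ContDiff ℝ ∞ h) : ContDiff ℝ ∞ fun e => pt (x e) (y e) (h e) := by
  unfold pt
  refine ContDiff.prodMk ?_ hh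
  have h1 : (fun e => (⟨x e, y e⟩ : ℂ)) = fun e => ((x e : ℝ) : ℂ) + ((y e : ℝ) : ℂ) * I := by
    funext e
    apply Complex.ext <;> simp
  rw [h1]
  exact (Complex.ofRealCLM.contDiff.comp hx).add ((Complex.ofRealCLM.contDiff.comp hy).mul contDiff_const)

theorem MuA_re : ContDiff ℝ ∞ fun q : ℂ × ℝ => q.1.re := Complex.reCLM.contDiff.comp contDiff_fst

theorem MuA_im : ContDiff ℝ ∞ fun q : ℂ × ℝ => q.1.im := Complex.imCLM.contDiff.comp contDiff_fst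

theorem MuA_sn : ContDiff ℝ ∞ fun q : ℂ × ℝ => q.2 := contDiff_snd

/-- left inverses and immersions -/
theorem MuA_imm {f g : ℂ × ℝ → ℂ × ℝ} (hf : ContDiff ℝ ∞ f) (hg : ContDiff ℝ ∞ g) (h : ∀ x, g (f x) = x)
    (x : ℂ × ℝ) : Function.Injective (fderiv ℝ f x) := by
  have h1 : HasFDerivAt f (fderiv ℝ f x) x := ((hf.differentiable (by simp)) x).hasFDerivAt
  have h2 : HasFDerivAt g (fderiv ℝ g (f x)) (f x) := ((hg.differentiable (by simp)) (f x)).hasFDerivAt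
  have h3 := h2.comp x h1
  have h4 : (g ∘ f) = id := funext h
  rw [h4] at h3
  have h5 := h3.unique (hasFDerivAt_id x)
  intro v w hvw
  have h6 : (fderiv ℝ g (f x)).comp (fderiv ℝ f x) v = (fderiv ℝ g (f x)).comp (fderiv ℝ f x) w := by
    show fderiv ℝ g (f x) (fderiv ℝ f x v) = fderiv ℝ g (f x) (fderiv ℝ f x w)
    rw [hvw]
  rw [h5] at h6
  exact h6

/-- the inverse of `bR l` -/
noncomputable def MuA_b (l : ℝ) (p : ℂ × ℝ) : ℂ × ℝ :=
  pt (4 * (p.1.re - p.2) - 1) (8 * (p.1.im + 2 * (1 - 2 * l) * be ((p.1.re + p.2) / 8))) ((p.1.re + p.2) / 8)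

/-- the inverse of `cR` -/
noncomputable def MuA_c (p : ℂ × ℝ) : ℂ × ℝ :=
  pt (1 - 4 * (p.1.re + p.2)) (8 * p.1.im) ((p.1.re - p.2) / 8)

theorem MuA_ext {p q : ℂ × ℝ} (h1 : p.1.re = q.1.re) (h2 : p.1.im = q.1.im) (h3 : p.2 = q.2) : p = q :=
  Prod.ext (Complex.ext h1 h2) h3

theorem MuA_b_left (l : ℝ) (q : ℂ × ℝ) : MuA_b l (bR l q) = q := by
  have e : (4 * q.2 + 1 / 8 + q.1.re / 8 + (4 * q.2 - 1 / 8 - q.1.re / 8)) / 8 = q.2 := by ring
  refine MuA_ext ?_ ?_ ?_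
  · show 4 * ((4 * q.2 + 1 / 8 + q.1.re / 8) - (4 * q.2 - 1 / 8 - q.1.re / 8)) - 1 = q.1.re
    ring
  · show 8 * ((q.1.im / 8 - 2 * (1 - 2 * l) * be q.2) + 2 * (1 - 2 * l) *
      be ((4 * q.2 + 1 / 8 + q.1.re / 8 + (4 * q.2 - 1 / 8 - q.1.re / 8)) / 8)) = q.1.im
    rw [e]
    ring
  · exact e

theorem MuA_c_left (q : ℂ × ℝ) : MuA_c (cR q) = q := by
  refine MuA_ext ?_ ?_ ?_
  · show 1 - 4 * ((4 * q.2 + 1 / 8 - q.1.re / 8) + (1 / 8 - q.1.re / 8 - 4 * q.2)) = q.1.re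
    ring
  · show 8 * (q.1.im / 8) = q.1.im
    ring
  · show ((4 * q.2 + 1 / 8 - q.1.re / 8) - (1 / 8 - q.1.re / 8 - 4 * q.2)) / 8 = q.2
    ring

theorem MuA_bR_smooth : ContDiff ℝ ∞ fun p : ℝ × (ℂ × ℝ) => bR p.1 p.2 := by
  have h1 : ContDiff ℝ ∞ fun p : ℝ × (ℂ × ℝ) => p.2.2 := contDiff_snd.comp contDiff_snd
  have h2 : ContDiff ℝ ∞ fun p : ℝ × (ℂ × ℝ) => p.2.1.re := MuA_re.comp contDiff_snd
  have h3 : ContDiff ℝ ∞ fun p : ℝ × (ℂ × ℝ) => p.2.1.im := MuA_im.comp contDiff_snd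
  refine MuA_pt ?_ ?_ ?_
  · exact ((contDiff_const.mul h1).add contDiff_const).add (h2.div_const _)
  · exact (h3.div_const _).sub ((contDiff_const.mul (contDiff_const.sub (contDiff_const.mul contDiff_fst))).mul
      (be_smooth.comp h1))
  · exact ((contDiff_const.mul h1).sub contDiff_const).sub (h2.div_const _)

theorem MuA_bRl_smooth (l : ℝ) : ContDiff ℝ ∞ (bR l) := by
  have h1 : ContDiff ℝ ∞ fun q : ℂ × ℝ => ((l, q) : ℝ × (ℂ × ℝ)) := contDiff_const.prodMk contDiff_id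
  exact MuA_bR_smooth.comp h1

theorem MuA_cR_smooth : ContDiff ℝ ∞ cR := by
  refine MuA_pt ?_ ?_ ?_
  · exact ((contDiff_const.mul MuA_sn).add contDiff_const).sub (MuA_re.div_const _)
  · exact MuA_im.div_const _
  · exact (contDiff_const.sub (MuA_re.div_const _)).sub (contDiff_const.mul MuA_sn)

theorem MuA_b_smooth (l : ℝ) : ContDiff ℝ ∞ (MuA_b l) := by
  have h1 : ContDiff ℝ ∞ fun p : ℂ × ℝ => (p.1.re + p.2) / 8 := (MuA_re.add MuA_sn).div_const _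
  refine MuA_pt ?_ ?_ h1
  · exact (contDiff_const.mul (MuA_re.sub MuA_sn)).sub contDiff_const
  · exact contDiff_const.mul (MuA_im.add (contDiff_const.mul (be_smooth.comp h1)))

theorem MuA_c_smooth : ContDiff ℝ ∞ MuA_c := by
  refine MuA_pt ?_ ?_ ?_
  · exact contDiff_const.sub (contDiff_const.mul (MuA_re.add MuA_sn))
  · exact contDiff_const.mul MuA_im
  · exact (MuA_re.sub MuA_sn).div_const _

theorem MuA_sum (l : ℝ) (q : ℂ × ℝ) : (bR l q).1.re + (bR l q).2 = 8 * q.2 := by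
  show (4 * q.2 + 1 / 8 + q.1.re / 8) + (4 * q.2 - 1 / 8 - q.1.re / 8) = 8 * q.2
  ring

theorem MuA_dif (l : ℝ) (q : ℂ × ℝ) : (bR l q).1.re - (bR l q).2 = 1 / 4 + q.1.re / 4 := by
  show (4 * q.2 + 1 / 8 + q.1.re / 8) - (4 * q.2 - 1 / 8 - q.1.re / 8) = 1 / 4 + q.1.re / 4
  ring

theorem MuA_csum (q : ℂ × ℝ) : (cR q).1.re + (cR q).2 = 1 / 4 - q.1.re / 4 := by
  show (4 * q.2 + 1 / 8 - q.1.re / 8) + (1 / 8 - q.1.re / 8 - 4 * q.2) = 1 / 4 - q.1.re / 4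
  ring

theorem MuA_cdif (q : ℂ × ℝ) : (cR q).1.re - (cR q).2 = 8 * q.2 := by
  show (4 * q.2 + 1 / 8 - q.1.re / 8) - (1 / 8 - q.1.re / 8 - 4 * q.2) = 8 * q.2
  ring

theorem MuA_dom {q : ℂ × ℝ} (hq : q ∈ Dom) : |q.1.re| < 4 ∧ |q.1.im| < 4 ∧ |q.2| < 1 :=
  ⟨lt_of_le_of_lt (Complex.abs_re_le_norm _) hq.1, lt_of_le_of_lt (Complex.abs_im_le_norm _) hq.1, hq.2⟩

theorem tubes_bR : Tubes bR := by
  refine ⟨fun l _ q _ => MuA_bR_smooth.contDiffAt, fun l _ q _ =>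
    MuA_imm (MuA_bRl_smooth l) (MuA_b_smooth l) (MuA_b_left l) q, ?_, ?_, ?_, ?_⟩
  · intro l _ q _ h
    have h1 := be_zero h
    unfold bR
    rw [h1, mul_zero, mul_zero]
  · intro q _ q' _ h
    have := congrArg (MuA_b 0) h
    rwa [MuA_b_left, MuA_b_left] at this
  · intro q _ q' _ h
    have := congrArg (MuA_b 1) h
    rwa [MuA_b_left, MuA_b_left] at this
  · intro l _ q _ h q' _ h' he
    have h1 := MuA_sum l q
    have h2 := MuA_sum 0 q'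
    rw [he, h2] at h1
    have h3 : q.2 = q'.2 := by linarith
    rw [h3] at h
    linarith

theorem balC_cR : BalC cR := by
  refine ⟨fun q _ => MuA_cR_smooth.contDiffAt, fun q _ => MuA_imm MuA_cR_smooth MuA_c_smooth MuA_c_left q, ?_⟩
  intro q _ q' _ h
  have := congrArg MuA_c h
  rwa [MuA_c_left, MuA_c_left] at this

theorem MuA_norm {x y h R : ℝ} (h1 : |x| + |y| ≤ R) (h2 : |h| ≤ R) : ‖pt x y h‖ ≤ R := by
  unfold pt
  rw [Prod.norm_def]
  refine max_le ?_ h2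
  exact le_trans (Complex.norm_le_abs_re_add_abs_im _) h1

theorem bdT_bR : BdT bR := by
  refine ⟨10, ?_⟩
  intro l hl q hq
  obtain ⟨h1, h2, h3⟩ := MuA_dom hq
  have h4 := be_mem q.2
  rw [abs_lt] at h1 h2 h3
  have h5 : |2 * (1 - 2 * l) * be q.2| ≤ 2 := by
    rw [abs_mul]
    have h6 : |2 * (1 - 2 * l)| ≤ 2 := by
      rw [abs_le]
      constructor <;> linarith [hl.1, hl.2]
    have h7 : |be q.2| ≤ 1 := by
      rw [abs_le]
      constructor <;> linarith [h4.1, h4.2]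
    calc |2 * (1 - 2 * l)| * |be q.2| ≤ 2 * 1 := mul_le_mul h6 h7 (abs_nonneg _) (by norm_num)
      _ = 2 := by norm_num
  rw [abs_le] at h5
  apply MuA_norm
  · have e1 : |4 * q.2 + 1 / 8 + q.1.re / 8| ≤ 5 := by
      rw [abs_le]
      constructor <;> linarith [h1.1, h1.2, h3.1, h3.2]
    have e2 : |q.1.im / 8 - 2 * (1 - 2 * l) * be q.2| ≤ 5 := by
      rw [abs_le]
      constructor <;> linarith [h2.1, h2.2, h5.1, h5.2]
    linarith
  · rw [abs_le]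
    constructor <;> linarith [h1.1, h1.2, h3.1, h3.2]

theorem bdC_cR : BdC cR := by
  refine ⟨10, ?_⟩
  intro q hq
  obtain ⟨h1, h2, h3⟩ := MuA_dom hq
  rw [abs_lt] at h1 h2 h3
  apply MuA_norm
  · have e1 : |4 * q.2 + 1 / 8 - q.1.re / 8| ≤ 5 := by
      rw [abs_le]
      constructor <;> linarith [h1.1, h1.2, h3.1, h3.2]
    have e2 : |q.1.im / 8| ≤ 5 := by
      rw [abs_le]
      constructor <;> linarith [h2.1, h2.2]
    linarith
  · rw [abs_le]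
    constructor <;> linarith [h1.1, h1.2, h3.1, h3.2]

theorem mut_ends : ∀ l ∈ Icc (0 : ℝ) 1, ∀ q ∈ Dom, ∀ q' ∈ Dom, 1 / 2 ≤ |q'.2| → bR l q ≠ cR q' := by
  intro l _ q hq q' hq' h he
  have h1 := MuA_dif l q
  have h2 := MuA_cdif q'
  rw [he, h2] at h1
  obtain ⟨h3, _, _⟩ := MuA_dom hq
  rw [abs_lt] at h3
  have h4 : q'.2 = 1 / 32 + q.1.re / 32 := by linarith
  have h5 : |q'.2| < 1 / 2 := by
    rw [h4, abs_lt]
    constructor <;> linarith [h3.1, h3.2]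
  linarith

theorem MuA_meet {l : ℝ} {q q' : ℂ × ℝ} (hq' : q' ∈ Dom) (he : bR l q = cR q') :
    q.1.im / 8 - 2 * (1 - 2 * l) = q'.1.im / 8 := by
  have h1 := MuA_sum l q
  have h2 := MuA_csum q'
  rw [he, h2] at h1
  obtain ⟨h3, _, _⟩ := MuA_dom hq'
  rw [abs_lt] at h3
  have h4 : be q.2 = 1 := by
    apply be_one
    rw [abs_le]
    constructor <;> linarith [h3.1, h3.2]
  have h5 := congrArg (fun p : ℂ × ℝ => p.1.im) he
  have h6 : q.1.im / 8 - 2 * (1 - 2 * l) * be q.2 = q'.1.im / 8 := h5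
  rw [h4, mul_one] at h6
  exact h6

theorem ds_bc0 : Disjoint (bR 0 '' Dom) (cR '' Dom) := by
  rw [Set.disjoint_left]
  rintro x ⟨q, hq, rfl⟩ ⟨q', hq', he⟩
  have h1 := MuA_meet hq' he.symm
  obtain ⟨_, h2, _⟩ := MuA_dom hq
  obtain ⟨_, h3, _⟩ := MuA_dom hq'
  rw [abs_lt] at h2 h3
  linarith [h2.1, h2.2, h3.1, h3.2]

theorem ds_bc1 : Disjoint (bR 1 '' Dom) (cR '' Dom) := by
  rw [Set.disjoint_left]
  rintro x ⟨q, hq, rfl⟩ ⟨q', hq', he⟩
  have h1 := MuA_meet hq' he.symm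
  obtain ⟨_, h2, _⟩ := MuA_dom hq
  obtain ⟨_, h3, _⟩ := MuA_dom hq'
  rw [abs_lt] at h2 h3
  linarith [h2.1, h2.2, h3.1, h3.2]

end Pool.Agent.LKH
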