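import Pool.Agent.LKH.Kd
import Pool.Agent.LKH.MuA

/-!
# LKH/MuB (difficulty 3): the mutual move of the kink

`mi (range K0)` etc. PROOF. Let `Z = {K0 t | Xk t ≤ -15/4 ∨ 17/4 ≤ Xk t}` (rest of the kink) and `Z' = W ∪ {A1 u | u ∈ J10, 4 ≤ |u|} ∪ {A2 v | v ∈ J10, 4 ≤ |v|}`.
(1) For `-15/4 < Xk t < 17/4`: `1 ≤ |t|` and `t² ≤ 21/2` (`Xk t = 6 - t²` for `t² ≤ 21/2`; for `21/2 < t²` `Xk t < Xk 3.2 < -15/4` by `Xk_lt`), so for `t > 0`: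
`Hk t = Xk t - 1/2`, `Yk t = -2 be ((Xk t - 1/4) / 4)` (`stp 0 1 t = 1`), `K0 t = bR 0 (1, (Xk t - 1/4) / 4)`; for `t < 0`: `Yk t = 0`, `Hk t = 1/2 - Xk t`,
`K0 t = cR (-1, (Xk t - 1/4) / 4)`. Conversely every `s ∈ (-1, 1)` is `(Xk t - 1/4) / 4` for `t = ± √(23/4 - 4 s)`. So
`range K0 = Z ∪ bR 0 '' StP ∪ cR '' StM`, and `A1 u = bR 0 (-1, u / 4)`, `A2 v = cR (1, v / 4)` give
`W ∪ A1 '' J10 ∪ A2 '' J10 = Z' ∪ bR 0 '' StM ∪ cR '' StP`.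
(2) The same after the move with `mi`: `bR 1 (1, s) = mi (bR 0 (1, s))`, `bR 1 (-1, s) = mi (bR 0 (-1, s))`; `mi` fixes the points of `Z`, of `cR '' StM`, `cR '' StP` and the points `A1 u`, `4 ≤ |u|` (`be (u/4) = 0`; all have depth `0`:
for `K0 t ∈ Z`: `Yk t = 0` since `be ((Xk t - 1/4)/4) = 0`: `|Xk t - 1/4| ≥ 2`).
(3) `Z ∪ Z'` is disjoint from `bR l '' Dom` and `cR '' Dom`. In the coordinates `u = (re w + h) / 2`, `v = (re w - h) / 2`: on `bR l '' Dom`: `|u| < 4`, `-3/8 < v < 5/8`; on `cR '' Dom`: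
`-3/8 < u < 5/8`, `|v| < 4`. `A1 u`: `(u, 0)` with `4 ≤ |u|`; `A2 v`: `(0, v)`, `4 ≤ |v|`: fine. `W`: the images are in `Bx` (`|re w| ≤ 5`, `|im w| < 5/2`, `|h| ≤ 5`).
`K0 t ∈ Z`, `17/4 ≤ Xk t`: if `t ≥ 1`: `Hk t ≤ Xk t - 1/2` and in fact `t² ≤ 21/2` (as `Xk t > 0`), `Hk t = Xk t - 1/2`: `v = 1/4`, `u = Xk t - 1/4 ≥ 4`: outside of both. `t ≤ -1`: `u = 1/4`, `v ≥ 4`. `|t| < 1`: `Xk t > 5`, `|Hk t| ≤ Xk t - 1/2` (`Hk_small`, `sg_pos`), so `u, v ≥ 1/4` and `u + v = Xk t > 5`; so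
if `v < 5/8` then `u > 4`, if `u < 5/8` then `v > 4`. `Xk t ≤ -15/4`: then `3 ≤ |t|`; `t > 0`: `Hk t ≤ Xk t - 1/2`: `u ≤ Xk t - 1/4 ≤ -4`: outside of both (`u > -4`, `u > -3/8`). `t < 0`: `Hk t ≥ 1/2 - Xk t`, `v ≤ Xk t - 1/4 ≤ -4`.
Apply `PEq.mut` with `A = Z`, `B = Z'`.
-/

open scoped ContDiff Topology
open Set Filter
open Complex (I)
open Pool.Agent.CSG
open Pool.Agent.KNT (Dom BalC Tubes Str CD U)
open Pool.Agent.LKF (PEq Mut StP StM BdC BdT)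

namespace Pool.Agent.LKH

theorem MuB_sq {t : ℝ} (h : -(15 / 4) < Xk t) : t ^ 2 ≤ 21 / 2 := by
  by_contra hc
  have hc' : 21 / 2 < t ^ 2 := not_le.1 hc
  have h0 : (Real.sqrt (39 / 4)) ^ 2 = 39 / 4 := Real.sq_sqrt (by norm_num)
  have h1 : Xk t < Xk (Real.sqrt (39 / 4)) := Xk_lt (by rw [h0]; linarith) (by rw [h0]; norm_num)
  rw [Xk_mid (t := Real.sqrt (39 / 4)) (by rw [h0]; norm_num), h0] at h1
  linarith

theorem MuB_one {t : ℝ} (h : Xk t < 17 / 4) : 1 ≤ |t| := by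
  by_contra hc
  have hc' : |t| < 1 := not_le.1 hc
  have h1 : t ^ 2 ≤ 1 := by
    rw [← sq_abs t]
    nlinarith [abs_nonneg t]
  rw [Xk_mid (by linarith)] at h
  linarith

theorem MuB_be {x : ℝ} (h : x ≤ -15 / 4 ∨ 17 / 4 ≤ x) : be ((x - 1 / 4) / 4) = 0 := by
  apply be_zero
  rcases h with h | h
  · exact le_trans (by linarith) (neg_le_abs _)
  · exact le_trans (by linarith) (le_abs_self _)

theorem MuB_Yk {t : ℝ} (h : Xk t ≤ -15 / 4 ∨ 17 / 4 ≤ Xk t) : Yk t = 0 := by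
  unfold Yk
  rw [MuB_be h, mul_zero]

theorem MuB_Hk_neg {t : ℝ} (h1 : t ≤ -1) (h : t ^ 2 ≤ 21 / 2) : Hk t = 1 / 2 - Xk t := by
  have h2 := Hk_mid (t := -t) (by linarith) (by rw [neg_sq]; exact h)
  rw [Hk_odd, Xk_even] at h2
  linarith

theorem MuB_Hk_neg_le {t : ℝ} (h1 : t ≤ -1) : 1 / 2 - Xk t ≤ Hk t := by
  have h2 := Hk_le (t := -t) (by linarith)
  rw [Hk_odd, Xk_even] at h2
  linarith

/-- position of the rest of the kink -/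
theorem MuB_out {t : ℝ} (h : Xk t ≤ -15 / 4 ∨ 17 / 4 ≤ Xk t) :
    ¬ (|Xk t + Hk t| < 8 ∧ -(3 / 4) < Xk t - Hk t ∧ Xk t - Hk t < 5 / 4) ∧
    ¬ (-(3 / 4) < Xk t + Hk t ∧ Xk t + Hk t < 5 / 4 ∧ |Xk t - Hk t| < 8) := by
  rcases h with h | h
  · have h1 : 1 ≤ |t| := MuB_one (by linarith)
    rcases le_abs.1 h1 with h2 | h2
    · have h3 := Hk_le h2
      constructor
      · rintro ⟨a1, a2, a3⟩
        linarith [(abs_lt.1 a1).1]
      · rintro ⟨a1, a2, a3⟩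
        linarith
    · have h3 := MuB_Hk_neg_le (t := t) (by linarith)
      constructor
      · rintro ⟨a1, a2, a3⟩
        linarith
      · rintro ⟨a1, a2, a3⟩
        linarith [(abs_lt.1 a3).1]
  · have hsq : t ^ 2 ≤ 21 / 2 := MuB_sq (by linarith)
    by_cases h1 : 1 ≤ |t|
    · rcases le_abs.1 h1 with h2 | h2
      · have h3 := Hk_mid h2 hsq
        constructor
        · rintro ⟨a1, a2, a3⟩
          linarith [(abs_lt.1 a1).2]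
        · rintro ⟨a1, a2, a3⟩
          linarith
      · have h3 := MuB_Hk_neg (t := t) (by linarith) hsq
        constructor
        · rintro ⟨a1, a2, a3⟩
          linarith
        · rintro ⟨a1, a2, a3⟩
          linarith [(abs_lt.1 a3).2]
    · have hc' : |t| < 1 := not_le.1 h1
      have h2 : t ^ 2 ≤ 1 := by
        rw [← sq_abs t]
        nlinarith [abs_nonneg t]
      have hX : 5 ≤ Xk t := by
        rw [Xk_mid (by linarith)]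
        linarith
      have hpos : ∀ r : ℝ, 0 < r → r < 1 → 5 ≤ Xk r → 0 ≤ Hk r ∧ Hk r ≤ Xk r - 1 / 2 := by
        intro r hr0 hr1 hXr
        rw [Hk_small hr0 hr1.le]
        obtain ⟨s1, s2⟩ := sg_pos hr0
        constructor
        · exact mul_nonneg (by linarith) s1.le
        · nlinarith
      have hab : |Hk t| ≤ Xk t - 1 / 2 := by
        rcases lt_trichotomy t 0 with h3 | h3 | h3
        · have h4 := hpos (-t) (by linarith) (by rw [abs_lt] at hc'; linarith [hc'.1]) (by rw [Xk_even]; exact hX)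
          rw [Hk_odd, Xk_even] at h4
          rw [abs_le]
          constructor <;> linarith [h4.1, h4.2]
        · have h4 : Hk t = 0 := by
            have := Hk_odd 0
            rw [neg_zero] at this
            rw [h3]
            linarith
          rw [h4, abs_zero]
          linarith
        · have h4 := hpos t h3 (by rw [abs_lt] at hc'; linarith [hc'.2]) hX
          rw [abs_le]
          constructor <;> linarith [h4.1, h4.2]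
      rw [abs_le] at hab
      constructor
      · rintro ⟨a1, a2, a3⟩
        linarith [(abs_lt.1 a1).2]
      · rintro ⟨a1, a2, a3⟩
        linarith [(abs_lt.1 a3).2]

theorem MuB_re {q : ℂ × ℝ} (hq : q ∈ Dom) : |q.1.re| < 4 ∧ |q.1.im| < 4 ∧ |q.2| < 1 :=
  ⟨(Complex.abs_re_le_norm q.1).trans_lt hq.1, (Complex.abs_im_le_norm q.1).trans_lt hq.1, hq.2⟩

theorem MuB_b {l : ℝ} {q : ℂ × ℝ} (hq : q ∈ Dom) :
    |(bR l q).1.re + (bR l q).2| < 8 ∧ -(3 / 4) < (bR l q).1.re - (bR l q).2 ∧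
      (bR l q).1.re - (bR l q).2 < 5 / 4 := by
  obtain ⟨h1, h2, h3⟩ := MuB_re hq
  rw [abs_lt] at h1 h3 ⊢
  have e1 : (bR l q).1.re = 4 * q.2 + 1 / 8 + q.1.re / 8 := rfl
  have e2 : (bR l q).2 = 4 * q.2 - 1 / 8 - q.1.re / 8 := rfl
  rw [e1, e2]
  refine ⟨⟨?_, ?_⟩, ?_, ?_⟩ <;> linarith [h1.1, h1.2, h3.1, h3.2]

theorem MuB_c {q : ℂ × ℝ} (hq : q ∈ Dom) :
    -(3 / 4) < (cR q).1.re + (cR q).2 ∧ (cR q).1.re + (cR q).2 < 5 / 4 ∧ |(cR q).1.re - (cR q).2| < 8 := by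
  obtain ⟨h1, h2, h3⟩ := MuB_re hq
  rw [abs_lt] at h1 h3 ⊢
  have e1 : (cR q).1.re = 4 * q.2 + 1 / 8 - q.1.re / 8 := rfl
  have e2 : (cR q).2 = 1 / 8 - q.1.re / 8 - 4 * q.2 := rfl
  rw [e1, e2]
  refine ⟨?_, ?_, ?_, ?_⟩ <;> linarith [h1.1, h1.2, h3.1, h3.2]

theorem MuB_bB {l : ℝ} (hl : l ∈ Icc (0 : ℝ) 1) {q : ℂ × ℝ} (hq : q ∈ Dom) : bR l q ∈ Bx := by
  obtain ⟨h1, h2, h3⟩ := MuB_re hq
  rw [abs_lt] at h1 h2 h3
  have e1 : (bR l q).1.re = 4 * q.2 + 1 / 8 + q.1.re / 8 := rfl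
  have e2 : (bR l q).2 = 4 * q.2 - 1 / 8 - q.1.re / 8 := rfl
  have e3 : (bR l q).1.im = q.1.im / 8 - 2 * (1 - 2 * l) * be q.2 := rfl
  obtain ⟨b1, b2⟩ := be_mem q.2
  have h4 : |(1 - 2 * l) * be q.2| ≤ 1 := by
    rw [abs_mul, abs_of_nonneg b1]
    refine mul_le_one₀ ?_ b1 b2
    rw [abs_le]
    constructor <;> linarith [hl.1, hl.2]
  rw [abs_le] at h4
  refine ⟨?_, ?_, ?_⟩
  · rw [e1, abs_le]
    constructor <;> linarith [h1.1, h1.2, h3.1, h3.2]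
  · rw [e3, abs_le, mul_assoc]
    constructor <;> linarith [h2.1, h2.2, h4.1, h4.2]
  · rw [e2, abs_le]
    constructor <;> linarith [h1.1, h1.2, h3.1, h3.2]

theorem MuB_cB {q : ℂ × ℝ} (hq : q ∈ Dom) : cR q ∈ Bx := by
  obtain ⟨h1, h2, h3⟩ := MuB_re hq
  rw [abs_lt] at h1 h2 h3
  have e1 : (cR q).1.re = 4 * q.2 + 1 / 8 - q.1.re / 8 := rfl
  have e2 : (cR q).2 = 1 / 8 - q.1.re / 8 - 4 * q.2 := rfl
  have e3 : (cR q).1.im = q.1.im / 8 := rfl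
  refine ⟨?_, ?_, ?_⟩
  · rw [e1, abs_le]
    constructor <;> linarith [h1.1, h1.2, h3.1, h3.2]
  · rw [e3, abs_le]
    constructor <;> linarith [h2.1, h2.2]
  · rw [e2, abs_le]
    constructor <;> linarith [h1.1, h1.2, h3.1, h3.2]

/-- the rest of the kink -/
def MuB_Z : Set (ℂ × ℝ) := K0 '' {t | Xk t ≤ -15 / 4 ∨ 17 / 4 ≤ Xk t}

/-- the rest of the lines -/
def MuB_J : Set ℝ := {u | u ∈ J10 ∧ 4 ≤ |u|}

theorem MuB_bP (l s : ℝ) : bR l (1, s) = pt (4 * s + 1 / 4) (-(2 * (1 - 2 * l) * be s)) (4 * s - 1 / 4) := by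
  refine Prod.ext (Complex.ext ?_ ?_) ?_
  · show 4 * s + 1 / 8 + (1 : ℂ).re / 8 = 4 * s + 1 / 4
    rw [Complex.one_re]
    ring
  · show (1 : ℂ).im / 8 - 2 * (1 - 2 * l) * be s = -(2 * (1 - 2 * l) * be s)
    rw [Complex.one_im]
    ring
  · show 4 * s - 1 / 8 - (1 : ℂ).re / 8 = 4 * s - 1 / 4
    rw [Complex.one_re]
    ring

theorem MuB_bM (l s : ℝ) : bR l (-1, s) = pt (4 * s) (-(2 * (1 - 2 * l) * be s)) (4 * s) := by
  refine Prod.ext (Complex.ext ?_ ?_) ?_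
  · show 4 * s + 1 / 8 + (-1 : ℂ).re / 8 = 4 * s
    rw [Complex.neg_re, Complex.one_re]
    ring
  · show (-1 : ℂ).im / 8 - 2 * (1 - 2 * l) * be s = -(2 * (1 - 2 * l) * be s)
    rw [Complex.neg_im, Complex.one_im]
    ring
  · show 4 * s - 1 / 8 - (-1 : ℂ).re / 8 = 4 * s
    rw [Complex.neg_re, Complex.one_re]
    ring

theorem MuB_cP (s : ℝ) : cR (1, s) = pt (4 * s) 0 (-(4 * s)) := by
  refine Prod.ext (Complex.ext ?_ ?_) ?_
  · show 4 * s + 1 / 8 - (1 : ℂ).re / 8 = 4 * s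
    rw [Complex.one_re]
    ring
  · show (1 : ℂ).im / 8 = 0
    rw [Complex.one_im]
    ring
  · show 1 / 8 - (1 : ℂ).re / 8 - 4 * s = -(4 * s)
    rw [Complex.one_re]
    ring

theorem MuB_cM (s : ℝ) : cR (-1, s) = pt (4 * s + 1 / 4) 0 (1 / 4 - 4 * s) := by
  refine Prod.ext (Complex.ext ?_ ?_) ?_
  · show 4 * s + 1 / 8 - (-1 : ℂ).re / 8 = 4 * s + 1 / 4
    rw [Complex.neg_re, Complex.one_re]
    ring
  · show (-1 : ℂ).im / 8 = 0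
    rw [Complex.neg_im, Complex.one_im]
    ring
  · show 1 / 8 - (-1 : ℂ).re / 8 - 4 * s = 1 / 4 - 4 * s
    rw [Complex.neg_re, Complex.one_re]
    ring

theorem MuB_kP {t : ℝ} (h0 : 1 ≤ t) (h : t ^ 2 ≤ 21 / 2) : K0 t = bR 0 (1, (Xk t - 1 / 4) / 4) := by
  rw [MuB_bP]
  unfold K0
  have e1 : 4 * ((Xk t - 1 / 4) / 4) + 1 / 4 = Xk t := by ring
  have e2 : 4 * ((Xk t - 1 / 4) / 4) - 1 / 4 = Hk t := by
    rw [Hk_mid h0 h]
    ring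
  have e3 : -(2 * (1 - 2 * 0) * be ((Xk t - 1 / 4) / 4)) = Yk t := by
    unfold Yk
    rw [stp_one (by norm_num) h0]
    ring
  rw [e1, e2, e3]

theorem MuB_kM {t : ℝ} (h0 : t ≤ -1) (h : t ^ 2 ≤ 21 / 2) : K0 t = cR (-1, (Xk t - 1 / 4) / 4) := by
  rw [MuB_cM]
  unfold K0
  have e1 : 4 * ((Xk t - 1 / 4) / 4) + 1 / 4 = Xk t := by ring
  have e2 : 1 / 4 - 4 * ((Xk t - 1 / 4) / 4) = Hk t := by
    rw [MuB_Hk_neg h0 h]
    ring
  rw [e1, e2, Yk_neg (by linarith)]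

theorem MuB_ex {s : ℝ} (hs : |s| < 1) : ∃ t : ℝ, 1 ≤ t ∧ t ^ 2 ≤ 21 / 2 ∧ (Xk t - 1 / 4) / 4 = s := by
  rw [abs_lt] at hs
  have h0 : (Real.sqrt (23 / 4 - 4 * s)) ^ 2 = 23 / 4 - 4 * s := Real.sq_sqrt (by linarith [hs.2])
  refine ⟨Real.sqrt (23 / 4 - 4 * s), ?_, ?_, ?_⟩
  · rw [Real.one_le_sqrt]
    linarith [hs.2]
  · rw [h0]
    linarith [hs.1]
  · rw [Xk_mid (by rw [h0]; linarith [hs.1]), h0]
    ring

theorem MuB_E1 : range K0 = MuB_Z ∪ bR 0 '' StP ∪ cR '' StM := by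
  apply Subset.antisymm
  · rintro _ ⟨t, rfl⟩
    by_cases h : Xk t ≤ -15 / 4 ∨ 17 / 4 ≤ Xk t
    · exact Or.inl (Or.inl ⟨t, h, rfl⟩)
    · rw [not_or, not_le, not_le] at h
      have h1 : t ^ 2 ≤ 21 / 2 := MuB_sq (by linarith [h.1])
      have h3 : |(Xk t - 1 / 4) / 4| < 1 := by
        rw [abs_lt]
        constructor <;> linarith [h.1, h.2]
      rcases le_abs.1 (MuB_one h.2) with h2 | h2
      · exact Or.inl (Or.inr ⟨(1, (Xk t - 1 / 4) / 4), ⟨rfl, h3⟩, (MuB_kP h2 h1).symm⟩)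
      · exact Or.inr ⟨(-1, (Xk t - 1 / 4) / 4), ⟨rfl, h3⟩, (MuB_kM (by linarith) h1).symm⟩
  · rintro _ ((⟨t, _, rfl⟩ | ⟨⟨z, s⟩, ⟨hz, hs⟩, rfl⟩) | ⟨⟨z, s⟩, ⟨hz, hs⟩, rfl⟩)
    · exact ⟨t, rfl⟩
    · have hz' : z = 1 := hz
      subst hz'
      obtain ⟨t, h1, h2, h3⟩ := MuB_ex hs
      refine ⟨t, ?_⟩
      rw [MuB_kP h1 h2, h3]
    · have hz' : z = -1 := hz
      subst hz'
      obtain ⟨t, h1, h2, h3⟩ := MuB_ex hs
      refine ⟨-t, ?_⟩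
      rw [MuB_kM (by linarith) (by rw [neg_sq]; exact h2), Xk_even, h3]

theorem MuB_miP (l s : ℝ) (x : ℝ) (hl : x = 1 ∨ x = -1) :
    mi (bR l ((x : ℂ), s)) = bR (1 - l) ((x : ℂ), s) := by
  rcases hl with rfl | rfl
  · rw [Complex.ofReal_one, MuB_bP, MuB_bP]
    refine Prod.ext (Complex.ext rfl ?_) rfl
    show - -(2 * (1 - 2 * l) * be s) = -(2 * (1 - 2 * (1 - l)) * be s)
    ring
  · rw [Complex.ofReal_neg, Complex.ofReal_one, MuB_bM, MuB_bM]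
    refine Prod.ext (Complex.ext rfl ?_) rfl
    show - -(2 * (1 - 2 * l) * be s) = -(2 * (1 - 2 * (1 - l)) * be s)
    ring

theorem MuB_miZ : mi '' MuB_Z = MuB_Z := by
  unfold MuB_Z
  rw [image_image]
  refine image_congr fun t ht => ?_
  unfold K0
  rw [MuB_Yk ht]
  refine Prod.ext (Complex.ext rfl ?_) rfl
  show -(0 : ℝ) = 0
  rw [neg_zero]

theorem MuB_miC : mi '' (cR '' StM) = cR '' StM := by
  rw [image_image]
  refine image_congr ?_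
  rintro ⟨z, s⟩ ⟨hz, hs⟩
  have hz' : z = -1 := hz
  subst hz'
  rw [MuB_cM]
  refine Prod.ext (Complex.ext rfl ?_) rfl
  show -(0 : ℝ) = 0
  rw [neg_zero]

theorem MuB_miB : mi '' (bR 0 '' StP) = bR 1 '' StP := by
  rw [image_image]
  refine image_congr ?_
  rintro ⟨z, s⟩ ⟨hz, hs⟩
  have hz' : z = 1 := hz
  subst hz'
  have := MuB_miP 0 s 1 (Or.inl rfl)
  rwa [Complex.ofReal_one, sub_zero] at this

theorem MuB_E3 : mi '' range K0 = MuB_Z ∪ bR 1 '' StP ∪ cR '' StM := by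
  rw [MuB_E1, image_union, image_union, MuB_miZ, MuB_miC, MuB_miB]

theorem MuB_A1 (u : ℝ) : A1 u = bR 0 (-1, u / 4) := by
  rw [MuB_bM]
  unfold A1
  have e1 : 4 * (u / 4) = u := by ring
  have e2 : -(2 * (1 - 2 * 0) * be (u / 4)) = -2 * be (u / 4) := by ring
  rw [e1, e2]

theorem MuB_miA1 (u : ℝ) : mi (A1 u) = bR 1 (-1, u / 4) := by
  have := MuB_miP 0 (u / 4) (-1) (Or.inr rfl)
  rw [Complex.ofReal_neg, Complex.ofReal_one, sub_zero] at this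
  rw [MuB_A1, this]

theorem MuB_A2 (v : ℝ) : A2 v = cR (1, v / 4) := by
  rw [MuB_cP]
  unfold A2
  have e1 : 4 * (v / 4) = v := by ring
  rw [e1]

theorem MuB_miA1' {u : ℝ} (h : 4 ≤ |u|) : mi (A1 u) = A1 u := by
  unfold A1
  rw [be_zero (by rw [abs_div, abs_of_pos (by norm_num : (0 : ℝ) < 4)]; linarith), mul_zero]
  refine Prod.ext (Complex.ext rfl ?_) rfl
  show -(0 : ℝ) = 0
  rw [neg_zero]

theorem MuB_split (f : ℝ → ℂ × ℝ) (g : ℂ × ℝ → ℂ × ℝ) (x : ℝ) (hf : ∀ u, f u = g ((x : ℂ), u / 4)) :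
    f '' J10 = f '' MuB_J ∪ g '' {q : ℂ × ℝ | q.1 = (x : ℂ) ∧ |q.2| < 1} := by
  apply Subset.antisymm
  · rintro _ ⟨u, hu, rfl⟩
    by_cases h : 4 ≤ |u|
    · exact Or.inl ⟨u, ⟨hu, h⟩, rfl⟩
    · refine Or.inr ⟨((x : ℂ), u / 4), ⟨rfl, ?_⟩, (hf u).symm⟩
      show |u / 4| < 1
      rw [abs_div, abs_of_pos (by norm_num : (0 : ℝ) < 4)]
      linarith [not_le.1 h]
  · rintro _ (⟨u, hu, rfl⟩ | ⟨⟨z, s⟩, ⟨hz, hs⟩, rfl⟩)
    · exact ⟨u, hu.1, rfl⟩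
    · have hz' : z = (x : ℂ) := hz
      subst hz'
      have hs' := abs_lt.1 hs
      refine ⟨4 * s, ⟨?_, ?_⟩, ?_⟩
      · show -10 ≤ 4 * s
        linarith [hs'.1]
      · show 4 * s ≤ 10
        linarith [hs'.2]
      · rw [hf]
        congr 2
        ring

theorem MuB_sM : {q : ℂ × ℝ | q.1 = ((-1 : ℝ) : ℂ) ∧ |q.2| < 1} = StM := by
  rw [Complex.ofReal_neg, Complex.ofReal_one]
  rfl

theorem MuB_sP : {q : ℂ × ℝ | q.1 = ((1 : ℝ) : ℂ) ∧ |q.2| < 1} = StP := by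
  rw [Complex.ofReal_one]
  rfl

theorem MuB_E2 (W : Set (ℂ × ℝ)) : W ∪ A1 '' J10 ∪ A2 '' J10 =
    W ∪ A1 '' MuB_J ∪ A2 '' MuB_J ∪ bR 0 '' StM ∪ cR '' StP := by
  have h1 := MuB_split A1 (bR 0) (-1) (fun u => by
    rw [Complex.ofReal_neg, Complex.ofReal_one]
    exact MuB_A1 u)
  have h2 := MuB_split A2 cR 1 (fun u => by
    rw [Complex.ofReal_one]
    exact MuB_A2 u)
  rw [MuB_sM] at h1
  rw [MuB_sP] at h2
  rw [h1, h2]
  ext q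
  simp only [mem_union]
  tauto

theorem MuB_E4 (W : Set (ℂ × ℝ)) : W ∪ mi '' (A1 '' J10) ∪ A2 '' J10 =
    W ∪ A1 '' MuB_J ∪ A2 '' MuB_J ∪ bR 1 '' StM ∪ cR '' StP := by
  have h1 := MuB_split (fun u => mi (A1 u)) (bR 1) (-1) (fun u => by
    rw [Complex.ofReal_neg, Complex.ofReal_one]
    exact MuB_miA1 u)
  have h2 := MuB_split A2 cR 1 (fun u => by
    rw [Complex.ofReal_one]
    exact MuB_A2 u)
  rw [MuB_sM] at h1
  rw [MuB_sP] at h2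
  have h3 : (fun u => mi (A1 u)) '' MuB_J = A1 '' MuB_J := image_congr fun u hu => MuB_miA1' hu.2
  rw [h3] at h1
  rw [image_image, h1, h2]
  ext q
  simp only [mem_union]
  tauto

theorem MuB_far {W : Set (ℂ × ℝ)} (hd : Disjoint W Bx) {q : ℂ × ℝ}
    (hq : q ∈ MuB_Z ∪ (W ∪ A1 '' MuB_J ∪ A2 '' MuB_J)) (hB : q ∈ Bx) :
    ¬ (|q.1.re + q.2| < 8 ∧ -(3 / 4) < q.1.re - q.2 ∧ q.1.re - q.2 < 5 / 4) ∧
    ¬ (-(3 / 4) < q.1.re + q.2 ∧ q.1.re + q.2 < 5 / 4 ∧ |q.1.re - q.2| < 8) := by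
  rcases hq with ⟨t, ht, rfl⟩ | ((hq | ⟨u, hu, rfl⟩) | ⟨v, hv, rfl⟩)
  · exact MuB_out ht
  · exact absurd hB (Set.disjoint_left.1 hd hq)
  · have e1 : (A1 u).1.re = u := rfl
    have e2 : (A1 u).2 = u := rfl
    rw [e1, e2]
    have h4 := le_abs.1 hu.2
    constructor
    · rintro ⟨a1, a2, a3⟩
      rw [abs_lt] at a1
      rcases h4 with h | h
      · linarith [a1.2]
      · linarith [a1.1]
    · rintro ⟨a1, a2, a3⟩
      rcases h4 with h | h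
      · linarith
      · linarith
  · have e1 : (A2 v).1.re = v := rfl
    have e2 : (A2 v).2 = -v := rfl
    rw [e1, e2]
    have h4 := le_abs.1 hv.2
    constructor
    · rintro ⟨a1, a2, a3⟩
      rcases h4 with h | h
      · linarith
      · linarith
    · rintro ⟨a1, a2, a3⟩
      rw [abs_lt] at a3
      rcases h4 with h | h
      · linarith [a3.2]
      · linarith [a3.1]

theorem mut0 {W : Set (ℂ × ℝ)} (hd : Disjoint W Bx) :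
    PEq (range K0) (W ∪ A1 '' J10 ∪ A2 '' J10) (mi '' range K0) (W ∪ mi '' (A1 '' J10) ∪ A2 '' J10) := by
  rw [MuB_E3, MuB_E4, MuB_E1, MuB_E2]
  refine PEq.mut (b := bR) (c := cR) ⟨tubes_bR, balC_cR, bdT_bR, bdC_cR, ?_, ?_, mut_ends, ds_bc0, ds_bc1⟩
  · intro l hl
    rw [Set.disjoint_left]
    rintro _ hz ⟨q, hq, rfl⟩
    exact (MuB_far hd hz (MuB_bB hl hq)).1 (MuB_b hq)
  · rw [Set.disjoint_left]
    rintro _ hz ⟨q, hq, rfl⟩
    exact (MuB_far hd hz (MuB_cB hq)).2 (MuB_c hq)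

end Pool.Agent.LKH
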