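import Pool.Agent.LKH.Kd

/-!
# LKH/SA2 (difficulty 2): the second arc goes to the back layer

PROOF. As in `SA1`: `k s v = pt v (2 * (s * Bf v)) (-v)`, `A = range K0`, `Z = W ∪ X1 '' J10`. `∉ range K0`: `Xk t = v`, `Hk t = -v`: `cross_two`: `0 < t`, `Xk t = 1/4`, `Yk t = -2 < 0 ≤` depth.
`∉ X1 '' J10`: `u = v = -v`: `u = 0`: depth of `X1 0` is `-2 < 0`.
-/

open scoped ContDiff Topology
open Set Filter
open Complex (I)
open Pool.Agent.CSG
open Pool.Agent.KNT (Dom BalC Tubes Str CD U)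
open Pool.Agent.LKF (PEq Mut StP StM BdC BdT)

namespace Pool.Agent.LKH

theorem SA2_pt {E : Type*} [NormedAddCommGroup E] [NormedSpace ℝ E] {f g h : E → ℝ} (hf : ContDiff ℝ ∞ f)
    (hg : ContDiff ℝ ∞ g) (hh : ContDiff ℝ ∞ h) : ContDiff ℝ ∞ fun p => pt (f p) (g p) (h p) :=
  (Complex.equivRealProdCLM.symm.contDiff.comp (hf.prodMk hg)).prodMk hh

theorem SA2_der {k : ℝ → ℂ × ℝ} (hk : ContDiff ℝ ∞ k) (h : ∀ u, (k u).1.re = u) (t : ℝ) :
    deriv k t ≠ 0 := by
  intro h0
  have h1 : HasDerivAt k (deriv k t) t := ((hk.differentiable (by simp)) t).hasDerivAt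
  have h2 := ((Complex.reCLM.comp (ContinuousLinearMap.fst ℝ ℂ ℝ)).hasFDerivAt).comp_hasDerivAt t h1
  have h3 : ((Complex.reCLM.comp (ContinuousLinearMap.fst ℝ ℂ ℝ)) ∘ k) = id := by
    funext u
    exact h u
  rw [h3] at h2
  have h4 := h2.unique (hasDerivAt_id t)
  rw [h0, map_zero] at h4
  exact zero_ne_one h4

theorem SA2_inj {k : ℝ → ℂ × ℝ} (h : ∀ u, (k u).1.re = u) (S : Set ℝ) : InjOn k S := by
  intro u _ v _ he
  have := congrArg (fun q : ℂ × ℝ => q.1.re) he
  simp only [h] at this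
  exact this

theorem SA2_X1 : IsClosed (X1 '' J10) := by
  refine (isCompact_Icc.image ?_).isClosed
  exact (SA2_pt contDiff_id (contDiff_const.mul Bf_smooth) contDiff_id).continuous

/-- the isotopy -/
noncomputable def SA2_k (s v : ℝ) : ℂ × ℝ := pt v (2 * (s * Bf v)) (-v)

theorem SA2_k_smooth : ContDiff ℝ ∞ fun p : ℝ × ℝ => SA2_k p.1 p.2 :=
  SA2_pt contDiff_snd (contDiff_const.mul (contDiff_fst.mul (Bf_smooth.comp contDiff_snd)))
    contDiff_snd.neg

theorem sA2 {W : Set (ℂ × ℝ)} (hW : IsClosed W) (hd : Disjoint W Bx) :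
    PEq (range K0) (W ∪ X1 '' J10 ∪ A2 '' J10) (range K0) (W ∪ X1 '' J10 ∪ X2 '' J10) := by
  have h0 : SA2_k 0 = A2 := by
    funext u
    unfold SA2_k A2
    congr 1
    ring
  have h1 : SA2_k 1 = X2 := by
    funext u
    unfold SA2_k X2
    congr 1
    ring
  have key := arcB (A := range K0) (Z := W ∪ X1 '' J10) (closed_pt Yk_smooth.continuous)
    (hW.union SA2_X1) (k := SA2_k) (a := -10) (a' := -(19 / 2)) (b' := 19 / 2) (b := 10)
    (by norm_num) (by norm_num) SA2_k_smooth ?_ ?_ ?_ ?_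
  · rw [h0, h1] at key
    exact key
  · intro s hs t ht h
    have h9 : 19 / 2 ≤ |t| := by
      rcases h with h | h
      · rw [abs_of_nonpos (by linarith)]
        linarith
      · rw [abs_of_nonneg (by linarith)]
        exact h
    unfold SA2_k
    rw [Bf_zero (by linarith)]
    congr 1
    ring
  · intro s hs t ht
    have hB := Bf_mem t
    have g2 : 0 ≤ s * Bf t := mul_nonneg hs.1 hB.1
    have g4 : s * Bf t ≤ s := mul_le_of_le_one_right hs.1 hB.2
    refine ⟨?_, ?_⟩
    · rintro ⟨x, hx⟩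
      have e1 : Xk x = t := congrArg (fun q : ℂ × ℝ => q.1.re) hx
      have e2 : Yk x = 2 * (s * Bf t) := congrArg (fun q : ℂ × ℝ => q.1.im) hx
      have e3 : Hk x = -t := congrArg (fun q : ℂ × ℝ => q.2) hx
      obtain ⟨hx0, hx1⟩ := cross_two (by rw [e3, e1] : Hk x = -Xk x)
      rw [Yk_cross hx0 hx1] at e2
      linarith
    · rintro (h | ⟨u, hu, hu'⟩)
      · refine (Set.disjoint_left.mp hd h) ⟨?_, ?_, ?_⟩
        · show |t| ≤ 19 / 2
          rw [abs_le]
          exact ⟨by linarith [ht.1], ht.2⟩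
        · show |2 * (s * Bf t)| ≤ 5 / 2
          rw [abs_le]
          constructor <;> linarith [hs.2]
        · show |-t| ≤ 13
          rw [abs_neg, abs_le]
          exact ⟨by linarith [ht.1], by linarith [ht.2]⟩
      · have e1 : u = t := congrArg (fun q : ℂ × ℝ => q.1.re) hu'
        have e2 : -2 * Bf u = 2 * (s * Bf t) := congrArg (fun q : ℂ × ℝ => q.1.im) hu'
        have e3 : u = -t := congrArg (fun q : ℂ × ℝ => q.2) hu'
        have hu0 : u = 0 := by linarith
        rw [hu0, Bf_one (u := 0) (by norm_num)] at e2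
        linarith
  · intro s hs t ht
    exact SA2_der (SA2_k_smooth.comp (contDiff_const.prodMk contDiff_id)) (fun u => rfl) t
  · intro s hs
    exact SA2_inj (fun u => rfl) _

end Pool.Agent.LKH
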