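import Pool.Agent.LKH.Kd

/-!
# LKH/SK1 (difficulty 2): the depth of the kink becomes strictly decreasing

PROOF. `lineA` with `B = W ∪ X1 '' J10 ∪ X2 '' J10` (closed), `T = 6`, `C = 4`, `k s t = pt (Xk t) ((1 - s) * Yk t + s * Yt t) (Hk t)`. Fixed for `6 ≤ |t|` (`Yk_far`, `Yt_far`), `prop_pt`, derivative: `kink_imm`. Injective: `kink_dbl`: if `t ≠ t'` then `t' = -t`,
`t² = 11/2`; wlog `0 < t`: `Yk t = -2`, `Yk (-t) = 0`, `Yt t = -t/8 < 0 < Yt (-t)`, so the depth of `t` is `<` the depth of `-t`. `∉ X1 '' J10`: `cross_one`: `t < 0`, `Xk t = 1/4`: `Yk t = 0`, `|Yt t| ≤ 3/4`, depth of `X1 (1/4)` is `-2` (`Bf_one`). `∉ X2 '' J10`: `cross_two`: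
depth `≤ 3/4 < 2`. `∉ W`: the point is in `Bx` (`|Xk| ≤ 6`, `|Hk t| ≤ 13/2 + 6`, depth between `-2` and `3/4`).
-/

open scoped ContDiff Topology
open Set Filter
open Complex (I)
open Pool.Agent.CSG
open Pool.Agent.KNT (Dom BalC Tubes Str CD U)
open Pool.Agent.LKF (PEq Mut StP StM BdC BdT)

namespace Pool.Agent.LKH

noncomputable def K1 (t : ℝ) : ℂ × ℝ := pt (Xk t) (Yt t) (Hk t)

theorem SK1_pt_smooth {E : Type*} [NormedAddCommGroup E] [NormedSpace ℝ E] {f g h : E → ℝ} (hf : ContDiff ℝ ∞ f)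
    (hg : ContDiff ℝ ∞ g) (hh : ContDiff ℝ ∞ h) : ContDiff ℝ ∞ fun p => pt (f p) (g p) (h p) := by
  have e : (fun p => pt (f p) (g p) (h p)) = fun p => (Complex.equivRealProdCLM.symm (f p, g p), h p) := by
    funext p
    rfl
  rw [e]
  exact (Complex.equivRealProdCLM.symm.contDiff.comp (hf.prodMk hg)).prodMk hh

theorem SK1_inj {x y h x' y' h' : ℝ} (he : pt x y h = pt x' y' h') : x = x' ∧ y = y' ∧ h = h' := by
  have h1 := congrArg Prod.fst he
  have h2 := congrArg Prod.snd he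
  exact ⟨congrArg Complex.re h1, congrArg Complex.im h1, h2⟩

/-- the derivatives of the coordinates -/
theorem SK1_deriv {X Y H : ℝ → ℝ} {t : ℝ} (hX : ContDiff ℝ ∞ X) (hY : ContDiff ℝ ∞ Y) (hH : ContDiff ℝ ∞ H)
    (h : deriv (fun t => pt (X t) (Y t) (H t)) t = 0) : deriv X t = 0 ∧ deriv Y t = 0 ∧ deriv H t = 0 := by
  have h1 : HasDerivAt (fun t => pt (X t) (Y t) (H t)) 0 t := by
    have := ((SK1_pt_smooth hX hY hH).differentiable (by simp) t).hasDerivAt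
    rwa [h] at this
  have h2 : HasDerivAt (fun t => (pt (X t) (Y t) (H t)).1) 0 t :=
    (ContinuousLinearMap.fst ℝ ℂ ℝ).hasFDerivAt.comp_hasDerivAt t h1 |>.congr_deriv (by simp)
  have h3 : HasDerivAt H 0 t :=
    (ContinuousLinearMap.snd ℝ ℂ ℝ).hasFDerivAt.comp_hasDerivAt t h1 |>.congr_deriv (by simp)
  have h4 : HasDerivAt X 0 t :=
    Complex.reCLM.hasFDerivAt.comp_hasDerivAt t h2 |>.congr_deriv (by simp)
  have h5 : HasDerivAt Y 0 t :=
    Complex.imCLM.hasFDerivAt.comp_hasDerivAt t h2 |>.congr_deriv (by simp)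
  exact ⟨h4.deriv, h5.deriv, h3.deriv⟩

theorem SK1_smooth_snd {f : ℝ → ℝ} (hf : ContDiff ℝ ∞ f) : ContDiff ℝ ∞ fun p : ℝ × ℝ => f p.2 :=
  hf.comp contDiff_snd

theorem SK1_smooth_mix {f g : ℝ → ℝ} (hf : ContDiff ℝ ∞ f) (hg : ContDiff ℝ ∞ g) :
    ContDiff ℝ ∞ fun p : ℝ × ℝ => (1 - p.1) * f p.2 + p.1 * g p.2 :=
  ((contDiff_const.sub contDiff_fst).mul (SK1_smooth_snd hf)).add (contDiff_fst.mul (SK1_smooth_snd hg))

theorem SK1_smooth_mix' {f g : ℝ → ℝ} (hf : ContDiff ℝ ∞ f) (hg : ContDiff ℝ ∞ g) (s : ℝ) :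
    ContDiff ℝ ∞ fun t : ℝ => (1 - s) * f t + s * g t :=
  (contDiff_const.mul hf).add (contDiff_const.mul hg)

theorem SK1_closed {W : Set (ℂ × ℝ)} (hW : IsClosed W) : IsClosed (W ∪ X1 '' J10 ∪ X2 '' J10) := by
  have h1 : Continuous X1 := by
    have : ContDiff ℝ ∞ fun u : ℝ => pt u (-2 * Bf u) u :=
      SK1_pt_smooth contDiff_id (contDiff_const.mul Bf_smooth) contDiff_id
    exact this.continuous
  have h2 : Continuous X2 := by
    have : ContDiff ℝ ∞ fun u : ℝ => pt u (2 * Bf u) (-u) :=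
      SK1_pt_smooth contDiff_id (contDiff_const.mul Bf_smooth) contDiff_neg
    exact this.continuous
  exact (hW.union ((isCompact_Icc.image h1).isClosed)).union ((isCompact_Icc.image h2).isClosed)

/-- a point of the box outside `X1`, `X2` -/
theorem SK1_off {W : Set (ℂ × ℝ)} (hd : Disjoint W Bx) {x y h : ℝ} (hx : |x| ≤ 19 / 2) (hy : |y| ≤ 5 / 2)
    (hh : |h| ≤ 13) (h1 : h = x → y ≠ -2 * Bf x) (h2 : h = -x → y ≠ 2 * Bf x) :
    pt x y h ∉ W ∪ X1 '' J10 ∪ X2 '' J10 := by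
  rintro ((hw | ⟨u, -, hu⟩) | ⟨u, -, hu⟩)
  · exact disjoint_left.1 hd hw ⟨hx, hy, hh⟩
  · obtain ⟨e1, e2, e3⟩ := SK1_inj hu
    rw [← e1] at h1
    exact h1 e3.symm e2.symm
  · obtain ⟨e1, e2, e3⟩ := SK1_inj hu
    rw [← e1] at h2
    exact h2 e3.symm e2.symm

theorem SK1_depth {s t : ℝ} (hs : s ∈ Icc (0 : ℝ) 1) (h0 : 0 < t) (h : t ^ 2 = 11 / 2) :
    (1 - s) * Yk t + s * Yt t < (1 - s) * Yk (-t) + s * Yt (-t) := by
  have ht : |t| ≤ 5 := by
    rw [abs_of_pos h0]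
    nlinarith
  rw [Yk_dbl h0 h, Yk_neg (by linarith : -t ≤ 0), Yt_mid ht, Yt_mid (by rwa [abs_neg])]
  obtain ⟨s0, s1⟩ := hs
  rcases eq_or_lt_of_le s0 with rfl | s0
  · norm_num
  · nlinarith [mul_pos s0 h0]

theorem sK1 {W : Set (ℂ × ℝ)} (hW : IsClosed W) (hd : Disjoint W Bx) :
    PEq (range K0) (W ∪ X1 '' J10 ∪ X2 '' J10) (range fun t => pt (Xk t) (Yt t) (Hk t))
      (W ∪ X1 '' J10 ∪ X2 '' J10) := by
  have key := lineA (SK1_closed hW) (k := fun s t => pt (Xk t) ((1 - s) * Yk t + s * Yt t) (Hk t)) (T := 6) (C := 4)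
    (SK1_pt_smooth (SK1_smooth_snd Xk_smooth) (SK1_smooth_mix Yk_smooth Yt_smooth) (SK1_smooth_snd Hk_smooth))
    ?_ ?_ ?_ ?_ ?_
  · have e0 : (fun t => pt (Xk t) ((1 - (0 : ℝ)) * Yk t + 0 * Yt t) (Hk t)) = K0 := by
      funext t
      show _ = pt (Xk t) (Yk t) (Hk t)
      congr 1
      ring
    have e1 : (fun t => pt (Xk t) ((1 - (1 : ℝ)) * Yk t + 1 * Yt t) (Hk t)) = fun t => pt (Xk t) (Yt t) (Hk t) := by
      funext t
      congr 1
      ring
    simp only [e0, e1] at key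
    exact key
  · intro s _ t ht
    simp only [Yk_far (by linarith : (5 : ℝ) ≤ |t|), Yt_far ht, mul_zero, add_zero]
  · intro t
    exact prop_pt (fun t => (1 - (0 : ℝ)) * Yk t + 0 * Yt t) t
  · intro s hs t ht
    obtain ⟨s0, s1⟩ := hs
    have hX := Xk_mem t
    have hY := Yk_mem t
    have hYt := abs_le.1 (Yt_abs t)
    have hH := Hk_abs t
    have b1 : -2 ≤ (1 - s) * Yk t + s * Yt t := by nlinarith
    have b2 : (1 - s) * Yk t + s * Yt t ≤ 3 / 4 := by nlinarith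
    refine SK1_off hd (abs_le.2 ⟨by linarith, by linarith⟩) (abs_le.2 ⟨by linarith, by linarith⟩) (by linarith) ?_ ?_
    · intro he hc
      obtain ⟨c1, c2⟩ := cross_one he
      rw [c2, Bf_one (by rw [abs_of_pos] <;> norm_num), Yk_neg c1.le] at hc
      nlinarith
    · intro he hc
      obtain ⟨c1, c2⟩ := cross_two he
      rw [c2, Bf_one (by rw [abs_of_pos] <;> norm_num)] at hc
      linarith
  · intro s _ t hc
    obtain ⟨d1, -, d3⟩ := SK1_deriv Xk_smooth (SK1_smooth_mix' Yk_smooth Yt_smooth s) Hk_smooth hc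
    rcases kink_imm t with h | h
    · exact h d1
    · exact h d3
  · intro s hs t t' he
    obtain ⟨e1, e2, e3⟩ := SK1_inj he
    by_contra hne
    obtain ⟨rfl, h2⟩ := kink_dbl e1 e3 hne
    rcases lt_trichotomy t 0 with h | h | h
    · have := SK1_depth hs (t := -t) (by linarith) (by rw [neg_sq]; exact h2)
      rw [neg_neg] at this
      linarith
    · rw [h] at h2
      norm_num at h2
    · have := SK1_depth hs h h2
      linarith

end Pool.Agent.LKH
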