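import Pool.Agent.LKH.Kd

/-!
# LKH/SK2 (difficulty 2): the kink is removed

PROOF. Step 1: `lineA` with `T = 4`, `C = 4`, `k s t = pt ((1 - s) * Xk t + s * (-6)) (Yt t) ((1 - s) * Hk t + s * Ht t)`. For `4 ≤ |t|` (even `12 ≤ t²`) it is fixed (`Xk_far`, `Ht_eq`). Injective: let `k s t = k s t'`. If `t², t'² ≤ 12` then `|t|, |t'| ≤ 5`, `Yt_mid` gives `t = t'`. If `12 ≤ t², t'²`:
the heights are `Hk t = Hk t'`, equal to `Ht`: `Ht_anti`. If `12 < t'²` and `t² ≤ 12`: `|height of t| ≤ 13/2 + |t| < 13/2 + |t'| = |Hk t'|` (`Hk_abs`, `Ht_abs`, `Hk_far`). Derivative: for `|t| < 5` the depth has derivative `-1/8`; for `4 < |t|` `k s = pt (-6) (Yt t) (Ht t)` near `t` and `Ht_deriv`.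
`∉ X1 '' J10`: re `∈ [-6, 6]`, so `Bf = 1`, depth of `X1` is `-2`, but `|Yt| ≤ 3/4`; the same for `X2`. `∉ W`: in `Bx`.
Step 2: `lineA` with `T = 6`, `C = 7` (the curve `pt (-6) (Yt t) (Ht t)`, `|t| ≤ |Ht t| + ..`: `Ht t = -t - 13/2 (..)`, so `|t| ≤ |Ht t| + 13/2`), `k s t = pt (-6) ((1 - s) * Yt t) (Ht t)`: injective and immersed by `Ht`. `range (fun t => pt (-6) 0 (Ht t)) = Ax`: `Ht` is surjective (continuous, `|Ht t + t| ≤ 13/2`: limits `±∞`).
-/

open scoped ContDiff Topology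
open Set Filter
open Complex (I)
open Pool.Agent.CSG
open Pool.Agent.KNT (Dom BalC Tubes Str CD U)
open Pool.Agent.LKF (PEq Mut StP StM BdC BdT)

namespace Pool.Agent.LKH

theorem SK2_pt_smooth {E : Type*} [NormedAddCommGroup E] [NormedSpace ℝ E] {f g h : E → ℝ} (hf : ContDiff ℝ ∞ f)
    (hg : ContDiff ℝ ∞ g) (hh : ContDiff ℝ ∞ h) : ContDiff ℝ ∞ fun p => pt (f p) (g p) (h p) := by
  have e : (fun p => pt (f p) (g p) (h p)) = fun p => (Complex.equivRealProdCLM.symm (f p, g p), h p) := by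
    funext p
    rfl
  rw [e]
  exact (Complex.equivRealProdCLM.symm.contDiff.comp (hf.prodMk hg)).prodMk hh

theorem SK2_inj {x y h x' y' h' : ℝ} (he : pt x y h = pt x' y' h') : x = x' ∧ y = y' ∧ h = h' := by
  have h1 := congrArg Prod.fst he
  have h2 := congrArg Prod.snd he
  exact ⟨congrArg Complex.re h1, congrArg Complex.im h1, h2⟩

/-- the derivatives of the coordinates -/
theorem SK2_deriv {X Y H : ℝ → ℝ} {t : ℝ} (hX : ContDiff ℝ ∞ X) (hY : ContDiff ℝ ∞ Y) (hH : ContDiff ℝ ∞ H)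
    (h : deriv (fun t => pt (X t) (Y t) (H t)) t = 0) : deriv X t = 0 ∧ deriv Y t = 0 ∧ deriv H t = 0 := by
  have h1 : HasDerivAt (fun t => pt (X t) (Y t) (H t)) 0 t := by
    have := ((SK2_pt_smooth hX hY hH).differentiable (by simp) t).hasDerivAt
    rwa [h] at this
  have h2 : HasDerivAt (fun t => (pt (X t) (Y t) (H t)).1) 0 t :=
    (ContinuousLinearMap.fst ℝ ℂ ℝ).hasFDerivAt.comp_hasDerivAt t h1 |>.congr_deriv (by simp)
  have h3 : HasDerivAt H 0 t :=
    (ContinuousLinearMap.snd ℝ ℂ ℝ).hasFDerivAt.comp_hasDerivAt t h1 |>.congr_deriv (by simp)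
  have h4 : HasDerivAt X 0 t :=
    Complex.reCLM.hasFDerivAt.comp_hasDerivAt t h2 |>.congr_deriv (by simp)
  have h5 : HasDerivAt Y 0 t :=
    Complex.imCLM.hasFDerivAt.comp_hasDerivAt t h2 |>.congr_deriv (by simp)
  exact ⟨h4.deriv, h5.deriv, h3.deriv⟩

theorem SK2_smooth_snd {f : ℝ → ℝ} (hf : ContDiff ℝ ∞ f) : ContDiff ℝ ∞ fun p : ℝ × ℝ => f p.2 :=
  hf.comp contDiff_snd

theorem SK2_smooth_mix {f g : ℝ → ℝ} (hf : ContDiff ℝ ∞ f) (hg : ContDiff ℝ ∞ g) :
    ContDiff ℝ ∞ fun p : ℝ × ℝ => (1 - p.1) * f p.2 + p.1 * g p.2 :=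
  ((contDiff_const.sub contDiff_fst).mul (SK2_smooth_snd hf)).add (contDiff_fst.mul (SK2_smooth_snd hg))

theorem SK2_smooth_mix' {f g : ℝ → ℝ} (hf : ContDiff ℝ ∞ f) (hg : ContDiff ℝ ∞ g) (s : ℝ) :
    ContDiff ℝ ∞ fun t : ℝ => (1 - s) * f t + s * g t :=
  (contDiff_const.mul hf).add (contDiff_const.mul hg)

theorem SK2_closed {W : Set (ℂ × ℝ)} (hW : IsClosed W) : IsClosed (W ∪ X1 '' J10 ∪ X2 '' J10) := by
  have h1 : Continuous X1 := by
    have : ContDiff ℝ ∞ fun u : ℝ => pt u (-2 * Bf u) u :=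
      SK2_pt_smooth contDiff_id (contDiff_const.mul Bf_smooth) contDiff_id
    exact this.continuous
  have h2 : Continuous X2 := by
    have : ContDiff ℝ ∞ fun u : ℝ => pt u (2 * Bf u) (-u) :=
      SK2_pt_smooth contDiff_id (contDiff_const.mul Bf_smooth) contDiff_neg
    exact this.continuous
  exact (hW.union ((isCompact_Icc.image h1).isClosed)).union ((isCompact_Icc.image h2).isClosed)

/-- a point of the box outside `X1`, `X2` -/
theorem SK2_off {W : Set (ℂ × ℝ)} (hd : Disjoint W Bx) {x y h : ℝ} (hx : |x| ≤ 19 / 2) (hy : |y| ≤ 5 / 2)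
    (hh : |h| ≤ 13) (h1 : h = x → y ≠ -2 * Bf x) (h2 : h = -x → y ≠ 2 * Bf x) :
    pt x y h ∉ W ∪ X1 '' J10 ∪ X2 '' J10 := by
  rintro ((hw | ⟨u, -, hu⟩) | ⟨u, -, hu⟩)
  · exact disjoint_left.1 hd hw ⟨hx, hy, hh⟩
  · obtain ⟨e1, e2, e3⟩ := SK2_inj hu
    rw [← e1] at h1
    exact h1 e3.symm e2.symm
  · obtain ⟨e1, e2, e3⟩ := SK2_inj hu
    rw [← e1] at h2
    exact h2 e3.symm e2.symm

theorem SK2_sq {t : ℝ} (h : t ^ 2 < 12) : |t| ≤ 5 := by
  apply abs_le_of_sq_le_sq _ (by norm_num)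
  nlinarith

theorem SK2_hfar {t : ℝ} (h : 12 ≤ t ^ 2) : |Hk t| = 13 / 2 + |t| := by
  rcases lt_trichotomy t 0 with h0 | h0 | h0
  · have h1 := Hk_far (t := -t) (by linarith) (by rwa [neg_sq])
    have h2 : Hk t = 13 / 2 - t := by
      have := Hk_odd t
      linarith
    rw [h2, abs_of_neg h0, abs_of_pos (by linarith)]
    ring
  · rw [h0] at h
    norm_num at h
  · rw [Hk_far h0 h, abs_of_pos h0, abs_of_neg (by linarith)]
    ring

theorem SK2_ht {s t : ℝ} (hs : s ∈ Icc (0 : ℝ) 1) : |(1 - s) * Hk t + s * Ht t| ≤ 13 / 2 + |t| := by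
  obtain ⟨s0, s1⟩ := hs
  have h1 := abs_le.1 (Hk_abs t)
  have h2 := abs_le.1 (Ht_abs t)
  rw [abs_le]
  constructor <;> nlinarith

theorem SK2_step1 {W : Set (ℂ × ℝ)} (hW : IsClosed W) (hd : Disjoint W Bx) :
    PEq (range fun t => pt (Xk t) (Yt t) (Hk t)) (W ∪ X1 '' J10 ∪ X2 '' J10) (range fun t => pt (-6) (Yt t) (Ht t))
      (W ∪ X1 '' J10 ∪ X2 '' J10) := by
  have hc6 : ContDiff ℝ ∞ fun _ : ℝ => (-6 : ℝ) := contDiff_const
  have key := lineA (SK2_closed hW)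
    (k := fun s t => pt ((1 - s) * Xk t + s * (-6)) (Yt t) ((1 - s) * Hk t + s * Ht t)) (T := 4) (C := 4)
    (SK2_pt_smooth (SK2_smooth_mix Xk_smooth hc6) (SK2_smooth_snd Yt_smooth) (SK2_smooth_mix Hk_smooth Ht_smooth))
    ?_ ?_ ?_ ?_ ?_
  · have e0 : (fun t => pt ((1 - (0 : ℝ)) * Xk t + 0 * (-6)) (Yt t) ((1 - (0 : ℝ)) * Hk t + 0 * Ht t))
        = fun t => pt (Xk t) (Yt t) (Hk t) := by
      funext t
      congr 1 <;> ring
    have e1 : (fun t => pt ((1 - (1 : ℝ)) * Xk t + 1 * (-6)) (Yt t) ((1 - (1 : ℝ)) * Hk t + 1 * Ht t))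
        = fun t => pt (-6) (Yt t) (Ht t) := by
      funext t
      congr 1 <;> ring
    simp only [e0, e1] at key
    exact key
  · intro s _ t ht
    have h1 : 12 ≤ t ^ 2 := by
      have := abs_nonneg t
      rw [← sq_abs]
      nlinarith
    simp only [Xk_far h1, Ht_eq h1]
    congr 1 <;> ring
  · intro t
    have e0 : pt ((1 - (0 : ℝ)) * Xk t + 0 * (-6)) (Yt t) ((1 - (0 : ℝ)) * Hk t + 0 * Ht t)
        = pt (Xk t) (Yt t) (Hk t) := by
      congr 1 <;> ring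
    simp only [e0]
    exact prop_pt Yt t
  · intro s hs t ht
    have hH := SK2_ht (t := t) hs
    obtain ⟨s0, s1⟩ := hs
    have hX := Xk_mem t
    have hYt := abs_le.1 (Yt_abs t)
    have b1 : |(1 - s) * Xk t + s * (-6)| ≤ 6 := by
      rw [abs_le]
      constructor <;> nlinarith
    refine SK2_off hd (by linarith) (abs_le.2 ⟨by linarith, by linarith⟩) (by linarith) ?_ ?_
    · intro _ hc
      rw [Bf_one (by linarith)] at hc
      linarith
    · intro _ hc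
      rw [Bf_one (by linarith)] at hc
      linarith
  · intro s _ t hc
    obtain ⟨-, d2, d3⟩ := SK2_deriv (SK2_smooth_mix' Xk_smooth hc6 s) Yt_smooth
      (SK2_smooth_mix' Hk_smooth Ht_smooth s) hc
    rcases lt_or_ge |t| 5 with h | h
    · have e : Yt =ᶠ[𝓝 t] fun t => -(t / 8) := by
        have : ∀ᶠ u in 𝓝 t, |u| < 5 := (continuous_abs.tendsto t).eventually (gt_mem_nhds h)
        filter_upwards [this] with u hu
        exact Yt_mid hu.le
      have h1 : HasDerivAt (fun t : ℝ => -(t / 8)) (-(1 / 8)) t := ((hasDerivAt_id t).div_const 8).neg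
      rw [e.deriv_eq, h1.deriv] at d2
      norm_num at d2
    · have e : (fun t => (1 - s) * Hk t + s * Ht t) =ᶠ[𝓝 t] Ht := by
        have : ∀ᶠ u in 𝓝 t, 4 < |u| := (continuous_abs.tendsto t).eventually (lt_mem_nhds (by linarith))
        filter_upwards [this] with u hu
        have h1 : 12 ≤ u ^ 2 := by
          have := abs_nonneg u
          rw [← sq_abs]
          nlinarith
        rw [Ht_eq h1]
        ring
      rw [e.deriv_eq] at d3
      have := Ht_deriv t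
      linarith
  · intro s hs t t' he
    obtain ⟨-, e2, e3⟩ := SK2_inj he
    have hf : ∀ u : ℝ, 12 ≤ u ^ 2 → (1 - s) * Hk u + s * Ht u = Hk u := by
      intro u hu
      rw [Ht_eq hu]
      ring
    rcases lt_or_ge (t ^ 2) 12 with h | h
    · rcases lt_or_ge (t' ^ 2) 12 with h' | h'
      · rw [Yt_mid (SK2_sq h), Yt_mid (SK2_sq h')] at e2
        linarith
      · exfalso
        have h1 := SK2_ht (t := t) hs
        rw [e3, hf t' h', SK2_hfar h'] at h1
        have h2 : |t| < |t'| := sq_lt_sq.1 (by linarith)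
        linarith
    · rcases lt_or_ge (t' ^ 2) 12 with h' | h'
      · exfalso
        have h1 := SK2_ht (t := t') hs
        rw [← e3, hf t h, SK2_hfar h] at h1
        have h2 : |t'| < |t| := sq_lt_sq.1 (by linarith)
        linarith
      · rw [hf t h, hf t' h', ← Ht_eq h, ← Ht_eq h'] at e3
        exact Ht_anti.injective e3

theorem SK2_prop (t : ℝ) : |Ht t + t| ≤ 13 / 2 := by
  unfold Ht
  have h1 := stp_nonneg (-3) 3 t
  have h2 := stp_le_one (-3) 3 t
  rw [abs_le]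
  constructor <;> linarith

theorem SK2_step2 {W : Set (ℂ × ℝ)} (hW : IsClosed W) (hd : Disjoint W Bx) :
    PEq (range fun t => pt (-6) (Yt t) (Ht t)) (W ∪ X1 '' J10 ∪ X2 '' J10) Ax (W ∪ X1 '' J10 ∪ X2 '' J10) := by
  have hc6 : ContDiff ℝ ∞ fun _ : ℝ => (-6 : ℝ) := contDiff_const
  have hs1 : ContDiff ℝ ∞ fun p : ℝ × ℝ => (1 - p.1) * Yt p.2 :=
    (contDiff_const.sub contDiff_fst).mul (SK2_smooth_snd Yt_smooth)
  have key := lineA (SK2_closed hW) (k := fun s t => pt (-6) ((1 - s) * Yt t) (Ht t)) (T := 6) (C := 7)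
    (SK2_pt_smooth contDiff_const hs1 (SK2_smooth_snd Ht_smooth)) ?_ ?_ ?_ ?_ ?_
  · have e0 : (fun t => pt (-6) ((1 - (0 : ℝ)) * Yt t) (Ht t)) = fun t => pt (-6) (Yt t) (Ht t) := by
      funext t
      congr 1
      ring
    have e1 : (range fun t => pt (-6) ((1 - (1 : ℝ)) * Yt t) (Ht t)) = Ax := by
      ext q
      constructor
      · rintro ⟨t, rfl⟩
        show (⟨-6, (1 - (1 : ℝ)) * Yt t⟩ : ℂ) = -6
        apply Complex.ext <;> simp
      · intro hq
        have hq' : q.1 = -6 := hq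
        have h1 := abs_le.1 (SK2_prop (-q.2 + 7))
        have h2 := abs_le.1 (SK2_prop (-q.2 - 7))
        obtain ⟨t, ht⟩ := mem_range_of_exists_le_of_exists_ge Ht_smooth.continuous
          ⟨-q.2 + 7, (by linarith : Ht (-q.2 + 7) ≤ q.2)⟩ ⟨-q.2 - 7, (by linarith : q.2 ≤ Ht (-q.2 - 7))⟩
        refine ⟨t, ?_⟩
        show ((⟨-6, (1 - (1 : ℝ)) * Yt t⟩ : ℂ), Ht t) = q
        refine Prod.ext ?_ ht
        rw [hq']
        apply Complex.ext <;> simp
    simp only [e0] at key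
    rw [e1] at key
    exact key
  · intro s _ t ht
    simp only [Yt_far ht, mul_zero]
  · intro t
    have h1 := abs_le.1 (SK2_prop t)
    have h2 : |Ht t| ≤ ‖pt (-6) ((1 - (0 : ℝ)) * Yt t) (Ht t)‖ := norm_snd_le (pt (-6) ((1 - (0 : ℝ)) * Yt t) (Ht t))
    have h3 : |t| ≤ |Ht t| + 13 / 2 := by
      have := abs_sub_abs_le_abs_sub t (-Ht t)
      rw [abs_neg, sub_neg_eq_add, add_comm t] at this
      have := SK2_prop t
      linarith
    linarith
  · intro s hs t ht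
    obtain ⟨s0, s1⟩ := hs
    have hYt := abs_le.1 (Yt_abs t)
    have hH := Ht_abs t
    have b2 : |(1 - s) * Yt t| ≤ 3 / 4 := by
      rw [abs_le]
      constructor <;> nlinarith
    have b3 := abs_le.1 b2
    refine SK2_off hd (by norm_num [abs_le]) (by linarith) (by linarith) ?_ ?_
    · intro _ hc
      rw [Bf_one (by norm_num [abs_le])] at hc
      linarith
    · intro _ hc
      rw [Bf_one (by norm_num [abs_le])] at hc
      linarith
  · intro s _ t hc
    obtain ⟨-, -, d3⟩ := SK2_deriv hc6 ((contDiff_const (c := 1 - s)).mul Yt_smooth) Ht_smooth hc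
    have := Ht_deriv t
    linarith
  · intro s _ t t' he
    exact Ht_anti.injective (SK2_inj he).2.2

theorem sK2 {W : Set (ℂ × ℝ)} (hW : IsClosed W) (hd : Disjoint W Bx) :
    PEq (range fun t => pt (Xk t) (Yt t) (Hk t)) (W ∪ X1 '' J10 ∪ X2 '' J10) Ax
      (W ∪ X1 '' J10 ∪ X2 '' J10) :=
  (SK2_step1 hW hd).trans (SK2_step2 hW hd)

end Pool.Agent.LKH
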