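import Pool.Agent.LKH.SA1
import Pool.Agent.LKH.SA2
import Pool.Agent.LKH.SK1
import Pool.Agent.LKH.SK2
import Pool.Agent.LKH.MuB

/-!
# LKH/Tri (difficulty 2): the order of a layered triangle can be reversed

PROOF. `half`: `sA1, sA2, sK1, sK2` composed. `mi` is a linear involution (`Dif miE`, `miE = ⟨mi, mi, ..⟩`). Apply `half` to `mi '' W` (closed, disjoint from `Bx`: `mi '' Bx = Bx`) and `PEq.map` with `mi`:
`PEq (mi '' range K0) (W ∪ mi '' A1 '' J ∪ mi '' A2 '' J) (mi '' Ax) (W ∪ mi '' X1 '' J ∪ mi '' X2 '' J)`; `mi '' Ax = Ax`, `mi '' (A2 '' J) = A2 '' J` (depth `0`), `mi '' mi '' W = W`. With `mut0` in the middle.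
-/

open scoped ContDiff Topology
open Set Filter
open Complex (I)
open Pool.Agent.CSG
open Pool.Agent.KNT (Dom BalC Tubes Str CD U)
open Pool.Agent.LKF (PEq Mut StP StM BdC BdT)

namespace Pool.Agent.LKH

theorem half {W : Set (ℂ × ℝ)} (hW : IsClosed W) (hd : Disjoint W Bx) :
    PEq (range K0) (W ∪ A1 '' J10 ∪ A2 '' J10) Ax (W ∪ X1 '' J10 ∪ X2 '' J10) :=
  ((sA1 hW hd).trans (sA2 hW hd)).trans ((sK1 hW hd).trans (sK2 hW hd))

theorem mi_mi (q : ℂ × ℝ) : mi (mi q) = q := by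
  show ((starRingEnd ℂ) ((starRingEnd ℂ) q.1), q.2) = q
  rw [Complex.conj_conj]

/-- `mi` as a permutation -/
noncomputable def miE : Equiv.Perm (ℂ × ℝ) := ⟨mi, mi, mi_mi, mi_mi⟩

theorem Tri_sm : ContDiff ℝ ∞ mi := by
  have h : ContDiff ℝ ∞ fun w : ℂ => (starRingEnd ℂ) w := Complex.conjCLE.contDiff
  exact (h.comp contDiff_fst).prodMk contDiff_snd

theorem dif_mi : Dif miE := ⟨Tri_sm, Tri_sm⟩

theorem Tri_Ax : mi '' Ax = Ax := by
  have h1 : ∀ q ∈ Ax, mi q = q := by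
    rintro ⟨w, h⟩ hq
    have hw : w = -6 := hq
    show ((starRingEnd ℂ) w, h) = (w, h)
    rw [hw, map_neg]
    have h6 : (starRingEnd ℂ) (6 : ℂ) = 6 := Complex.conj_ofReal 6
    rw [h6]
  ext q
  constructor
  · rintro ⟨p, hp, rfl⟩
    rw [h1 p hp]
    exact hp
  · intro hq
    exact ⟨q, hq, h1 q hq⟩

theorem Tri_A2 : mi '' (A2 '' J10) = A2 '' J10 := by
  rw [image_image]
  refine image_congr fun v _ => ?_
  show ((starRingEnd ℂ) (⟨v, 0⟩ : ℂ), -v) = ((⟨v, 0⟩ : ℂ), -v)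
  rw [Prod.mk.injEq]
  exact ⟨Complex.ext rfl (by simp), rfl⟩

theorem tri {W : Set (ℂ × ℝ)} (hW : IsClosed W) (hd : Disjoint W Bx) :
    PEq Ax (W ∪ X1 '' J10 ∪ X2 '' J10) Ax (W ∪ mi '' (X1 '' J10) ∪ mi '' (X2 '' J10)) := by
  have h1 := half hW hd
  have h2 := mut0 (W := W) hd
  have hWm : IsClosed (mi '' W) := by
    have hh : mi '' W = mi ⁻¹' W := by
      ext q
      constructor
      · rintro ⟨p, hp, rfl⟩
        show mi (mi p) ∈ W
        rw [mi_mi]
        exact hp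
      · intro hq
        exact ⟨mi q, hq, mi_mi q⟩
    rw [hh]
    exact hW.preimage Tri_sm.continuous
  have hdm : Disjoint (mi '' W) Bx := by
    rw [Set.disjoint_left]
    rintro _ ⟨p, hp, rfl⟩ ⟨g1, g2, g3⟩
    refine Set.disjoint_left.1 hd hp ⟨?_, ?_, g3⟩
    · have : (mi p).1.re = p.1.re := rfl
      rwa [this] at g1
    · have : (mi p).1.im = -p.1.im := rfl
      rwa [this, abs_neg] at g2
  have h3 := (half hWm hdm).map dif_mi
  have e0 : ∀ K : Set (ℂ × ℝ), miE '' K = mi '' K := fun K => rfl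
  rw [e0, e0, e0, e0, image_union, image_union, image_union, image_union, Tri_Ax, Tri_A2] at h3
  have e1 : mi '' (mi '' W) = W := by
    rw [image_image]
    simp only [mi_mi, image_id']
  rw [e1] at h3
  exact h1.symm.trans (h2.trans h3)

end Pool.Agent.LKH
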