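import Pool.Agent.LKH.LcA
import Pool.Agent.LKH.Tri

/-!
# LKH/LcT (difficulty 2): the triangle move in the coordinates of the local move

PROOF. Let `G (w, h) = (w + 6, h)` (a `Dif`). `G '' Ax = U`. Let `J' = {x ∈ J13 | 10 ≤ |x - 6|}` (compact), `V = W ∪ M1 '' J' ∪ M2 '' J'` (closed), `V' = G.symm '' V`: closed and disjoint from `Bx` (a point of `V` has `re w - 6` of absolute value `≥ 10`, or it is in `W`, and
`G '' Bx ⊆ O13`). For `|x - 6| ≤ 10`: `M1 x = G (X1 (x - 6))`, `M2 x = G (X2 (x - 6))`, `N1 x = G (mi (X1 (x - 6)))`, `N2 x = G (mi (X2 (x - 6)))` (`Bo = 0`, `H1_mid`); for `10 ≤ |x - 6|`: `N1 x = M1 x`, `N2 x = M2 x` (`Bf = 0`). So `tri V'` mapped by `G` is the claim: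
`G '' (V' ∪ X1 '' J10 ∪ X2 '' J10) = V ∪ M1 '' {|x - 6| ≤ 10} ∪ M2 '' {..} = W ∪ M1 '' J13 ∪ M2 '' J13`.
-/

open scoped ContDiff Topology
open Set Filter
open Complex (I)
open Pool.Agent.CSG
open Pool.Agent.KNT (Dom BalC Tubes Str CD U)
open Pool.Agent.LKF (PEq Mut StP StM BdC BdT)

namespace Pool.Agent.LKH

/-- translation by `6` -/
noncomputable def LcT_G : Equiv.Perm (ℂ × ℝ) where
  toFun q := (q.1 + 6, q.2)
  invFun q := (q.1 - 6, q.2)
  left_inv q := by simp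
  right_inv q := by simp

theorem LcT_dif : Dif LcT_G :=
  ⟨(contDiff_fst.add contDiff_const).prodMk contDiff_snd, (contDiff_fst.sub contDiff_const).prodMk contDiff_snd⟩

theorem LcT_pt (x y h : ℝ) : LcT_G (pt x y h) = pt (x + 6) y h := by
  show ((⟨x, y⟩ : ℂ) + 6, h) = ((⟨x + 6, y⟩ : ℂ), h)
  rw [Prod.mk.injEq]
  exact ⟨Complex.ext (by simp) (by simp), rfl⟩

theorem LcT_mi (x y h : ℝ) : mi (pt x y h) = pt x (-y) h := rfl

theorem LcT_Ax : LcT_G '' Ax = U := by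
  ext q
  constructor
  · rintro ⟨p, hp, rfl⟩
    have hp' : p.1 = -6 := hp
    show p.1 + 6 = 0
    rw [hp']
    ring
  · intro hq
    have hq' : q.1 = 0 := hq
    refine ⟨(q.1 - 6, q.2), ?_, LcT_G.apply_symm_apply q⟩
    show q.1 - 6 = -6
    rw [hq']
    ring

/-- the outer part of the parameters -/
def LcT_J : Set ℝ := {x ∈ J13 | 10 ≤ |x - 6|}

theorem LcT_Jc : IsCompact LcT_J := by
  have h1 : IsCompact J13 := isCompact_Icc
  exact h1.inter_right (isClosed_le continuous_const ((continuous_id.sub continuous_const).abs))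

theorem LcT_in {x : ℝ} (h : |x - 6| ≤ 10) : M1 x = LcT_G (X1 (x - 6)) ∧ M2 x = LcT_G (X2 (x - 6)) ∧
    N1 x = LcT_G (mi (X1 (x - 6))) ∧ N2 x = LcT_G (mi (X2 (x - 6))) := by
  have hB : Bo (x - 6) = 0 := Bo_zero h
  have hH : H1 x = x - 6 := H1_mid (h.trans (by norm_num))
  have h1 : Y1 x = -2 * Bf (x - 6) := by
    unfold Y1
    rw [hB]
    ring
  have h2 : Y1' x = 2 * Bf (x - 6) := by
    unfold Y1'
    rw [hB]
    ring
  have e : x - 6 + 6 = x := by ring
  refine ⟨?_, ?_, ?_, ?_⟩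
  · unfold M1 X1
    rw [LcT_pt, e, h1, hH]
  · unfold M2 X2
    rw [LcT_pt, e, h1, hH]
    congr 1
    ring
  · unfold N1 X1
    rw [LcT_mi, LcT_pt, e, h2, hH]
    congr 1
    ring
  · unfold N2 X2
    rw [LcT_mi, LcT_pt, e, h2, hH]

theorem LcT_out {x : ℝ} (h : 10 ≤ |x - 6|) : N1 x = M1 x ∧ N2 x = M2 x := by
  have hB : Bf (x - 6) = 0 := Bf_zero (by linarith)
  unfold N1 M1 N2 M2 Y1 Y1'
  rw [hB]
  simp

theorem LcT_split : J13 = LcT_J ∪ {x | |x - 6| ≤ 10} := by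
  ext x
  constructor
  · intro hx
    rcases le_total 10 |x - 6| with h | h
    · exact Or.inl ⟨hx, h⟩
    · exact Or.inr h
  · rintro (h | h)
    · exact h.1
    · have h1 := abs_le.1 (show |x - 6| ≤ 10 from h)
      exact ⟨by linarith, by linarith⟩

theorem LcT_img {f g : ℝ → ℂ × ℝ} (h : ∀ x : ℝ, |x - 6| ≤ 10 → g x = LcT_G (f (x - 6))) :
    LcT_G '' (f '' J10) = g '' {x | |x - 6| ≤ 10} := by
  ext q
  constructor
  · rintro ⟨_, ⟨u, hu, rfl⟩, rfl⟩
    have h1 : |u + 6 - 6| ≤ 10 := by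
      rw [add_sub_cancel_right]
      exact abs_le.2 hu
    refine ⟨u + 6, h1, ?_⟩
    rw [h _ h1, add_sub_cancel_right]
  · rintro ⟨x, hx, rfl⟩
    have hx' : |x - 6| ≤ 10 := hx
    exact ⟨_, ⟨x - 6, abs_le.1 hx', rfl⟩, (h x hx').symm⟩

theorem lcT {W : Set (ℂ × ℝ)} (hW : IsClosed W) (hd : Disjoint W O13) :
    PEq U (W ∪ M1 '' J13 ∪ M2 '' J13) U (W ∪ N1 '' J13 ∪ N2 '' J13) := by
  have hc : ∀ f : ℝ → ℂ × ℝ, Continuous f → IsClosed (f '' LcT_J) := fun f hf => (LcT_Jc.image hf).isClosed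
  have hM1 : Continuous M1 := by
    have : M1 = fun x : ℝ => ((x : ℂ) + (Y1 x : ℂ) * I, H1 x) := by
      funext x
      show ((⟨x, Y1 x⟩ : ℂ), H1 x) = _
      rw [Prod.mk.injEq]
      exact ⟨Complex.ext (by simp) (by simp), rfl⟩
    rw [this]
    exact ((Complex.continuous_ofReal.add ((Complex.continuous_ofReal.comp Y1_smooth.continuous).mul
      continuous_const)).prodMk H1_smooth.continuous)
  have hM2 : Continuous M2 := by
    have : M2 = fun x : ℝ => ((x : ℂ) + ((-Y1 x : ℝ) : ℂ) * I, -H1 x) := by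
      funext x
      show ((⟨x, -Y1 x⟩ : ℂ), -H1 x) = _
      rw [Prod.mk.injEq]
      exact ⟨Complex.ext (by simp) (by simp), rfl⟩
    rw [this]
    exact ((Complex.continuous_ofReal.add ((Complex.continuous_ofReal.comp Y1_smooth.continuous.neg).mul
      continuous_const)).prodMk H1_smooth.continuous.neg)
  obtain ⟨V, hV⟩ : ∃ V : Set (ℂ × ℝ), V = W ∪ M1 '' LcT_J ∪ M2 '' LcT_J := ⟨_, rfl⟩
  have hVc : IsClosed V := by
    rw [hV]
    exact (hW.union (hc _ hM1)).union (hc _ hM2)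
  have hV' : IsClosed (LcT_G.symm '' V) := by
    have : LcT_G.symm '' V = LcT_G ⁻¹' V := (Equiv.image_symm_eq_preimage LcT_G V)
    rw [this]
    exact hVc.preimage LcT_dif.smooth.continuous
  have hD : Disjoint (LcT_G.symm '' V) Bx := by
    rw [Set.disjoint_left]
    rintro _ ⟨p, hp, rfl⟩ ⟨g1, g2, g3⟩
    have e1 : (LcT_G.symm p).1.re = p.1.re - 6 := by
      show (p.1 - 6).re = _
      simp
    have e2 : (LcT_G.symm p).1.im = p.1.im := by
      show (p.1 - 6).im = _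
      simp
    have e3 : (LcT_G.symm p).2 = p.2 := rfl
    rw [e1] at g1
    rw [e2] at g2
    rw [e3] at g3
    rw [hV] at hp
    rcases hp with (hp | ⟨x, hx, rfl⟩) | ⟨x, hx, rfl⟩
    · refine Set.disjoint_left.1 hd hp ⟨?_, ?_, ?_, ?_⟩
      · linarith [(abs_le.1 g1).1]
      · linarith [(abs_le.1 g1).2]
      · linarith
      · linarith
    · have h1 : (M1 x).1.re = x := rfl
      rw [h1] at g1
      linarith [hx.2]
    · have h1 : (M2 x).1.re = x := rfl
      rw [h1] at g1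
      linarith [hx.2]
  have h1 := (tri hV' hD).map LcT_dif
  have e0 : LcT_G '' (LcT_G.symm '' V) = V := Equiv.image_symm_image LcT_G V
  rw [LcT_Ax, image_union, image_union, image_union, image_union, e0] at h1
  rw [LcT_img (g := M1) fun x hx => (LcT_in hx).1, LcT_img (g := M2) fun x hx => (LcT_in hx).2.1] at h1
  have e3 : mi '' (X1 '' J10) = (fun u => mi (X1 u)) '' J10 := image_image _ _ _
  have e4 : mi '' (X2 '' J10) = (fun u => mi (X2 u)) '' J10 := image_image _ _ _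
  rw [e3, e4, LcT_img (g := N1) fun x hx => (LcT_in hx).2.2.1, LcT_img (g := N2) fun x hx => (LcT_in hx).2.2.2] at h1
  have e5 : N1 '' LcT_J = M1 '' LcT_J := image_congr fun x hx => (LcT_out hx.2).1
  have e6 : N2 '' LcT_J = M2 '' LcT_J := image_congr fun x hx => (LcT_out hx.2).2
  have e7 : W ∪ M1 '' J13 ∪ M2 '' J13 = V ∪ M1 '' {x | |x - 6| ≤ 10} ∪ M2 '' {x | |x - 6| ≤ 10} := by
    rw [LcT_split, image_union, image_union, hV]
    ext q
    simp only [mem_union]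
    tauto
  have e8 : W ∪ N1 '' J13 ∪ N2 '' J13 = V ∪ N1 '' {x | |x - 6| ≤ 10} ∪ N2 '' {x | |x - 6| ≤ 10} := by
    rw [LcT_split, image_union, image_union, e5, e6, hV]
    ext q
    simp only [mem_union]
    tauto
  rw [e7, e8]
  exact h1

end Pool.Agent.LKH
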