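import Pool.Agent.LKH.Fk

/-!
# LKH/RtM (difficulty 2): the half twist

PROOFS. `ta` only depends on `‖q.1‖` (through `‖q.1‖ ^ 2 = normSq`, smooth) and `q.2`, and `Rt` preserves both: so `Rti (Rt q) = q = Rt (Rti q)`. `rt_low`: `stp (-3) 3 q.2 = 0` for `q.2 ≤ -3`. `rt_high`: `3 ≤ q.2`, `‖q.1‖ ≤ 21`: `ta q = π`, `exp (-π i) = -1`.
`rt_far`: `22 ≤ ‖q.1‖`. `rt_hp`: for `q ∈ Hp`: `q.1 = -i ρ`, `ρ = ‖q.1‖`, `-i e^{-iθ} = -sin θ - i cos θ`, `θ = ta q ∈ [0, π]`.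
-/

open scoped ContDiff Topology
open Set Filter
open Complex (I)
open Pool.Agent.CSG
open Pool.Agent.KNT (Dom BalC Tubes Str CD U)
open Pool.Agent.LKF (PEq Mut StP StM BdC BdT)

namespace Pool.Agent.LKH

theorem RtM_nexp (x : ℝ) : ‖Complex.exp ((x : ℂ) * I)‖ = 1 := Complex.norm_exp_ofReal_mul_I x

theorem RtM_nexp' (x : ℝ) : ‖Complex.exp (-(x : ℂ) * I)‖ = 1 := by
  have := Complex.norm_exp_ofReal_mul_I (-x)
  rwa [Complex.ofReal_neg] at this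

theorem norm_Rt (q : ℂ × ℝ) : ‖(Rt q).1‖ = ‖q.1‖ := by
  show ‖q.1 * Complex.exp (-(ta q : ℂ) * I)‖ = ‖q.1‖
  rw [norm_mul, RtM_nexp', mul_one]

theorem norm_Rti (q : ℂ × ℝ) : ‖(Rti q).1‖ = ‖q.1‖ := by
  show ‖q.1 * Complex.exp ((ta q : ℂ) * I)‖ = ‖q.1‖
  rw [norm_mul, RtM_nexp, mul_one]

theorem ta_Rt (q : ℂ × ℝ) : ta (Rt q) = ta q := by
  have h : (Rt q).2 = q.2 := rfl
  unfold ta
  rw [norm_Rt, h]

theorem RtM_ta_Rti (q : ℂ × ℝ) : ta (Rti q) = ta q := by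
  have h : (Rti q).2 = q.2 := rfl
  unfold ta
  rw [norm_Rti, h]

theorem Rti_Rt (q : ℂ × ℝ) : Rti (Rt q) = q := by
  refine Prod.ext ?_ rfl
  show q.1 * Complex.exp (-(ta q : ℂ) * I) * Complex.exp ((ta (Rt q) : ℂ) * I) = q.1
  rw [ta_Rt, mul_assoc, ← Complex.exp_add]
  have : -(ta q : ℂ) * I + (ta q : ℂ) * I = 0 := by ring
  rw [this, Complex.exp_zero, mul_one]

theorem Rt_Rti (q : ℂ × ℝ) : Rt (Rti q) = q := by
  refine Prod.ext ?_ rfl
  show q.1 * Complex.exp ((ta q : ℂ) * I) * Complex.exp (-(ta (Rti q) : ℂ) * I) = q.1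
  rw [RtM_ta_Rti, mul_assoc, ← Complex.exp_add]
  have : (ta q : ℂ) * I + -(ta q : ℂ) * I = 0 := by ring
  rw [this, Complex.exp_zero, mul_one]

/-- the half twist as a permutation -/
noncomputable def RE : Equiv.Perm (ℂ × ℝ) := ⟨Rt, Rti, Rti_Rt, Rt_Rti⟩

theorem RtM_mem (a b x : ℝ) : 0 ≤ stp a b x ∧ stp a b x ≤ 1 :=
  ⟨Real.smoothTransition.nonneg _, Real.smoothTransition.le_one _⟩

theorem RtM_stp_smooth (a b : ℝ) : ContDiff ℝ ∞ (stp a b) := by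
  unfold stp
  exact Real.smoothTransition.contDiff.comp ((contDiff_id.sub contDiff_const).div_const _)

theorem RtM_ta_smooth : ContDiff ℝ ∞ ta := by
  unfold ta
  have h1 : ContDiff ℝ ∞ fun q : ℂ × ℝ => stp (-3) 3 q.2 := (RtM_stp_smooth _ _).comp contDiff_snd
  have h2 : ContDiff ℝ ∞ fun q : ℂ × ℝ => ‖q.1‖ ^ 2 := contDiff_fst.norm_sq ℝ
  have h3 : ContDiff ℝ ∞ fun q : ℂ × ℝ => stp 441 484 (‖q.1‖ ^ 2) := (RtM_stp_smooth _ _).comp h2
  exact (contDiff_const.mul h1).mul (contDiff_const.sub h3)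

theorem RtM_cta_smooth : ContDiff ℝ ∞ fun q : ℂ × ℝ => (ta q : ℂ) :=
  Complex.ofRealCLM.contDiff.comp RtM_ta_smooth

theorem dif_RE : Dif RE := by
  constructor
  · show ContDiff ℝ ∞ Rt
    unfold Rt
    exact (contDiff_fst.mul (Complex.contDiff_exp.comp (RtM_cta_smooth.neg.mul contDiff_const))).prodMk contDiff_snd
  · show ContDiff ℝ ∞ Rti
    unfold Rti
    exact (contDiff_fst.mul (Complex.contDiff_exp.comp (RtM_cta_smooth.mul contDiff_const))).prodMk contDiff_snd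

theorem rt_U : RE '' U = U := by
  ext q
  constructor
  · rintro ⟨p, hp, rfl⟩
    show (Rt p).1 = 0
    have hp' : p.1 = 0 := hp
    show p.1 * Complex.exp (-(ta p : ℂ) * I) = 0
    rw [hp', zero_mul]
  · intro hq
    have hq' : q.1 = 0 := hq
    refine ⟨Rti q, ?_, Rt_Rti q⟩
    show q.1 * Complex.exp ((ta q : ℂ) * I) = 0
    rw [hq', zero_mul]

theorem rt_low {q : ℂ × ℝ} (h : q.2 ≤ -3) : Rt q = q := by
  have h1 : stp (-3) 3 q.2 = 0 := stp_zero (by norm_num) h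
  have h2 : ta q = 0 := by
    unfold ta
    rw [h1]; ring
  refine Prod.ext ?_ rfl
  show q.1 * Complex.exp (-(ta q : ℂ) * I) = q.1
  rw [h2]
  simp

theorem rt_high {q : ℂ × ℝ} (h : 3 ≤ q.2) (h' : ‖q.1‖ ≤ 21) : Rt q = (-q.1, q.2) := by
  have h1 : stp (-3) 3 q.2 = 1 := stp_one (by norm_num) h
  have h3 : stp 441 484 (‖q.1‖ ^ 2) = 0 := stp_zero (by norm_num) (by nlinarith [norm_nonneg q.1])
  have h2 : ta q = Real.pi := by
    unfold ta
    rw [h1, h3]; ring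
  refine Prod.ext ?_ rfl
  show q.1 * Complex.exp (-(ta q : ℂ) * I) = -q.1
  rw [h2, neg_mul, Complex.exp_neg, Complex.exp_pi_mul_I]
  norm_num

theorem rt_hp {q : ℂ × ℝ} (h : q ∈ Hp) :
    (Rt q).1 = ⟨-(‖q.1‖ * Real.sin (ta q)), -(‖q.1‖ * Real.cos (ta q))⟩ ∧ 0 ≤ ta q ∧ ta q ≤ Real.pi := by
  obtain ⟨hr, hi⟩ := h
  have hn : ‖q.1‖ = -q.1.im := by
    have e : q.1 = (q.1.im : ℂ) * I := by
      apply Complex.ext
      · simp [hr]
      · simp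
    rw [e, norm_mul, Complex.norm_I, mul_one, Complex.norm_real, Real.norm_eq_abs, abs_of_neg hi]
    simp
  have s1 := RtM_mem (-3) 3 q.2
  have s2 := RtM_mem 441 484 (‖q.1‖ ^ 2)
  refine ⟨?_, ?_, ?_⟩
  · show q.1 * Complex.exp (-(ta q : ℂ) * I) = _
    have e1 : Complex.exp (-(ta q : ℂ) * I) = (Real.cos (ta q) : ℂ) - (Real.sin (ta q) : ℂ) * I := by
      rw [Complex.exp_mul_I, Complex.cos_neg, Complex.sin_neg, Complex.ofReal_cos, Complex.ofReal_sin]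
      ring
    rw [e1, hn]
    apply Complex.ext
    · rw [Complex.mul_re, Complex.sub_re, Complex.sub_im, Complex.mul_re, Complex.mul_im, Complex.ofReal_re,
        Complex.ofReal_re, Complex.ofReal_im, Complex.ofReal_im, Complex.I_re, Complex.I_im, hr]
      ring
    · rw [Complex.mul_im, Complex.sub_re, Complex.sub_im, Complex.mul_re, Complex.mul_im, Complex.ofReal_re,
        Complex.ofReal_re, Complex.ofReal_im, Complex.ofReal_im, Complex.I_re, Complex.I_im, hr]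
      ring
  · unfold ta
    have := Real.pi_pos
    have a1 : 0 ≤ stp (-3) 3 q.2 := s1.1
    have a2 : 0 ≤ 1 - stp 441 484 (‖q.1‖ ^ 2) := by linarith [s2.2]
    positivity
  · unfold ta
    have hp := Real.pi_pos
    have a1 : stp (-3) 3 q.2 ≤ 1 := s1.2
    have a1' : 0 ≤ stp (-3) 3 q.2 := s1.1
    have a2 : 1 - stp 441 484 (‖q.1‖ ^ 2) ≤ 1 := by linarith [s2.1]
    have a2' : 0 ≤ 1 - stp 441 484 (‖q.1‖ ^ 2) := by linarith [s2.2]
    have : stp (-3) 3 q.2 * (1 - stp 441 484 (‖q.1‖ ^ 2)) ≤ 1 := by nlinarith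
    calc Real.pi * stp (-3) 3 q.2 * (1 - stp 441 484 (‖q.1‖ ^ 2))
        = Real.pi * (stp (-3) 3 q.2 * (1 - stp 441 484 (‖q.1‖ ^ 2))) := by ring
      _ ≤ Real.pi * 1 := by gcongr
      _ = Real.pi := mul_one _

end Pool.Agent.LKH
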