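import Pool.Agent.LKH.LcT
import Pool.Agent.LKH.RtM

/-!
# LKH/Loc (difficulty 3): the local move: two lines in front of the axis go behind the axis

PROOF. Let `B₀ = RE '' B` (closed). In `O13` (contained in `‖w‖ < 21`, `|h| ≤ 14`, so in `Cy`) `B₀` consists of the points of `L1` and `L2`: for `p ∈ O13`, `p = Rt q`, `q ∈ Cy` (`norm_Rt`): `p ∈ B₀ ↔ q ∈ B ↔ q.1.im = -2 ∧ (q.2 = 6 ∨ q.2 = -6)`; `rt_low`, `rt_high`: for `q.2 = -6`: `p = q`;
for `q.2 = 6`: `p = (-q.1, 6)`, so `p.1.im = 2`. `W := B₀ \ O13` is closed and `B₀ = W ∪ L1 '' J13 ∪ L2 '' J13` (end points `x = -7, 19`: `‖w‖ ≤ 21`, so the points `L1 x`, `L2 x` are in `B₀` too, by the same computation).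
`lcA, lcB, lcT`: `PEq U B₀ U B₁`, `B₁ = W ∪ N1 '' J13 ∪ N2 '' J13`. `B' := Rti '' B₁`; `PEq.map` with `RE.symm`. Closed: `RE` is a homeomorphism. `q ∉ Cy`: `Rt q ∉ Cy` (`norm_Rt`), so `Rt q ∉ O13`, `Rt q ∉ N1 '' J13` (`N1 x ∈ Cy`: `|x| ≤ 19`, `|Y1'| ≤ 2`, `|H1| ≤ 13`), so `q ∈ B' ↔ Rt q ∈ W ↔ Rt q ∈ B₀ ↔ q ∈ B`.
Let `q ∈ Cy`, `q ∈ B'`, `q ∈ Hp`. `p = Rt q ∈ B₁`. `rt_hp`: `p.1 = (-ρ sin θ, -ρ cos θ)`, `ρ = ‖q.1‖ > 0`, `0 ≤ θ ≤ π`. (a) `p ∈ W`: `q ∈ B`, so `q = (-2 i, ±6)`, `p = (∓ 2 i, ±6) ∈ O13`: contradiction. (b) `p = N1 x`: `x = -ρ sin θ ≤ 0`, `H1_neg`: `q.2 = H1 x ≤ -6`, `rt_low`: `p = q`, so `x = 0`, `p.1.im = Y1' 0 = 2 > 0`,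
but `q.1.im < 0`. (c) `p = N2 x`: `x ≤ 0`, `q.2 = -H1 x ≥ 6`; `ρ = ‖p.1‖ ≤ 21` (`x ∈ [-7, 0]`, `|Y1'| ≤ 2`), `rt_high`: `p = (-q.1, q.2)`: `x = 0`, `p.1.im > 0`, but it is `-Y1' 0 = -2`.
`q.1 = 0`: then `p.1 = 0`: (a) `q ∈ B ∩ Cy` has `im = -2`; (b), (c): `x = 0`, `Y1' 0 = 2 ≠ 0`.
-/

open scoped ContDiff Topology
open Set Filter
open Complex (I)
open Pool.Agent.CSG
open Pool.Agent.KNT (Dom BalC Tubes Str CD U)
open Pool.Agent.LKF (PEq Mut StP StM BdC BdT)

namespace Pool.Agent.LKH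

theorem Loc_norm {z : ℂ} {a : ℝ} (ha : 0 ≤ a) (h : z.re ^ 2 + z.im ^ 2 ≤ a ^ 2) : ‖z‖ ≤ a := by
  have h1 : ‖z‖ ^ 2 = z.re ^ 2 + z.im ^ 2 := by
    rw [Complex.sq_norm, Complex.normSq_apply]
    ring
  rw [← h1] at h
  exact le_of_sq_le_sq h ha

theorem Loc_near {B : Set (ℂ × ℝ)}
    (h : ∀ q ∈ Cy, q ∈ B ↔ (q.1.im = -2 ∧ (q.2 = 6 ∨ q.2 = -6))) (p : ℂ × ℝ) (hp : ‖p.1‖ ≤ 21)
    (hp2 : |p.2| ≤ 14) : Rti p ∈ B ↔ ((p.1.im = -2 ∧ p.2 = -6) ∨ (p.1.im = 2 ∧ p.2 = 6)) := by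
  have hq2 : (Rti p).2 = p.2 := rfl
  have hqn : ‖(Rti p).1‖ ≤ 21 := by rw [norm_Rti]; exact hp
  have hqC : Rti p ∈ Cy := ⟨by linarith, by rw [hq2]; exact hp2⟩
  rw [h _ hqC, hq2]
  constructor
  · rintro ⟨e1, e2 | e2⟩
    · right
      have e3 := rt_high (q := Rti p) (by rw [hq2, e2]; norm_num) hqn
      rw [Rt_Rti] at e3
      have e4 : p.1 = -(Rti p).1 := congrArg Prod.fst e3
      refine ⟨?_, e2⟩
      rw [e4, Complex.neg_im, e1]
      norm_num
    · left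
      have e3 := rt_low (q := Rti p) (by rw [hq2, e2]; norm_num)
      rw [Rt_Rti] at e3
      rw [← e3] at e1
      exact ⟨e1, e2⟩
  · rintro (⟨e1, e2⟩ | ⟨e1, e2⟩)
    · have e3 := rt_low (q := Rti p) (by rw [hq2, e2]; norm_num)
      rw [Rt_Rti] at e3
      rw [← e3]
      exact ⟨e1, Or.inr e2⟩
    · have e3 := rt_high (q := Rti p) (by rw [hq2, e2]; norm_num) hqn
      rw [Rt_Rti] at e3
      have e4 : p.1 = -(Rti p).1 := congrArg Prod.fst e3
      refine ⟨?_, Or.inl e2⟩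
      rw [e4, Complex.neg_im] at e1
      linarith

theorem Loc_O13 {p : ℂ × ℝ} (hp : p ∈ O13) : ‖p.1‖ ≤ 21 ∧ |p.2| ≤ 14 := by
  obtain ⟨h1, h2, h3, h4⟩ := hp
  refine ⟨Loc_norm (by norm_num) ?_, by linarith⟩
  rw [abs_lt] at h3
  nlinarith [h3.1, h3.2]

theorem Loc_O13_open : IsOpen O13 := by
  have c1 : Continuous fun q : ℂ × ℝ => q.1.re := Complex.continuous_re.comp continuous_fst
  have c2 : Continuous fun q : ℂ × ℝ => |q.1.im| := (Complex.continuous_im.comp continuous_fst).abs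
  have c3 : Continuous fun q : ℂ × ℝ => |q.2| := continuous_snd.abs
  exact (isOpen_lt continuous_const c1).inter ((isOpen_lt c1 continuous_const).inter
    ((isOpen_lt c2 continuous_const).inter (isOpen_lt c3 continuous_const)))

theorem Loc_pt_smooth {f g h : ℝ → ℝ}
    (hf : ContDiff ℝ ∞ f) (hg : ContDiff ℝ ∞ g) (hh : ContDiff ℝ ∞ h) :
    ContDiff ℝ ∞ fun x => pt (f x) (g x) (h x) :=
  ContDiff.prodMk (Complex.equivRealProdCLM.symm.contDiff.comp (hf.prodMk hg)) hh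

theorem Loc_Y1'_smooth : ContDiff ℝ ∞ Y1' := by
  show ContDiff ℝ ∞ fun x : ℝ => 2 * Bf (x - 6) - 2 * Bo (x - 6)
  exact (contDiff_const.mul (Bf_smooth.comp (contDiff_id.sub contDiff_const))).sub
    (contDiff_const.mul (Bo_smooth.comp (contDiff_id.sub contDiff_const)))

theorem Loc_N1 {x : ℝ} (hx : x ∈ J13) : N1 x ∈ Cy := by
  have h1 := abs_le.1 (Y1'_mem x)
  refine ⟨Loc_norm (by norm_num) ?_, ?_⟩
  · show x ^ 2 + (Y1' x) ^ 2 ≤ 22 ^ 2
    have h2 := hx.1
    have h3 := hx.2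
    nlinarith [h1.1, h1.2]
  · show |H1 x| ≤ 14
    linarith [H1_abs hx]

theorem Loc_N2 {x : ℝ} (hx : x ∈ J13) : N2 x ∈ Cy := by
  have h1 := abs_le.1 (Y1'_mem x)
  refine ⟨Loc_norm (by norm_num) ?_, ?_⟩
  · show x ^ 2 + (-Y1' x) ^ 2 ≤ 22 ^ 2
    have h2 := hx.1
    have h3 := hx.2
    nlinarith [h1.1, h1.2]
  · show |-H1 x| ≤ 14
    rw [abs_neg]
    linarith [H1_abs hx]

theorem loc {B : Set (ℂ × ℝ)} (hB : IsClosed B)
    (h : ∀ q ∈ Cy, q ∈ B ↔ (q.1.im = -2 ∧ (q.2 = 6 ∨ q.2 = -6))) :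
    ∃ B' : Set (ℂ × ℝ), IsClosed B' ∧ PEq U B U B' ∧ (∀ q, q ∉ Cy → (q ∈ B' ↔ q ∈ B)) ∧
      ∀ q ∈ Cy, q ∈ B' → q ∉ Hp ∧ q.1 ≠ 0 := by
  have hRt : ∀ q, RE q = Rt q := fun q => rfl
  have hRti : ∀ q, RE.symm q = Rti q := fun q => rfl
  have hm : ∀ (A : Set (ℂ × ℝ)) p, p ∈ RE '' A ↔ Rti p ∈ A := by
    intro A p
    constructor
    · rintro ⟨q, hq, rfl⟩
      rw [← hRti, RE.symm_apply_apply]
      exact hq
    · intro hp
      exact ⟨Rti p, hp, by rw [hRt, Rt_Rti]⟩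
  have hm' : ∀ (A : Set (ℂ × ℝ)) q, q ∈ RE.symm '' A ↔ Rt q ∈ A := by
    intro A q
    constructor
    · rintro ⟨p, hp, rfl⟩
      rw [← hRt, RE.apply_symm_apply]
      exact hp
    · intro hq
      exact ⟨Rt q, hq, by rw [hRti, Rti_Rt]⟩
  have hB0c : IsClosed (RE '' B) := by
    have : RE '' B = RE.symm ⁻¹' B := by
      ext p
      exact hm B p
    rw [this]
    exact hB.preimage dif_RE.smooth_symm.continuous
  have hnear : ∀ p : ℂ × ℝ, ‖p.1‖ ≤ 21 → |p.2| ≤ 14 →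
      (p ∈ RE '' B ↔ ((p.1.im = -2 ∧ p.2 = -6) ∨ (p.1.im = 2 ∧ p.2 = 6))) := by
    intro p h1 h2
    rw [hm, Loc_near h p h1 h2]
  set W : Set (ℂ × ℝ) := RE '' B \ O13 with hW
  have hWc : IsClosed W := hB0c.sdiff Loc_O13_open
  have hWd : Disjoint W O13 := disjoint_sdiff_left
  have hB0 : RE '' B = W ∪ L1 '' J13 ∪ L2 '' J13 := by
    apply Subset.antisymm
    · intro p hp
      by_cases hpO : p ∈ O13
      · obtain ⟨h1, h2⟩ := Loc_O13 hpO
        have hpJ : p.1.re ∈ J13 := ⟨hpO.1.le, hpO.2.1.le⟩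
        rcases (hnear p h1 h2).1 hp with ⟨e1, e2⟩ | ⟨e1, e2⟩
        · exact Or.inl (Or.inr ⟨p.1.re, hpJ, Prod.ext (Complex.ext rfl e1.symm) e2.symm⟩)
        · exact Or.inr ⟨p.1.re, hpJ, Prod.ext (Complex.ext rfl e1.symm) e2.symm⟩
      · exact Or.inl (Or.inl ⟨hp, hpO⟩)
    · rintro p ((hp | ⟨x, hx, rfl⟩) | ⟨x, hx, rfl⟩)
      · exact hp.1
      · refine (hnear _ (Loc_norm (by norm_num) ?_) ?_).2 (Or.inl ⟨rfl, rfl⟩)
        · show x ^ 2 + (-2 : ℝ) ^ 2 ≤ 21 ^ 2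
          nlinarith [hx.1, hx.2]
        · show |(-6 : ℝ)| ≤ 14
          rw [abs_neg, abs_of_pos (by norm_num)]
          norm_num
      · refine (hnear _ (Loc_norm (by norm_num) ?_) ?_).2 (Or.inr ⟨rfl, rfl⟩)
        · show x ^ 2 + (2 : ℝ) ^ 2 ≤ 21 ^ 2
          nlinarith [hx.1, hx.2]
        · show |(6 : ℝ)| ≤ 14
          rw [abs_of_pos (by norm_num)]
          norm_num
  have hPE : PEq U (RE '' B) U (W ∪ N1 '' J13 ∪ N2 '' J13) := by
    rw [hB0]
    exact ((lcA hWc hWd).trans (lcB hWc hWd)).trans (lcT hWc hWd)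
  set B₁ : Set (ℂ × ℝ) := W ∪ N1 '' J13 ∪ N2 '' J13 with hB1
  have hN1c : Continuous N1 := (Loc_pt_smooth contDiff_id Loc_Y1'_smooth H1_smooth).continuous
  have hN2c : Continuous N2 := (Loc_pt_smooth contDiff_id Loc_Y1'_smooth.neg H1_smooth.neg).continuous
  have hJ : IsCompact J13 := isCompact_Icc
  have hB1c : IsClosed B₁ := (hWc.union (hJ.image hN1c).isClosed).union (hJ.image hN2c).isClosed
  refine ⟨RE.symm '' B₁, ?_, ?_, ?_, ?_⟩
  · have : RE.symm '' B₁ = RE ⁻¹' B₁ := by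
      ext p
      exact hm' B₁ p
    rw [this]
    exact hB1c.preimage dif_RE.smooth.continuous
  · have h1 := PEq.map dif_RE.symm hPE
    have e1 : RE.symm '' U = U := by
      conv_lhs => rw [← rt_U]
      ext q
      rw [hm', hm, Rti_Rt]
    have e2 : RE.symm '' (RE '' B) = B := by
      ext q
      rw [hm', hm, Rti_Rt]
    rwa [e1, e2] at h1
  · intro q hq
    rw [hm']
    have hRq : Rt q ∉ Cy := fun hc => hq ⟨by rw [← norm_Rt]; exact hc.1, hc.2⟩
    have hqO : Rt q ∉ O13 := fun hc => hRq ⟨by linarith [(Loc_O13 hc).1], (Loc_O13 hc).2⟩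
    have e1 : Rt q ∈ RE '' B ↔ q ∈ B := by rw [hm, Rti_Rt]
    rw [← e1]
    constructor
    · rintro ((hp | ⟨x, hx, he⟩) | ⟨x, hx, he⟩)
      · exact hp.1
      · rw [← he] at hRq
        exact absurd (Loc_N1 hx) hRq
      · rw [← he] at hRq
        exact absurd (Loc_N2 hx) hRq
    · intro hp
      exact Or.inl (Or.inl ⟨hp, hqO⟩)
  · intro q hq hqB
    rw [hm'] at hqB
    have hs : (Rt q).2 = q.2 := rfl
    constructor
    · intro hqH
      obtain ⟨hr1, hr2, hr3⟩ := rt_hp hqH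
      have hre0 : (Rt q).1.re ≤ 0 := by
        rw [hr1]
        show -(‖q.1‖ * Real.sin (ta q)) ≤ 0
        have := mul_nonneg (norm_nonneg q.1) (Real.sin_nonneg_of_nonneg_of_le_pi hr2 hr3)
        linarith
      rcases hqB with (hp | ⟨x, hx, he⟩) | ⟨x, hx, he⟩
      · have hqB : q ∈ B := by
          have := hp.1
          rwa [hm, Rti_Rt] at this
        obtain ⟨e1, e2⟩ := (h q hq).1 hqB
        have hre := hqH.1
        have hn : ‖q.1‖ ≤ 21 := Loc_norm (by norm_num) (by rw [hre, e1]; norm_num)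
        apply hp.2
        rcases e2 with e2 | e2
        · rw [rt_high (by rw [e2]; norm_num) hn]
          refine ⟨?_, ?_, ?_, ?_⟩
          · show -7 < (-q.1).re
            rw [Complex.neg_re, hre]
            norm_num
          · show (-q.1).re < 19
            rw [Complex.neg_re, hre]
            norm_num
          · show |(-q.1).im| < 3
            rw [Complex.neg_im, e1, neg_neg, abs_of_pos (by norm_num)]
            norm_num
          · show |q.2| < 27 / 2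
            rw [e2, abs_of_pos (by norm_num)]
            norm_num
        · rw [rt_low (by rw [e2]; norm_num)]
          refine ⟨?_, ?_, ?_, ?_⟩
          · rw [hre]
            norm_num
          · rw [hre]
            norm_num
          · rw [e1, abs_neg, abs_of_pos (by norm_num)]
            norm_num
          · rw [e2, abs_neg, abs_of_pos (by norm_num)]
            norm_num
      · have hx0 : x ≤ 0 := by
          rw [← he] at hre0
          exact hre0
        have hh : q.2 = H1 x := by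
          rw [← hs, ← he]
          rfl
        have hH := H1_neg hx hx0
        have e1 := rt_low (q := q) (by rw [hh]; linarith)
        rw [e1] at he
        have e2 : x = 0 := by
          have : (N1 x).1.re = q.1.re := by rw [he]
          rw [hqH.1] at this
          exact this
        have e3 : (N1 x).1.im = q.1.im := by rw [he]
        have e4 : (N1 x).1.im = Y1' x := rfl
        rw [e4, e2, Y1_at_zero.2] at e3
        have := hqH.2
        linarith
      · have hx0 : x ≤ 0 := by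
          rw [← he] at hre0
          exact hre0
        have hh : q.2 = -H1 x := by
          rw [← hs, ← he]
          rfl
        have hH := H1_neg hx hx0
        have hn : ‖q.1‖ ≤ 21 := by
          rw [← norm_Rt, ← he]
          refine Loc_norm (by norm_num) ?_
          show x ^ 2 + (-Y1' x) ^ 2 ≤ 21 ^ 2
          have h1 := abs_le.1 (Y1'_mem x)
          nlinarith [hx.1, hx.2, h1.1, h1.2]
        have e1 := rt_high (q := q) (by rw [hh]; linarith) hn
        rw [e1] at he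
        have e2 : x = 0 := by
          have h5 : (N2 x).1.re = (-q.1).re := by rw [he]
          rw [Complex.neg_re, hqH.1, neg_zero] at h5
          exact h5
        have e3 : (N2 x).1.im = (-q.1).im := by rw [he]
        have e4 : (N2 x).1.im = -Y1' x := rfl
        rw [e4, e2, Y1_at_zero.2, Complex.neg_im] at e3
        have := hqH.2
        linarith
    · intro hq0
      have hp0 : (Rt q).1 = 0 := by
        rw [← norm_eq_zero, norm_Rt, hq0, norm_zero]
      rcases hqB with (hp | ⟨x, hx, he⟩) | ⟨x, hx, he⟩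
      · have hqB : q ∈ B := by
          have := hp.1
          rwa [hm, Rti_Rt] at this
        obtain ⟨e1, e2⟩ := (h q hq).1 hqB
        rw [hq0, Complex.zero_im] at e1
        norm_num at e1
      · rw [← he] at hp0
        have e1 : (N1 x).1.re = x := rfl
        have e2 : (N1 x).1.im = Y1' x := rfl
        rw [hp0, Complex.zero_re] at e1
        rw [hp0, Complex.zero_im, ← e1, Y1_at_zero.2] at e2
        norm_num at e2
      · rw [← he] at hp0
        have e1 : (N2 x).1.re = x := rfl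
        have e2 : (N2 x).1.im = -Y1' x := rfl
        rw [hp0, Complex.zero_re] at e1
        rw [hp0, Complex.zero_im, ← e1, Y1_at_zero.2] at e2
        norm_num at e2

end Pool.Agent.LKH
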