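import Pool.Agent.LKH.Core

/-!
# LKH/Main (difficulty 1): at most one crossing

PROOF. Induction on `(B ∩ Hp).ncard` (`Set.Finite`): if `B ∩ Hp` is not a subsingleton take `x ≠ y` in it and apply `core`: the number of crossings drops (`Set.ncard_lt_ncard`).
-/

open scoped ContDiff Topology
open Set Filter
open Complex (I)
open Pool.Agent.CSG
open Pool.Agent.KNT (Dom BalC Tubes Str CD U)
open Pool.Agent.LKF (PEq Mut StP StM BdC BdT)

namespace Pool.Agent.LKH

theorem good_main {B : Set (ℂ × ℝ)} (hB : Good B) :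
    ∃ B' : Set (ℂ × ℝ), PEq U B U B' ∧ Good B' ∧ B' ∩ Hp ⊆ B ∩ Hp ∧ (B' ∩ Hp).Subsingleton := by
  induction hn : (B ∩ Hp).ncard using Nat.strong_induction_on generalizing B with
  | _ n ih =>
    by_cases hs : (B ∩ Hp).Subsingleton
    · exact ⟨B, PEq.refl _ _, hB, subset_rfl, hs⟩
    · rw [Set.not_subsingleton_iff] at hs
      obtain ⟨x, hx, y, hy, hxy⟩ := hs
      obtain ⟨B₁, h1, h2, h3⟩ := core hB hx hy hxy
      have h4 : (B₁ ∩ Hp).ncard < n := by
        rw [← hn, h3]
        refine Set.ncard_lt_ncard ?_ hB.fin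
        refine ⟨diff_subset, fun h => ?_⟩
        exact (h hx).2 (Or.inl rfl)
      obtain ⟨B', g1, g2, g3, g4⟩ := ih _ h4 h2 rfl
      exact ⟨B', h1.trans g1, g2, g3.trans (h3.le.trans diff_subset), g4⟩

end Pool.Agent.LKH
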