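import Pool.Agent.LKH.Defs

/-!
# LKH/Pb: basic lemmas for `PEq`

`PEq.map`: naturality under (not compactly supported) diffeomorphisms. `arcA`, `arcB`: isotopy of one arc of `A` or `B`.
-/

open scoped ContDiff Topology
open Set Filter
open Pool.Agent.CSG (stp)
open Pool.Agent.KNT (Dom BalC Tubes Str Str2 CD U)
open Pool.Agent.LKF

namespace Pool.Agent.LKH

/-- a diffeomorphism of `ℂ × ℝ` -/
structure Dif (G : Equiv.Perm (ℂ × ℝ)) : Prop where
  smooth : ContDiff ℝ ∞ G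
  smooth_symm : ContDiff ℝ ∞ G.symm

theorem Dif.symm {G : Equiv.Perm (ℂ × ℝ)} (h : Dif G) : Dif G.symm := ⟨h.smooth_symm, h.smooth⟩

theorem Dif.fd {G : Equiv.Perm (ℂ × ℝ)} (h : Dif G) (x : ℂ × ℝ) : Function.Injective (fderiv ℝ G x) := by
  have h1 : HasFDerivAt G (fderiv ℝ G x) x := ((h.smooth.differentiable (by simp)) x).hasFDerivAt
  have h2 : HasFDerivAt G.symm (fderiv ℝ G.symm (G x)) (G x) :=
    ((h.smooth_symm.differentiable (by simp)) (G x)).hasFDerivAt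
  have h3 := h2.comp x h1
  have h4 : (G.symm ∘ G) = id := by
    funext y
    exact G.symm_apply_apply y
  rw [h4] at h3
  have h5 := h3.unique (hasFDerivAt_id x)
  intro v w hvw
  have h6 : (fderiv ℝ G.symm (G x)).comp (fderiv ℝ G x) v = (fderiv ℝ G.symm (G x)).comp (fderiv ℝ G x) w := by
    show fderiv ℝ G.symm (G x) (fderiv ℝ G x v) = fderiv ℝ G.symm (G x) (fderiv ℝ G x w)
    rw [hvw]
  rw [h5] at h6
  exact h6

theorem bdd_image {G : Equiv.Perm (ℂ × ℝ)} (h : Dif G) (R : ℝ) :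
    ∃ R' : ℝ, ∀ x : ℂ × ℝ, ‖x‖ ≤ R → ‖G x‖ ≤ R' := by
  have hc : IsCompact (Metric.closedBall (0 : ℂ × ℝ) R) := isCompact_closedBall 0 R
  obtain ⟨R', hR'⟩ := (hc.image h.smooth.continuous).isBounded.subset_closedBall 0
  refine ⟨R', fun x hx => ?_⟩
  have : G x ∈ Metric.closedBall (0 : ℂ × ℝ) R' :=
    hR' ⟨x, by rw [mem_closedBall_zero_iff]; exact hx, rfl⟩
  rwa [mem_closedBall_zero_iff] at this

theorem balC_map {G : Equiv.Perm (ℂ × ℝ)} (h : Dif G) {b : ℂ × ℝ → ℂ × ℝ} (hb : BalC b) : BalC (G ∘ b) := by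
  refine ⟨fun q hq => h.smooth.contDiffAt.comp q (hb.smooth q hq), fun q hq => ?_, fun q hq q' hq' he =>
    hb.inj hq hq' (G.injective he)⟩
  have h1 : HasFDerivAt b (fderiv ℝ b q) q := ((hb.smooth q hq).differentiableAt (by simp)).hasFDerivAt
  have h2 : HasFDerivAt G (fderiv ℝ G (b q)) (b q) := ((h.smooth.differentiable (by simp)) (b q)).hasFDerivAt
  rw [(h2.comp q h1).fderiv]
  exact (h.fd (b q)).comp (hb.imm q hq)

theorem tubes_map {G : Equiv.Perm (ℂ × ℝ)} (h : Dif G) {b : ℝ → ℂ × ℝ → ℂ × ℝ} (hb : Tubes b) :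
    Tubes (fun l => G ∘ b l) := by
  refine ⟨fun l hl q hq => ?_, fun l hl q hq => ?_, fun l hl q hq hs => ?_, ?_, ?_, ?_⟩
  · exact h.smooth.contDiffAt.comp (l, q) (hb.smooth l hl q hq)
  · have h0 : ContDiffAt ℝ ∞ (b l) q := by
      have e1 : ContDiffAt ℝ ∞ (fun x : ℂ × ℝ => ((l, x) : ℝ × (ℂ × ℝ))) q :=
        (contDiff_const.prodMk contDiff_id).contDiffAt
      exact ContDiffAt.comp (g := fun p : ℝ × (ℂ × ℝ) => b p.1 p.2) q (hb.smooth l hl q hq) e1
    have h1 : HasFDerivAt (b l) (fderiv ℝ (b l) q) q := (h0.differentiableAt (by simp)).hasFDerivAt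
    have h2 : HasFDerivAt G (fderiv ℝ G (b l q)) (b l q) :=
      ((h.smooth.differentiable (by simp)) (b l q)).hasFDerivAt
    rw [(h2.comp q h1).fderiv]
    exact (h.fd (b l q)).comp (hb.imm l hl q hq)
  · show G (b l q) = G (b 0 q)
    rw [hb.ends l hl q hq hs]
  · exact fun q hq q' hq' he => hb.inj0 hq hq' (G.injective he)
  · exact fun q hq q' hq' he => hb.inj1 hq hq' (G.injective he)
  · exact fun l hl q hq hs q' hq' hs' he => hb.sep l hl q hq hs q' hq' hs' (G.injective he)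

theorem disj_map {G : Equiv.Perm (ℂ × ℝ)} {Z : Set (ℂ × ℝ)} {b : ℂ × ℝ → ℂ × ℝ} {D : Set (ℂ × ℝ)}
    (h : Disjoint Z (b '' D)) : Disjoint (G '' Z) ((G ∘ b) '' D) := by
  rw [image_comp]
  exact (disjoint_image_iff G.injective).2 h

/-- `PEq` is natural under diffeomorphisms. -/
theorem _root_.Pool.Agent.LKF.PEq.map {G : Equiv.Perm (ℂ × ℝ)} (hG : Dif G) {A B A' B' : Set (ℂ × ℝ)}
    (h : PEq A B A' B') : PEq (G '' A) (G '' B) (G '' A') (G '' B') := by
  induction h with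
  | refl A B => exact PEq.refl _ _
  | symm _ ih => exact ih.symm
  | trans _ _ ih1 ih2 => exact ih1.trans ih2
  | diff A B hF =>
    rename_i F
    have hc : CD univ ((G.symm.trans F).trans G) := by
      obtain ⟨C, hC, -, hFC⟩ := hF.supp
      refine ⟨hG.smooth.comp (hF.smooth.comp hG.smooth_symm), hG.smooth.comp (hF.smooth_symm.comp hG.smooth_symm),
        G '' C, hC.image hG.smooth.continuous, subset_univ _, fun x hx => ?_⟩
      show G (F (G.symm x)) = x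
      rw [hFC (G.symm x) (fun hx' => hx ⟨_, hx', G.apply_symm_apply x⟩), G.apply_symm_apply]
    have e : ∀ K : Set (ℂ × ℝ), ((G.symm.trans F).trans G) '' (G '' K) = G '' (F '' K) := by
      intro K
      rw [image_image, image_image]
      refine image_congr fun x _ => ?_
      show G (F (G.symm (G x))) = G (F x)
      rw [G.symm_apply_apply]
    have := PEq.diff (G '' A) (G '' B) hc
    rwa [e, e] at this
  | four hb hbd hZ hB =>
    rename_i Z B b
    rw [image_union, image_union, ← image_comp, ← image_comp]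
    refine PEq.four (balC_map hG hb) ?_ (disj_map hZ) (disj_map hB)
    obtain ⟨R, hR⟩ := hbd
    obtain ⟨R', hR'⟩ := bdd_image hG R
    exact ⟨R', fun q hq => hR' _ (hR q hq)⟩
  | rib hb hbd hZ hB =>
    rename_i Z B b
    rw [image_union, image_union, ← image_comp, ← image_comp]
    refine PEq.rib (b := fun l => G ∘ b l) (tubes_map hG hb) ?_ (fun l hl => disj_map (hZ l hl))
      (fun l hl => disj_map (hB l hl))
    obtain ⟨R, hR⟩ := hbd
    obtain ⟨R', hR'⟩ := bdd_image hG R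
    exact ⟨R', fun l hl q hq => hR' _ (hR l hl q hq)⟩
  | _ =>
    rename_i A B b c hm
    simp only [image_union, ← image_comp]
    refine PEq.mut (b := fun l => G ∘ b l) (c := G ∘ c) ?_
    rw [← image_union]
    refine ⟨tubes_map hG hm.tub, balC_map hG hm.bal, ?_, ?_, fun l hl => disj_map (hm.dsb l hl), disj_map hm.dsc,
      fun l hl q hq q' hq' hs he => hm.ends l hl q hq q' hq' hs (G.injective he), ?_, ?_⟩
    · obtain ⟨R, hR⟩ := hm.bdb
      obtain ⟨R', hR'⟩ := bdd_image hG R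
      exact ⟨R', fun l hl q hq => hR' _ (hR l hl q hq)⟩
    · obtain ⟨R, hR⟩ := hm.bdc
      obtain ⟨R', hR'⟩ := bdd_image hG R
      exact ⟨R', fun q hq => hR' _ (hR q hq)⟩
    · have := hm.ds0
      show Disjoint ((G ∘ b 0) '' Dom) ((G ∘ c) '' Dom)
      rw [image_comp, image_comp]
      exact (disjoint_image_iff G.injective).2 this
    · have := hm.ds1
      show Disjoint ((G ∘ b 1) '' Dom) ((G ∘ c) '' Dom)
      rw [image_comp, image_comp]
      exact (disjoint_image_iff G.injective).2 this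

theorem PEq_of_eq {A B A' B' : Set (ℂ × ℝ)} (hA : A = A') (hB : B = B') : PEq A B A' B' := by
  subst hA
  subst hB
  exact PEq.refl _ _

/-- isotopy of an arc `k s : [a, b] → E`, moving for `t ∈ [a', b']` only, in the complement of a closed set -/
theorem arc_iso {Z : Set (ℂ × ℝ)} (hZ : IsClosed Z) {k : ℝ → ℝ → ℂ × ℝ} {a a' b' b : ℝ} (h1 : a < a')
    (h3 : b' < b) (hk : ContDiff ℝ ∞ fun p : ℝ × ℝ => k p.1 p.2)
    (hend : ∀ s ∈ Icc (0 : ℝ) 1, ∀ t ∈ Icc a b, t ≤ a' ∨ b' ≤ t → k s t = k 0 t)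
    (hkZ : ∀ s ∈ Icc (0 : ℝ) 1, ∀ t ∈ Icc a' b', k s t ∉ Z)
    (himm : ∀ s ∈ Icc (0 : ℝ) 1, ∀ t ∈ Icc a b, deriv (k s) t ≠ 0)
    (hinj : ∀ s ∈ Icc (0 : ℝ) 1, InjOn (k s) (Icc a b)) :
    ∃ F : Equiv.Perm (ℂ × ℝ), CD Zᶜ F ∧ ∀ t ∈ Icc a b, F (k 0 t) = k 1 t := by
  have hL : ISO.Lat (⊥ : AddSubgroup (ℂ × ℝ)) := by
    intro R
    apply (finite_singleton (0 : ℂ × ℝ)).subset
    rintro m ⟨hm, -⟩
    exact AddSubgroup.mem_bot.1 hm
  obtain ⟨F, hF, hFk⟩ := ISO.core_arc hL hZ.isOpen_compl (k := k) (a₀ := a - 1) (a := a) (a' := a')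
    (b' := b') (b := b) (b₀ := b + 1) (by linarith) h1 h3 (by linarith)
    (fun s _ l _ => hk.contDiffAt) hend hkZ himm
    (by
      intro s hs l hl l' hl' m hm he
      rw [AddSubgroup.mem_bot] at hm
      rw [hm, add_zero] at he
      exact hinj s hs hl hl' he)
  exact ⟨F, KNT.cd_of_move hF, hFk⟩

/-- isotopy of an arc of `A` -/
theorem arcA {Z B : Set (ℂ × ℝ)} (hZ : IsClosed Z) (hB : IsClosed B) {k : ℝ → ℝ → ℂ × ℝ} {a a' b' b : ℝ}
    (h1 : a < a') (h3 : b' < b) (hk : ContDiff ℝ ∞ fun p : ℝ × ℝ => k p.1 p.2)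
    (hend : ∀ s ∈ Icc (0 : ℝ) 1, ∀ t ∈ Icc a b, t ≤ a' ∨ b' ≤ t → k s t = k 0 t)
    (hkZ : ∀ s ∈ Icc (0 : ℝ) 1, ∀ t ∈ Icc a' b', k s t ∉ Z ∧ k s t ∉ B)
    (himm : ∀ s ∈ Icc (0 : ℝ) 1, ∀ t ∈ Icc a b, deriv (k s) t ≠ 0)
    (hinj : ∀ s ∈ Icc (0 : ℝ) 1, InjOn (k s) (Icc a b)) :
    PEq (Z ∪ k 0 '' Icc a b) B (Z ∪ k 1 '' Icc a b) B := by
  obtain ⟨F, hF, hFk⟩ := arc_iso (hZ.union hB) h1 h3 hk hend
    (fun s hs t ht h => h.elim (hkZ s hs t ht).1 (hkZ s hs t ht).2) himm hinj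
  have h2 : F '' (Z ∪ k 0 '' Icc a b) = Z ∪ k 1 '' Icc a b := by
    rw [image_union, hF.image_disj (disjoint_compl_right.mono_left subset_union_left)]
    congr 1
    rw [image_image]
    exact image_congr hFk
  have h4 : F '' B = B := hF.image_disj (disjoint_compl_right.mono_left subset_union_right)
  have := PEq.diff (Z ∪ k 0 '' Icc a b) B (hF.mono (subset_univ _))
  rwa [h2, h4] at this

/-- isotopy of an arc of `B` -/
theorem arcB {A Z : Set (ℂ × ℝ)} (hA : IsClosed A) (hZ : IsClosed Z) {k : ℝ → ℝ → ℂ × ℝ} {a a' b' b : ℝ}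
    (h1 : a < a') (h3 : b' < b) (hk : ContDiff ℝ ∞ fun p : ℝ × ℝ => k p.1 p.2)
    (hend : ∀ s ∈ Icc (0 : ℝ) 1, ∀ t ∈ Icc a b, t ≤ a' ∨ b' ≤ t → k s t = k 0 t)
    (hkZ : ∀ s ∈ Icc (0 : ℝ) 1, ∀ t ∈ Icc a' b', k s t ∉ A ∧ k s t ∉ Z)
    (himm : ∀ s ∈ Icc (0 : ℝ) 1, ∀ t ∈ Icc a b, deriv (k s) t ≠ 0)
    (hinj : ∀ s ∈ Icc (0 : ℝ) 1, InjOn (k s) (Icc a b)) :
    PEq A (Z ∪ k 0 '' Icc a b) A (Z ∪ k 1 '' Icc a b) := by
  obtain ⟨F, hF, hFk⟩ := arc_iso (hA.union hZ) h1 h3 hk hend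
    (fun s hs t ht h => h.elim (hkZ s hs t ht).1 (hkZ s hs t ht).2) himm hinj
  have h2 : F '' (Z ∪ k 0 '' Icc a b) = Z ∪ k 1 '' Icc a b := by
    rw [image_union, hF.image_disj (disjoint_compl_right.mono_left subset_union_right)]
    congr 1
    rw [image_image]
    exact image_congr hFk
  have h4 : F '' A = A := hF.image_disj (disjoint_compl_right.mono_left subset_union_left)
  have := PEq.diff A (Z ∪ k 0 '' Icc a b) (hF.mono (subset_univ _))
  rwa [h2, h4] at this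

/-- isotopy of the whole line `A = range (k s)`, moving for `|t| ≤ T` only -/
theorem lineA {B : Set (ℂ × ℝ)} (hB : IsClosed B) {k : ℝ → ℝ → ℂ × ℝ} {T C : ℝ}
    (hk : ContDiff ℝ ∞ fun p : ℝ × ℝ => k p.1 p.2)
    (hend : ∀ s ∈ Icc (0 : ℝ) 1, ∀ t, T ≤ |t| → k s t = k 0 t)
    (hprop : ∀ t, |t| ≤ ‖k 0 t‖ + C)
    (hkB : ∀ s ∈ Icc (0 : ℝ) 1, ∀ t, |t| ≤ T → k s t ∉ B)
    (himm : ∀ s ∈ Icc (0 : ℝ) 1, ∀ t, deriv (k s) t ≠ 0)
    (hinj : ∀ s ∈ Icc (0 : ℝ) 1, Function.Injective (k s)) :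
    PEq (range (k 0)) B (range (k 1)) B := by
  have hc : Continuous (k 0) := hk.continuous.comp (continuous_const.prodMk continuous_id)
  have hpr : IsProperMap (k 0) := by
    rw [isProperMap_iff_tendsto_cocompact]
    refine ⟨hc, ?_⟩
    rw [← Metric.cobounded_eq_cocompact (α := ℂ × ℝ), ← comap_norm_atTop, tendsto_comap_iff]
    have h1 : Tendsto (fun t : ℝ => |t| - C) (cocompact ℝ) atTop := by
      have := tendsto_norm_cocompact_atTop (E := ℝ)
      exact tendsto_atTop_add_const_right _ (-C) this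
    refine tendsto_atTop_mono (fun t => ?_) h1
    have := hprop t
    show |t| - C ≤ ‖k 0 t‖
    linarith
  set Z : Set (ℂ × ℝ) := k 0 '' {t | T + 1 ≤ |t|} with hZdef
  have hZ : IsClosed Z := hpr.isClosedMap _ (isClosed_le continuous_const continuous_abs)
  have hr : ∀ s ∈ Icc (0 : ℝ) 1, range (k s) = Z ∪ k s '' Icc (-(T + 1)) (T + 1) := by
    intro s hs
    ext x
    constructor
    · rintro ⟨t, rfl⟩
      rcases le_total (T + 1) |t| with h | h
      · exact Or.inl ⟨t, h, (hend s hs t (by linarith)).symm⟩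
      · exact Or.inr ⟨t, abs_le.1 h, rfl⟩
    · rintro (⟨t, ht, rfl⟩ | ⟨t, -, rfl⟩)
      · exact ⟨t, hend s hs t (by have : T + 1 ≤ |t| := ht; linarith)⟩
      · exact ⟨t, rfl⟩
  rw [hr 0 ⟨le_rfl, zero_le_one⟩, hr 1 ⟨zero_le_one, le_rfl⟩]
  refine arcA hZ hB (a' := -T) (b' := T) (by linarith) (by linarith) hk ?_ ?_ ?_ ?_
  · intro s hs t _ ht
    refine hend s hs t ?_
    rcases ht with ht | ht
    · exact (neg_le_neg_iff.2 ht |>.trans' (by linarith)).trans (neg_le_abs t)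
    · exact ht.trans (le_abs_self t)
  · intro s hs t ht
    have ht' : |t| ≤ T := abs_le.2 ht
    refine ⟨?_, hkB s hs t ht'⟩
    rintro ⟨t', ht2, he⟩
    have ht3 : T + 1 ≤ |t'| := ht2
    have h5 : k s t' = k s t := by rw [hend s hs t' (by linarith), he]
    have h6 := hinj s hs h5
    rw [h6] at ht3
    linarith
  · exact fun s hs t _ => himm s hs t
  · exact fun s hs => (hinj s hs).injOn

end Pool.Agent.LKH
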