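import Pool.Agent.LKH.Core
import Pool.Agent.LKH.Gen

/-!
# LKH/Ring: the far ring

`Rg R` is the circle `‖w‖ = R`, `h = 0`. If `B` is contained in the ball `‖q‖ < R`, then `B ∪ Rg R` has one more crossing with the half plane.
-/

open scoped ContDiff Topology
open Set Filter
open Complex (I)
open Pool.Agent.CSG
open Pool.Agent.KNT (Dom BalC Tubes Str CD U)
open Pool.Agent.LKF (PEq Mut StP StM BdC BdT)

namespace Pool.Agent.LKH

/-- the ring -/
def Rg (R : ℝ) : Set (ℂ × ℝ) := {q | ‖q.1‖ = R ∧ q.2 = 0}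

theorem ring_norm {R : ℝ} {q : ℂ × ℝ} (h : q ∈ Rg R) : ‖q‖ = R := by
  rw [Prod.norm_def, h.1, h.2, norm_zero]
  have : 0 ≤ R := by
    rw [← h.1]
    exact norm_nonneg _
  exact max_eq_left this

theorem ring_compact (R : ℝ) : IsCompact (Rg R) := by
  have h1 : IsCompact (Metric.closedBall (0 : ℂ × ℝ) R) := isCompact_closedBall 0 R
  refine h1.of_isClosed_subset ?_ ?_
  · exact (isClosed_eq (continuous_norm.comp continuous_fst) continuous_const).inter
      (isClosed_eq continuous_snd continuous_const)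
  · intro q hq
    rw [mem_closedBall_zero_iff]
    exact (ring_norm hq).le

theorem ring_hp {R : ℝ} (hR : 0 < R) : Rg R ∩ Hp = {pt 0 (-R) 0} := by
  ext q
  constructor
  · rintro ⟨⟨h1, h2⟩, h3, h4⟩
    have h5 : ‖q.1‖ ^ 2 = q.1.re ^ 2 + q.1.im ^ 2 := by
      rw [← Complex.normSq_eq_norm_sq, Complex.normSq_apply]
      ring
    rw [h1, h3] at h5
    have h6 : q.1.im = -R := by nlinarith
    show q = pt 0 (-R) 0
    refine Prod.ext (Complex.ext h3 h6) h2
  · rintro rfl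
    refine ⟨⟨?_, rfl⟩, rfl, ?_⟩
    · show ‖(⟨0, -R⟩ : ℂ)‖ = R
      have : (⟨0, -R⟩ : ℂ) = ((-R : ℝ) : ℂ) * I := by
        apply Complex.ext <;> simp
      rw [this, norm_mul, Complex.norm_I, mul_one, Complex.norm_real, norm_neg, Real.norm_of_nonneg hR.le]
    · show -R < 0
      linarith

theorem ring_crs {R : ℝ} (hR : 0 < R) : Crs (Rg R) (pt 0 (-R) 0) := by
  have hst : ∀ x : ℝ, 0 < R ^ 2 - x ^ 2 * (1 - stp (R ^ 2 / 16) (R ^ 2 / 4) (x ^ 2)) := by
    intro x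
    have h0 : R ^ 2 / 16 < R ^ 2 / 4 := by
      have := sq_pos_of_pos hR
      linarith
    have h1 := stp_nonneg (R ^ 2 / 16) (R ^ 2 / 4) (x ^ 2)
    have h2 := stp_le_one (R ^ 2 / 16) (R ^ 2 / 4) (x ^ 2)
    have h4 := sq_pos_of_pos hR
    rcases le_total (R ^ 2 / 4) (x ^ 2) with h3 | h3
    · rw [stp_one h0 h3]
      nlinarith
    · nlinarith [sq_nonneg x]
  refine ⟨fun x => -Real.sqrt (R ^ 2 - x ^ 2 * (1 - stp (R ^ 2 / 16) (R ^ 2 / 4) (x ^ 2))), fun _ => 0, R / 4, ?_,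
    contDiff_const, by positivity, ?_⟩
  · refine ContDiff.neg (ContDiff.sqrt ?_ fun x => (hst x).ne')
    exact contDiff_const.sub ((contDiff_id.pow 2).mul (contDiff_const.sub ((stp_smooth _ _).comp (contDiff_id.pow 2))))
  · intro q h1 h2 h3
    have e1 : (pt 0 (-R) 0).1.im = -R := rfl
    rw [e1] at h2
    have h5 : ‖q.1‖ ^ 2 = q.1.re ^ 2 + q.1.im ^ 2 := by
      rw [← Complex.normSq_eq_norm_sq, Complex.normSq_apply]
      ring
    have h6 : stp (R ^ 2 / 16) (R ^ 2 / 4) (q.1.re ^ 2) = 0 := by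
      apply stp_zero
      · have := sq_pos_of_pos hR
        linarith
      · have := sq_lt_sq' (neg_lt_of_abs_lt h1) (lt_of_abs_lt h1)
        nlinarith
    have h7 : q.1.im < 0 := by
      have := (abs_lt.1 h2).2
      linarith
    show ‖q.1‖ = R ∧ q.2 = 0 ↔ q.1.im = -Real.sqrt (R ^ 2 - q.1.re ^ 2 * (1 - stp (R ^ 2 / 16) (R ^ 2 / 4) (q.1.re ^ 2))) ∧ q.2 = 0
    rw [h6, sub_zero, mul_one]
    have h8 : q.1.re ^ 2 < R ^ 2 := by
      have := sq_lt_sq' (neg_lt_of_abs_lt h1) (lt_of_abs_lt h1)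
      nlinarith [sq_pos_of_pos hR]
    constructor
    · rintro ⟨h9, h10⟩
      refine ⟨?_, h10⟩
      rw [h9] at h5
      have : R ^ 2 - q.1.re ^ 2 = (-q.1.im) ^ 2 := by rw [h5]; ring
      rw [this, Real.sqrt_sq (by linarith), neg_neg]
    · rintro ⟨h9, h10⟩
      refine ⟨?_, h10⟩
      have h11 : q.1.im ^ 2 = R ^ 2 - q.1.re ^ 2 := by
        rw [h9, neg_sq, Real.sq_sqrt (by linarith)]
      rw [h11] at h5
      have h12 : ‖q.1‖ ^ 2 = R ^ 2 := by rw [h5]; ring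
      exact (sq_eq_sq₀ (norm_nonneg _) hR.le).1 h12

theorem ring_pre {B : Set (ℂ × ℝ)} (hB : Pre B) {R : ℝ} (hR : 0 < R) (h : ∀ q ∈ B, ‖q‖ < R) :
    Pre (B ∪ Rg R) ∧ (B ∪ Rg R) ∩ Hp = insert (pt 0 (-R) 0) (B ∩ Hp) := by
  have hi : (B ∪ Rg R) ∩ Hp = insert (pt 0 (-R) 0) (B ∩ Hp) := by
    rw [union_inter_distrib_right, ring_hp hR, union_comm]
    rfl
  refine ⟨⟨hB.cpt.union (ring_compact R), ?_, ?_, ?_⟩, hi⟩
  · rw [disjoint_union_right]
    refine ⟨hB.dis, ?_⟩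
    rw [Set.disjoint_left]
    rintro q hq ⟨h1, -⟩
    have : q.1 = 0 := hq
    rw [this, norm_zero] at h1
    linarith
  · rw [hi]
    exact hB.fin.insert _
  · intro x hx
    rw [hi] at hx
    rcases hx with hx | hx
    · subst hx
      refine crs_congr (ring_crs hR) ?_ rfl
      have h1 : pt 0 (-R) 0 ∉ B := by
        intro h2
        have h3 := h _ h2
        have h4 : pt 0 (-R) 0 ∈ Rg R := by
          have : pt 0 (-R) 0 ∈ Rg R ∩ Hp := by
            rw [ring_hp hR]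
            rfl
          exact this.1
        rw [ring_norm h4] at h3
        exact lt_irrefl _ h3
      filter_upwards [hB.cpt.isClosed.isOpen_compl.mem_nhds h1] with q hq
      constructor
      · rintro (h2 | h2)
        · exact absurd h2 hq
        · exact h2
      · exact fun h2 => Or.inr h2
    · refine crs_congr (hB.crs x hx) ?_ hx.2.1
      have h1 : ∀ᶠ q in 𝓝 x, ‖q‖ < R := (isOpen_lt continuous_norm continuous_const).mem_nhds (h x hx.1)
      filter_upwards [h1] with q hq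
      constructor
      · rintro (h2 | h2)
        · exact h2
        · rw [ring_norm h2] at hq
          exact absurd hq (lt_irrefl _)
      · exact fun h2 => Or.inl h2

/-- if `B` has exactly one crossing, the link `B ∪ Rg R` can be moved off the half plane. -/
theorem ring_off {B : Set (ℂ × ℝ)} (hB : Good B) {x : ℂ × ℝ} (hx : B ∩ Hp = {x}) {R : ℝ} (hR : 0 < R)
    (h : ∀ q ∈ B, ‖q‖ < R) : ∃ B' : Set (ℂ × ℝ), PEq U (B ∪ Rg R) U B' ∧ IsCompact B' ∧ Disjoint U B' ∧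
      B' ∩ Hp = ∅ := by
  obtain ⟨hP, hi⟩ := ring_pre ⟨hB.cpt, hB.dis, hB.fin, hB.crs⟩ hR h
  obtain ⟨F, hF, hFU, hFH, hG⟩ := hgt hP
  have hne : x ≠ pt 0 (-R) 0 := by
    intro he
    have h1 : x ∈ B := (by rw [hx]; rfl : x ∈ B ∩ Hp).1
    have h3 := h _ h1
    have h4 : pt 0 (-R) 0 ∈ Rg R := by
      have : pt 0 (-R) 0 ∈ Rg R ∩ Hp := by
        rw [ring_hp hR]
        rfl
      exact this.1
    rw [he, ring_norm h4] at h3
    exact lt_irrefl _ h3
  have hFi : (F '' (B ∪ Rg R)) ∩ Hp = {F x, F (pt 0 (-R) 0)} := by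
    have : (F '' (B ∪ Rg R)) ∩ Hp = F '' ((B ∪ Rg R) ∩ Hp) := by
      ext q
      constructor
      · rintro ⟨⟨p, hp, rfl⟩, h2⟩
        exact ⟨p, ⟨hp, (hFH p).1 h2⟩, rfl⟩
      · rintro ⟨p, ⟨hp, h2⟩, rfl⟩
        exact ⟨⟨p, hp, rfl⟩, (hFH p).2 h2⟩
    rw [this, hi, hx]
    ext q
    constructor
    · rintro ⟨p, hp | hp, rfl⟩
      · right
        rw [hp]
        rfl
      · left
        rw [hp]
    · rintro (rfl | hq)
      · exact ⟨x, Or.inr rfl, rfl⟩
      · rw [hq]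
        exact ⟨_, Or.inl rfl, rfl⟩
  obtain ⟨B', h1, h2, h3⟩ := core hG (x := F x) (y := F (pt 0 (-R) 0)) (by rw [hFi]; exact Or.inl rfl)
    (by rw [hFi]; exact Or.inr rfl) (fun he => hne (F.injective he))
  refine ⟨B', PEq.trans ?_ h1, h2.cpt, h2.dis, ?_⟩
  · have h4 := PEq.diff U (B ∪ Rg R) hF
    have h5 : F '' U = U := by
      ext q
      constructor
      · rintro ⟨p, hp, rfl⟩
        rw [hFU p hp]
        exact hp
      · intro hq
        exact ⟨q, hq, hFU q hq⟩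
    rwa [h5] at h4
  · rw [h3, hFi, Set.sdiff_self]

end Pool.Agent.LKH
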