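import Pool.Agent.LKH.Kd

/-!
# LKH/SA1 (difficulty 2): the first arc goes to the front layer

PROOF. `arcB` with `A = range K0` (closed: `closed_pt`, `Yk_smooth.continuous`; `K0 = fun t => pt (Xk t) (Yk t) (Hk t)` by `rfl`), `Z = W ∪ A2 '' J10` (closed: compact image), `a = -10`, `a' = -19/2`, `b' = 19/2`, `b = 10`,
`k s u = pt u (-2 * ((1 - s) * be (u / 4) + s * Bf u)) u`. `k 0 = A1`, `k 1 = X1`. Ends: `be (u/4) = 0`, `Bf u = 0` for `19/2 ≤ |u|`. Derivative `≠ 0` (first coordinate), injective (last coordinate).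
`k s u ∉ range K0`: `Xk t = u = Hk t`: `cross_one`: `t < 0`, `u = 1/4`, `Yk t = 0` but the depth of `k s (1/4)` is `-2`. `∉ A2 '' J10`: `u = v`, `u = -v`: `u = 0`, depth `-2 ≠ 0`. `∉ W`: `k s u ∈ Bx`.
The sets have to be reordered: `W ∪ A1 '' J ∪ A2 '' J = (W ∪ A2 '' J) ∪ A1 '' J`.
-/

open scoped ContDiff Topology
open Set Filter
open Complex (I)
open Pool.Agent.CSG
open Pool.Agent.KNT (Dom BalC Tubes Str CD U)
open Pool.Agent.LKF (PEq Mut StP StM BdC BdT)

namespace Pool.Agent.LKH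

theorem SA1_pt {E : Type*} [NormedAddCommGroup E] [NormedSpace ℝ E] {f g h : E → ℝ} (hf : ContDiff ℝ ∞ f)
    (hg : ContDiff ℝ ∞ g) (hh : ContDiff ℝ ∞ h) : ContDiff ℝ ∞ fun p => pt (f p) (g p) (h p) :=
  (Complex.equivRealProdCLM.symm.contDiff.comp (hf.prodMk hg)).prodMk hh

theorem SA1_der {k : ℝ → ℂ × ℝ} (hk : ContDiff ℝ ∞ k) (h : ∀ u, (k u).1.re = u) (t : ℝ) :
    deriv k t ≠ 0 := by
  intro h0
  have h1 : HasDerivAt k (deriv k t) t := ((hk.differentiable (by simp)) t).hasDerivAt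
  have h2 := ((Complex.reCLM.comp (ContinuousLinearMap.fst ℝ ℂ ℝ)).hasFDerivAt).comp_hasDerivAt t h1
  have h3 : ((Complex.reCLM.comp (ContinuousLinearMap.fst ℝ ℂ ℝ)) ∘ k) = id := by
    funext u
    exact h u
  rw [h3] at h2
  have h4 := h2.unique (hasDerivAt_id t)
  rw [h0, map_zero] at h4
  exact zero_ne_one h4

theorem SA1_inj {k : ℝ → ℂ × ℝ} (h : ∀ u, (k u).1.re = u) (S : Set ℝ) : InjOn k S := by
  intro u _ v _ he
  have := congrArg (fun q : ℂ × ℝ => q.1.re) he
  simp only [h] at this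
  exact this

theorem SA1_A2 : IsClosed (A2 '' J10) := by
  refine (isCompact_Icc.image ?_).isClosed
  exact (SA1_pt contDiff_id contDiff_const contDiff_id.neg).continuous

/-- the isotopy -/
noncomputable def SA1_k (s u : ℝ) : ℂ × ℝ := pt u (-2 * ((1 - s) * be (u / 4) + s * Bf u)) u

theorem SA1_k_smooth : ContDiff ℝ ∞ fun p : ℝ × ℝ => SA1_k p.1 p.2 := by
  refine SA1_pt contDiff_snd ?_ contDiff_snd
  refine contDiff_const.mul (((contDiff_const.sub contDiff_fst).mul
    (be_smooth.comp (contDiff_snd.div_const 4))).add (contDiff_fst.mul (Bf_smooth.comp contDiff_snd)))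

theorem sA1 {W : Set (ℂ × ℝ)} (hW : IsClosed W) (hd : Disjoint W Bx) :
    PEq (range K0) (W ∪ A1 '' J10 ∪ A2 '' J10) (range K0) (W ∪ X1 '' J10 ∪ A2 '' J10) := by
  have h0 : SA1_k 0 = A1 := by
    funext u
    unfold SA1_k A1
    congr 1
    ring
  have h1 : SA1_k 1 = X1 := by
    funext u
    unfold SA1_k X1
    congr 1
    ring
  have key := arcB (A := range K0) (Z := W ∪ A2 '' J10) (closed_pt Yk_smooth.continuous)
    (hW.union SA1_A2) (k := SA1_k) (a := -10) (a' := -(19 / 2)) (b' := 19 / 2) (b := 10)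
    (by norm_num) (by norm_num) SA1_k_smooth ?_ ?_ ?_ ?_
  · rw [h0, h1] at key
    have e1 : W ∪ A2 '' J10 ∪ A1 '' Icc (-10) 10 = W ∪ A1 '' J10 ∪ A2 '' J10 := union_right_comm _ _ _
    have e2 : W ∪ A2 '' J10 ∪ X1 '' Icc (-10) 10 = W ∪ X1 '' J10 ∪ A2 '' J10 := union_right_comm _ _ _
    rw [e1, e2] at key
    exact key
  · intro s hs t ht h
    have h9 : 19 / 2 ≤ |t| := by
      rcases h with h | h
      · rw [abs_of_nonpos (by linarith)]
        linarith
      · rw [abs_of_nonneg (by linarith)]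
        exact h
    unfold SA1_k
    rw [be_zero (s := t / 4) (by rw [abs_div, abs_of_pos (by norm_num : (0 : ℝ) < 4)]; linarith),
      Bf_zero (by linarith)]
    congr 1
    ring
  · intro s hs t ht
    refine ⟨?_, ?_⟩
    · rintro ⟨x, hx⟩
      have e1 : Xk x = t := congrArg (fun q : ℂ × ℝ => q.1.re) hx
      have e2 : Yk x = -2 * ((1 - s) * be (t / 4) + s * Bf t) :=
        congrArg (fun q : ℂ × ℝ => q.1.im) hx
      have e3 : Hk x = t := congrArg (fun q : ℂ × ℝ => q.2) hx
      obtain ⟨hx0, hx1⟩ := cross_one (e3.trans e1.symm)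
      rw [Yk_neg hx0.le] at e2
      have ht4 : t = 1 / 4 := e1.symm.trans hx1
      rw [be_one (s := t / 4) (by rw [ht4, abs_of_pos] <;> norm_num),
        Bf_one (by rw [ht4, abs_of_pos] <;> norm_num)] at e2
      linarith
    · rintro (h | ⟨v, hv, hv'⟩)
      · refine (Set.disjoint_left.mp hd h) ⟨?_, ?_, ?_⟩
        · show |t| ≤ 19 / 2
          rw [abs_le]
          exact ⟨by linarith [ht.1], ht.2⟩
        · show |-2 * ((1 - s) * be (t / 4) + s * Bf t)| ≤ 5 / 2
          have hb := be_mem (t / 4)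
          have hB := Bf_mem t
          have g1 : 0 ≤ (1 - s) * be (t / 4) := mul_nonneg (by linarith [hs.2]) hb.1
          have g2 : 0 ≤ s * Bf t := mul_nonneg hs.1 hB.1
          have g3 : (1 - s) * be (t / 4) ≤ 1 - s :=
            mul_le_of_le_one_right (by linarith [hs.2]) hb.2
          have g4 : s * Bf t ≤ s := mul_le_of_le_one_right hs.1 hB.2
          rw [abs_le]
          constructor <;> linarith
        · show |t| ≤ 13
          rw [abs_le]
          exact ⟨by linarith [ht.1], by linarith [ht.2]⟩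
      · have e1 : v = t := congrArg (fun q : ℂ × ℝ => q.1.re) hv'
        have e2 : (0 : ℝ) = -2 * ((1 - s) * be (t / 4) + s * Bf t) :=
          congrArg (fun q : ℂ × ℝ => q.1.im) hv'
        have e3 : -v = t := congrArg (fun q : ℂ × ℝ => q.2) hv'
        have ht0 : t = 0 := by linarith
        rw [ht0, be_one (s := 0 / 4) (by norm_num), Bf_one (by norm_num)] at e2
        linarith
  · intro s hs t ht
    exact SA1_der (SA1_k_smooth.comp (contDiff_const.prodMk contDiff_id)) (fun u => rfl) t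
  · intro s hs
    exact SA1_inj (fun u => rfl) _

end Pool.Agent.LKH
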